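import Pool.Agent.Lib.H32N.NDefs

set_option autoImplicit false

/-!
# H32N, chunk A1 (S/M): elementary automorphisms of the free group

`ψ` and `ψ'` are given by `FreeGroup.lift`: `x ↦ a x^{±1} b` and `x ↦ (a⁻¹ x b⁻¹)^{±1}`, the other letters are fixed. Both fix every element of `FS {x}ᶜ`
(closure induction), so they are inverse to each other on the letters (`FreeGroup.ext_hom`), `MonoidHom.toMulEquiv`.

Auxiliary names start with `a1_`.
-/

namespace H32N

/-- An endomorphism which fixes the letters in `S` fixes `FS S`. -/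
theorem FS_fixed {X : Type} {S : Set X} (f : FreeGroup X →* FreeGroup X) (h : ∀ z ∈ S, f (FreeGroup.of z) = FreeGroup.of z) :
    ∀ a ∈ FS S, f a = a := by
  intro a ha
  have h1 : Set.EqOn f (MonoidHom.id (FreeGroup X)) (FreeGroup.of '' S) := by
    rintro _ ⟨z, hz, rfl⟩
    exact h z hz
  exact MonoidHom.eqOn_closure h1 ha

/-- A homomorphism which maps the letters in `S` into the subgroup `T` maps `FS S` into `T`. -/
theorem FS_maps {X Y : Type} [Group Y] {S : Set X} (f : FreeGroup X →* Y) (T : Subgroup Y) (h : ∀ z ∈ S, f (FreeGroup.of z) ∈ T) :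
    ∀ a ∈ FS S, f a ∈ T := by
  intro a ha
  have h1 : FS S ≤ T.comap f := by
    unfold FS
    rw [Subgroup.closure_le]
    rintro _ ⟨z, hz, rfl⟩
    exact h z hz
  exact h1 ha

theorem FS_mono {X : Type} {S T : Set X} (h : S ⊆ T) : FS S ≤ FS T := by
  exact Subgroup.closure_mono (Set.image_mono h)

/-- A word in letters in `S` is in `FS S`. -/
theorem mk_mem_FS {X : Type} (S : Set X) (r : List (X × Bool)) (h : ∀ p ∈ r, p.1 ∈ S) : FreeGroup.mk r ∈ FS S := by
  induction r with
  | nil => exact (FS S).one_mem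
  | cons p r ih =>
    have h1 : FreeGroup.mk (p :: r) = FreeGroup.mk [p] * FreeGroup.mk r := by
      rw [FreeGroup.mul_mk]
      rfl
    rw [h1]
    refine (FS S).mul_mem ?_ (ih fun q hq => h q (List.mem_cons_of_mem _ hq))
    obtain ⟨x, b⟩ := p
    have hx : FreeGroup.of x ∈ FS S :=
      Subgroup.subset_closure ⟨x, h (x, b) (by simp), rfl⟩
    cases b with
    | true => exact hx
    | false =>
      have h2 : FreeGroup.mk [(x, false)] = (FreeGroup.of x)⁻¹ := rfl
      rw [h2]
      exact (FS S).inv_mem hx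

theorem exists_nielsen {X : Type} [DecidableEq X] (x : X) (a b : FreeGroup X) (ha : a ∈ FS {x}ᶜ) (hb : b ∈ FS {x}ᶜ) (ε : Bool) :
    ∃ ψ : FreeGroup X ≃* FreeGroup X, ψ (FreeGroup.mk [(x, ε)]) = a * FreeGroup.of x * b ∧
      ∀ z, z ≠ x → ψ (FreeGroup.of z) = FreeGroup.of z := by
  have hT : FreeGroup.mk [(x, true)] = FreeGroup.of x := rfl
  have hF : FreeGroup.mk [(x, false)] = (FreeGroup.of x)⁻¹ := rfl
  let f : FreeGroup X →* FreeGroup X := FreeGroup.lift (fun z => if z = x then
    (if ε then a * FreeGroup.of x * b else (a * FreeGroup.of x * b)⁻¹) else FreeGroup.of z)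
  let g : FreeGroup X →* FreeGroup X := FreeGroup.lift (fun z => if z = x then
    (a⁻¹ * FreeGroup.mk [(x, ε)] * b⁻¹) else FreeGroup.of z)
  have f1 : ∀ z, z ≠ x → f (FreeGroup.of z) = FreeGroup.of z := fun z hz => by
    simp [f, hz]
  have g1 : ∀ z, z ≠ x → g (FreeGroup.of z) = FreeGroup.of z := fun z hz => by
    simp [g, hz]
  have fx : f (FreeGroup.of x) =
      (if ε then a * FreeGroup.of x * b else (a * FreeGroup.of x * b)⁻¹) := by
    simp [f]
  have gx : g (FreeGroup.of x) = a⁻¹ * FreeGroup.mk [(x, ε)] * b⁻¹ := by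
    simp only [g, FreeGroup.lift_apply_of, if_true]
  have fa : f a = a := FS_fixed f (fun z hz => f1 z hz) a ha
  have fb : f b = b := FS_fixed f (fun z hz => f1 z hz) b hb
  have ga : g a = a := FS_fixed g (fun z hz => g1 z hz) a ha
  have gb : g b = b := FS_fixed g (fun z hz => g1 z hz) b hb
  have fm : f (FreeGroup.mk [(x, ε)]) = a * FreeGroup.of x * b := by
    cases ε with
    | true => rw [hT, fx, if_pos rfl]
    | false =>
      rw [hF, map_inv, fx, if_neg (by simp), inv_inv]
  have h1 : g.comp f = MonoidHom.id _ := by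
    refine FreeGroup.ext_hom _ _ fun z => ?_
    by_cases hz : z = x
    · subst hz
      rw [MonoidHom.comp_apply, fx, MonoidHom.id_apply]
      cases ε with
      | true =>
        rw [if_pos rfl, map_mul, map_mul, ga, gb, gx, hT]
        group
      | false =>
        rw [if_neg (by simp), map_inv, map_mul, map_mul, ga, gb, gx, hF]
        group
    · rw [MonoidHom.comp_apply, f1 z hz, g1 z hz, MonoidHom.id_apply]
  have h2 : f.comp g = MonoidHom.id _ := by
    refine FreeGroup.ext_hom _ _ fun z => ?_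
    by_cases hz : z = x
    · subst hz
      rw [MonoidHom.comp_apply, gx, MonoidHom.id_apply, map_mul, map_mul, map_inv, map_inv, fa, fb,
        fm]
      group
    · rw [MonoidHom.comp_apply, g1 z hz, f1 z hz, MonoidHom.id_apply]
  exact ⟨MonoidHom.toMulEquiv f g h1 h2, fm, f1⟩

end H32N
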