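import Pool.Agent.Lib.H32N.NDefs

set_option autoImplicit false

/-!
# H32N, chunk A2 (M): a cancelling pair or a linked pair

`r` is a nonempty list of letters without repetition, closed under inversion. Choose `x, b` and a decomposition `r = P ++ (x, b) :: (M ++ (x, !b) :: S)` with `M` as
short as possible (one exists: the first letter and its inverse). If `M = []` the first alternative holds. Otherwise let `(y, c)` be the first element of
`M`; `y ≠ x` by `Nodup`; its inverse `(y, !c)` is in `r`, and not in `M` by minimality (if it is in `M`, after `(y, c)`, the part between is shorter). If it is in `S`: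
second alternative. If it is in `P = P1 ++ (y, !c) :: P2`: second alternative with the two letters interchanged.

Auxiliary names start with `a2_`.
-/

namespace H32N

theorem exists_pair {X : Type} [DecidableEq X] (r : List (X × Bool)) (hne : r ≠ []) (hn : r.Nodup) (hc : ∀ x b, (x, b) ∈ r → (x, !b) ∈ r) :
    (∃ (P S : List (X × Bool)) (x : X) (b : Bool), r = P ++ (x, b) :: (x, !b) :: S) ∨
      ∃ (P Q R S T : List (X × Bool)) (x y : X) (b c : Bool), x ≠ y ∧
        r = P ++ (x, b) :: (Q ++ (y, c) :: (R ++ (x, !b) :: (S ++ (y, !c) :: T))) := by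
  classical
  have hex : ∃ k, ∃ (P M S : List (X × Bool)) (x : X) (b : Bool),
      r = P ++ (x, b) :: (M ++ (x, !b) :: S) ∧ M.length = k := by
    cases r with
    | nil => exact absurd rfl hne
    | cons p t =>
      obtain ⟨x, b⟩ := p
      have h1 := hc x b (by simp)
      rw [List.mem_cons] at h1
      rcases h1 with h1 | h1
      · simp at h1
      · obtain ⟨M, S, rfl⟩ := List.append_of_mem h1
        exact ⟨M.length, [], M, S, x, b, rfl, rfl⟩
  obtain ⟨P, M, S, x, b, h1, h2⟩ := Nat.find_spec hex
  have hmin : ∀ (P' M' S' : List (X × Bool)) (x' : X) (b' : Bool),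
      r = P' ++ (x', b') :: (M' ++ (x', !b') :: S') → M.length ≤ M'.length := by
    intro P' M' S' x' b' h
    rw [h2]
    exact Nat.find_min' hex ⟨P', M', S', x', b', h, rfl⟩
  cases M with
  | nil => exact Or.inl ⟨P, S, x, b, h1⟩
  | cons p M =>
    obtain ⟨y, c⟩ := p
    right
    have hn' := hn
    rw [h1] at hn'
    have hyx : y ≠ x := by
      rintro rfl
      rw [List.nodup_append] at hn'
      have h3 := hn'.2.1
      rw [List.nodup_cons] at h3
      have h4 := h3.2
      rw [List.cons_append, List.nodup_cons] at h4
      rcases Bool.eq_or_eq_not c b with e | e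
      · exact h3.1 (by simp [e])
      · exact h4.1 (by simp [e])
    have h3 : (y, !c) ∈ r := hc y c (by rw [h1]; simp)
    rw [h1] at h3
    simp only [List.mem_append, List.mem_cons, List.cons_append] at h3
    rcases h3 with h3 | h3 | h3 | h3 | h3 | h3
    · obtain ⟨P1, P2, rfl⟩ := List.append_of_mem h3
      refine ⟨P1, P2, [], M, S, y, x, !c, b, hyx, ?_⟩
      rw [h1]
      simp
    · exact absurd (congrArg Prod.fst h3) hyx
    · simp at h3
    · obtain ⟨A, B, rfl⟩ := List.append_of_mem h3
      have h4 := hmin (P ++ [(x, b)]) A (B ++ (x, !b) :: S) y c (by rw [h1]; simp)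
      simp at h4
    · exact absurd (congrArg Prod.fst h3) hyx
    · obtain ⟨S1, T, rfl⟩ := List.append_of_mem h3
      refine ⟨P, [], M, S1, T, x, y, b, c, hyx.symm, ?_⟩
      rw [h1]
      simp

end H32N
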