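import Pool.Agent.Lib.H32N.A1

set_option autoImplicit false

/-!
# H32N, chunk A3 (M): a linked pair becomes a commutator

In the free group write `P, .., T` for the classes of the lists. Automorphisms (`exists_nielsen` twice): `(x, b) ↦ S R x`, `(y, c) ↦ Q⁻¹ y R⁻¹`, the other letters
fixed. Then `P x Q y R x⁻¹ S y⁻¹ T` becomes
`P (S R x) Q (Q⁻¹ y R⁻¹) R (x⁻¹ R⁻¹ S⁻¹) S (R y⁻¹ Q) T = (P S R) [x, y] (Q T P S R) (P S R)⁻¹`.
The remaining letters are not `x`, `y`, so they are fixed by both. `ψ (of x)` is `S R x` or its inverse, etc.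

Auxiliary names start with `a3_`.
-/

namespace H32N

theorem nf_step {X : Type} [DecidableEq X] (P Q R S T : List (X × Bool)) (x y : X) (b c : Bool) (hxy : x ≠ y)
    (h : ∀ p ∈ P ++ Q ++ R ++ S ++ T, p.1 ≠ x ∧ p.1 ≠ y) (Y : Set X) (hx : x ∈ Y) (hy : y ∈ Y) (hY : ∀ p ∈ P ++ Q ++ R ++ S ++ T, p.1 ∈ Y) :
    ∃ ψ : FreeGroup X ≃* FreeGroup X, (∀ z, z ≠ x → z ≠ y → ψ (FreeGroup.of z) = FreeGroup.of z) ∧
      (∀ z ∈ Y, ψ (FreeGroup.of z) ∈ FS Y) ∧
      ψ (FreeGroup.mk (P ++ (x, b) :: (Q ++ (y, c) :: (R ++ (x, !b) :: (S ++ (y, !c) :: T))))) =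
        FreeGroup.mk (P ++ S ++ R) * (cm (FreeGroup.of x) (FreeGroup.of y) * FreeGroup.mk (Q ++ T ++ P ++ S ++ R)) *
          (FreeGroup.mk (P ++ S ++ R))⁻¹ := by
  have hsub : ∀ L : List (X × Bool), (∀ p ∈ L, p ∈ P ++ Q ++ R ++ S ++ T) →
      FreeGroup.mk L ∈ FS ({x}ᶜ : Set X) ∧ FreeGroup.mk L ∈ FS ({y}ᶜ : Set X) ∧
        FreeGroup.mk L ∈ FS Y := fun L hL =>
    ⟨mk_mem_FS _ _ fun p hp => (h p (hL p hp)).1, mk_mem_FS _ _ fun p hp => (h p (hL p hp)).2,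
      mk_mem_FS _ _ fun p hp => hY p (hL p hp)⟩
  have hP := hsub P (fun p hp => by simp [hp])
  have hQ := hsub Q (fun p hp => by simp [hp])
  have hR := hsub R (fun p hp => by simp [hp])
  have hS := hsub S (fun p hp => by simp [hp])
  have hT := hsub T (fun p hp => by simp [hp])
  obtain ⟨ψ1, a1, a2⟩ := exists_nielsen x (FreeGroup.mk S * FreeGroup.mk R) 1
    (Subgroup.mul_mem _ hS.1 hR.1) (Subgroup.one_mem _) b
  obtain ⟨ψ2, b1, b2⟩ := exists_nielsen y (FreeGroup.mk Q)⁻¹ (FreeGroup.mk R)⁻¹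
    (Subgroup.inv_mem _ hQ.2.1) (Subgroup.inv_mem _ hR.2.1) c
  have c1 : ∀ z ∈ FS ({x}ᶜ : Set X), ψ1 z = z :=
    FS_fixed ψ1.toMonoidHom (fun z hz => a2 z hz)
  have c2 : ∀ z ∈ FS ({y}ᶜ : Set X), ψ2 z = z :=
    FS_fixed ψ2.toMonoidHom (fun z hz => b2 z hz)
  have hx2 : ψ2 (FreeGroup.of x) = FreeGroup.of x := b2 x hxy
  have hy1 : ψ1 (FreeGroup.mk [(y, c)]) = FreeGroup.mk [(y, c)] :=
    c1 _ (mk_mem_FS _ _ fun p hp => by
      rw [List.mem_singleton] at hp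
      rw [hp]
      exact hxy.symm)
  have d1 : ψ2 (ψ1 (FreeGroup.mk [(x, b)])) = FreeGroup.mk S * FreeGroup.mk R * FreeGroup.of x := by
    rw [a1, mul_one, map_mul, map_mul, c2 _ hS.2.1, c2 _ hR.2.1, hx2]
  have d2 : ψ2 (ψ1 (FreeGroup.mk [(y, c)])) =
      (FreeGroup.mk Q)⁻¹ * FreeGroup.of y * (FreeGroup.mk R)⁻¹ := by
    rw [hy1, b1]
  have dL : ∀ L : List (X × Bool), (∀ p ∈ L, p ∈ P ++ Q ++ R ++ S ++ T) →
      ψ2 (ψ1 (FreeGroup.mk L)) = FreeGroup.mk L := fun L hL => by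
    rw [c1 _ (hsub L hL).1, c2 _ (hsub L hL).2.1]
  have inv1 : ∀ (z : X) (b : Bool), FreeGroup.mk [(z, !b)] = (FreeGroup.mk [(z, b)])⁻¹ :=
    fun z b => by rw [FreeGroup.inv_mk]; rfl
  have hofx : FreeGroup.of x ∈ FS Y := Subgroup.subset_closure ⟨x, hx, rfl⟩
  have hofy : FreeGroup.of y ∈ FS Y := Subgroup.subset_closure ⟨y, hy, rfl⟩
  have hcons : ∀ (p : X × Bool) (L : List (X × Bool)),
      FreeGroup.mk (p :: L) = FreeGroup.mk [p] * FreeGroup.mk L := fun p L => by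
    rw [FreeGroup.mul_mk]; rfl
  have happ : ∀ (L L' : List (X × Bool)),
      FreeGroup.mk (L ++ L') = FreeGroup.mk L * FreeGroup.mk L' := fun L L' => by
    rw [FreeGroup.mul_mk]
  refine ⟨ψ1.trans ψ2, fun z h1 h2 => ?_, fun z hz => ?_, ?_⟩
  · rw [MulEquiv.trans_apply, a2 z h1, b2 z h2]
  · rw [MulEquiv.trans_apply]
    by_cases h1 : z = x
    · subst h1
      have h3 : FreeGroup.mk S * FreeGroup.mk R * FreeGroup.of z ∈ FS Y :=
        Subgroup.mul_mem _ (Subgroup.mul_mem _ hS.2.2 hR.2.2) hofx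
      cases b with
      | true => exact d1 ▸ h3
      | false =>
        have h4 : FreeGroup.of z = (FreeGroup.mk [(z, false)])⁻¹ := inv1 z false
        rw [h4, map_inv, map_inv, d1]
        exact Subgroup.inv_mem _ h3
    by_cases h2 : z = y
    · subst h2
      have h3 : (FreeGroup.mk Q)⁻¹ * FreeGroup.of z * (FreeGroup.mk R)⁻¹ ∈ FS Y :=
        Subgroup.mul_mem _ (Subgroup.mul_mem _ (Subgroup.inv_mem _ hQ.2.2) hofy)
          (Subgroup.inv_mem _ hR.2.2)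
      cases c with
      | true => exact d2 ▸ h3
      | false =>
        have h4 : FreeGroup.of z = (FreeGroup.mk [(z, false)])⁻¹ := inv1 z false
        rw [h4, map_inv, map_inv, d2]
        exact Subgroup.inv_mem _ h3
    rw [a2 z h1, b2 z h2]
    exact Subgroup.subset_closure ⟨z, hz, rfl⟩
  · rw [MulEquiv.trans_apply]
    have e1 : FreeGroup.mk (P ++ (x, b) :: (Q ++ (y, c) :: (R ++ (x, !b) :: (S ++ (y, !c) :: T)))) =
        FreeGroup.mk P * FreeGroup.mk [(x, b)] * FreeGroup.mk Q * FreeGroup.mk [(y, c)] *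
          FreeGroup.mk R * (FreeGroup.mk [(x, b)])⁻¹ * FreeGroup.mk S * (FreeGroup.mk [(y, c)])⁻¹ *
          FreeGroup.mk T := by
      rw [happ P, hcons (x, b), happ Q, hcons (y, c), happ R, hcons (x, !b), happ S,
        hcons (y, !c), inv1, inv1]
      simp only [mul_assoc]
    rw [e1]
    simp only [map_mul, map_inv, d1, d2]
    rw [dL P (fun p hp => by simp [hp]), dL Q (fun p hp => by simp [hp]),
      dL R (fun p hp => by simp [hp]), dL S (fun p hp => by simp [hp]),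
      dL T (fun p hp => by simp [hp])]
    simp only [happ, cm]
    group

/-- Conjugation of two letters by a word in the others. -/
theorem conj_step {X : Type} [DecidableEq X] (x y : X) (hxy : x ≠ y) (u : FreeGroup X) (hu : u ∈ FS ({x, y}ᶜ : Set X)) :
    ∃ ψ : FreeGroup X ≃* FreeGroup X, (∀ z, z ≠ x → z ≠ y → ψ (FreeGroup.of z) = FreeGroup.of z) ∧
      ψ (FreeGroup.of x) = u * FreeGroup.of x * u⁻¹ ∧ ψ (FreeGroup.of y) = u * FreeGroup.of y * u⁻¹ := by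
  have hux : u ∈ FS ({x}ᶜ : Set X) := FS_mono (Set.compl_subset_compl.2 (by
    intro z hz
    exact Or.inl hz)) hu
  have huy : u ∈ FS ({y}ᶜ : Set X) := FS_mono (Set.compl_subset_compl.2 (by
    intro z hz
    exact Or.inr hz)) hu
  obtain ⟨ψ1, a1, a2⟩ := exists_nielsen x u u⁻¹ hux (Subgroup.inv_mem _ hux) true
  obtain ⟨ψ2, b1, b2⟩ := exists_nielsen y u u⁻¹ huy (Subgroup.inv_mem _ huy) true
  have c2 : ψ2 u = u := FS_fixed ψ2.toMonoidHom (fun z hz => b2 z hz) u huy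
  refine ⟨ψ1.trans ψ2, fun z h1 h2 => ?_, ?_, ?_⟩
  · rw [MulEquiv.trans_apply, a2 z h1, b2 z h2]
  · have e : FreeGroup.of x = FreeGroup.mk [(x, true)] := rfl
    rw [MulEquiv.trans_apply]
    conv_lhs => rw [e, a1]
    rw [map_mul, map_mul, map_inv, c2, b2 x hxy]
  · have e : FreeGroup.of y = FreeGroup.mk [(y, true)] := rfl
    rw [MulEquiv.trans_apply, a2 y hxy.symm]
    conv_lhs => rw [e, b1]

end H32N
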