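import Pool.Agent.Lib.H32N.A2
import Pool.Agent.Lib.H32N.A3

set_option autoImplicit false

/-!
# H32N, chunk A4 (M/L): the normal form theorem

Strong induction on the length of `r`. `r = []`: `φ = 1`, `L = []`, `u = 1`. Otherwise use `exists_pair`.
* `r = P ++ (x, b) :: (x, !b) :: S`: the class of `r` is the class of `r' = P ++ S`, take the result for `r'` (its letters are letters of `r`; `x` is not a letter of
  `r'` by `Nodup`; for a letter `z` of `r` which is not one of `r'`, `φ (of z) = of z`).
* linked: `r' = Q ++ T ++ P ++ S ++ R` (again without repetition, closed under inversion, without the letters `x`, `y`), `(φ', L', u')` by induction, `ψ` from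
  `nf_step` with `Y = {z | (z, true) ∈ r}`, `v = mk (P ++ S ++ R)`. `φ'` fixes `x` and `y`, so
  `φ' (ψ (mk r)) = φ' v * (cm x y * (u' * Π' * u'⁻¹)) * (φ' v)⁻¹`, `Π' = (L'.map ..).prod`, and with `w = φ' v * u'` this is
  `w * (cm (u'⁻¹ x u') (u'⁻¹ y u') * Π') * w⁻¹`. Take `χ` from `conj_step` with `u'`: `χ` fixes `u'` and `Π'` (they are in `FS` of the letters of `r'`), so
  `χ (u'⁻¹ x u') = x`, `χ (u'⁻¹ y u') = y` and `φ = χ ∘ φ' ∘ ψ`, `L = (x, y) :: L'`, `u = χ w`.
For a letter `(z, b) ∈ r` we have `(z, true) ∈ r` by `hc`. `FS_fixed`, `FS_maps`, `FS_mono`, `mk_mem_FS` in chunk A1.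

Auxiliary names start with `a4_`.
-/

namespace H32N

theorem normal_form {X : Type} [DecidableEq X] (r : List (X × Bool)) (hn : r.Nodup) (hc : ∀ x b, (x, b) ∈ r → (x, !b) ∈ r) :
    ∃ (φ : FreeGroup X ≃* FreeGroup X) (L : List (X × X)) (u : FreeGroup X), NF r φ L u := by
  obtain ⟨n, hn'⟩ : ∃ n, r.length = n := ⟨_, rfl⟩
  induction n using Nat.strong_induction_on generalizing r with
  | _ n ih =>
    by_cases hne : r = []
    · subst hne
      exact ⟨MulEquiv.refl _, [], 1, ⟨by simp, by simp, fun z _ => rfl, fun z hz => by simp at hz,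
        Subgroup.one_mem _, by simp; rfl⟩⟩
    rcases exists_pair r hne hn hc with ⟨P, S, x, b, hr⟩ | ⟨P, Q, R, S, T, x, y, b, c, hxy, hr⟩
    · have hperm : List.Perm r ((x, b) :: (x, !b) :: (P ++ S)) := by
        rw [hr]
        refine List.perm_iff_count.2 fun a => ?_
        simp only [List.count_append, List.count_cons]
        ring
      have hn1 := hperm.nodup_iff.1 hn
      rw [List.nodup_cons, List.nodup_cons] at hn1
      obtain ⟨hb1, hb2, hn2⟩ := hn1
      have hbx : ∀ d, (x, d) ∉ P ++ S := by
        intro d hd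
        rcases Bool.eq_or_eq_not d b with e | e
        · exact hb1 (List.mem_cons_of_mem _ (e ▸ hd))
        · exact hb2 (e ▸ hd)
      have hsub : ∀ p, p ∈ P ++ S → p ∈ r := fun p hp =>
        hperm.mem_iff.2 (List.mem_cons_of_mem _ (List.mem_cons_of_mem _ hp))
      have hc' : ∀ z d, (z, d) ∈ P ++ S → (z, !d) ∈ P ++ S := by
        intro z d hd
        have h1 := hperm.mem_iff.1 (hc z d (hsub _ hd))
        have hz : z ≠ x := fun e => hbx d (e ▸ hd)
        rw [List.mem_cons, List.mem_cons] at h1
        rcases h1 with h1 | h1 | h1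
        · exact absurd (congrArg Prod.fst h1) hz
        · exact absurd (congrArg Prod.fst h1) hz
        · exact h1
      have hlen : (P ++ S).length < n := by
        rw [← hn', hperm.length_eq]
        simp
      obtain ⟨φ, L, u, H⟩ := ih _ hlen (P ++ S) hn2 hc' rfl
      have hFS : FS {z | (z, true) ∈ P ++ S} ≤ FS {z | (z, true) ∈ r} :=
        FS_mono fun z hz => hsub _ hz
      refine ⟨φ, L, u, ⟨H.nodup, fun p hp => ⟨hsub _ (H.sub p hp).1, hsub _ (H.sub p hp).2⟩,
        fun z hz => H.fix z fun h => hz (hsub _ h), fun z hz => ?_, hFS H.umem, ?_⟩⟩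
      · by_cases h1 : (z, true) ∈ P ++ S
        · exact hFS (H.maps z h1)
        · rw [H.fix z h1]
          exact Subgroup.subset_closure ⟨z, hz, rfl⟩
      · have h1 : FreeGroup.mk r = FreeGroup.mk (P ++ S) := by
          have e1 : FreeGroup.mk [(x, b)] * FreeGroup.mk [(x, !b)] = 1 := by
            have : FreeGroup.mk [(x, !b)] = (FreeGroup.mk [(x, b)])⁻¹ := by
              rw [FreeGroup.inv_mk]; rfl
            rw [this, mul_inv_cancel]
          have e2 : r = P ++ (([(x, b)] ++ [(x, !b)]) ++ S) := by rw [hr]; simp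
          rw [e2, ← FreeGroup.mul_mk, ← FreeGroup.mul_mk, ← FreeGroup.mul_mk, e1, one_mul,
            FreeGroup.mul_mk]
        rw [h1]
        exact H.eq
    · have hperm : List.Perm r
          ((x, b) :: (x, !b) :: (y, c) :: (y, !c) :: (Q ++ T ++ P ++ S ++ R)) := by
        rw [hr]
        refine List.perm_iff_count.2 fun a => ?_
        simp only [List.count_append, List.count_cons]
        ring
      have hn1 := hperm.nodup_iff.1 hn
      rw [List.nodup_cons, List.nodup_cons, List.nodup_cons, List.nodup_cons] at hn1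
      obtain ⟨hb1, hb2, hb3, hb4, hn2⟩ := hn1
      have hbx : ∀ d, (x, d) ∉ Q ++ T ++ P ++ S ++ R := by
        intro d hd
        rcases Bool.eq_or_eq_not d b with e | e
        · exact hb1 (List.mem_cons_of_mem _ (List.mem_cons_of_mem _ (List.mem_cons_of_mem _ (e ▸ hd))))
        · exact hb2 (List.mem_cons_of_mem _ (List.mem_cons_of_mem _ (e ▸ hd)))
      have hby : ∀ d, (y, d) ∉ Q ++ T ++ P ++ S ++ R := by
        intro d hd
        rcases Bool.eq_or_eq_not d c with e | e
        · exact hb3 (List.mem_cons_of_mem _ (e ▸ hd))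
        · exact hb4 (e ▸ hd)
      have hsub : ∀ p, p ∈ Q ++ T ++ P ++ S ++ R → p ∈ r := fun p hp =>
        hperm.mem_iff.2 (List.mem_cons_of_mem _ (List.mem_cons_of_mem _
          (List.mem_cons_of_mem _ (List.mem_cons_of_mem _ hp))))
      have hc' : ∀ z d, (z, d) ∈ Q ++ T ++ P ++ S ++ R → (z, !d) ∈ Q ++ T ++ P ++ S ++ R := by
        intro z d hd
        have h1 := hperm.mem_iff.1 (hc z d (hsub _ hd))
        have hz : z ≠ x := fun e => hbx d (e ▸ hd)
        have hz' : z ≠ y := fun e => hby d (e ▸ hd)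
        rw [List.mem_cons, List.mem_cons, List.mem_cons, List.mem_cons] at h1
        rcases h1 with h1 | h1 | h1 | h1 | h1
        · exact absurd (congrArg Prod.fst h1) hz
        · exact absurd (congrArg Prod.fst h1) hz
        · exact absurd (congrArg Prod.fst h1) hz'
        · exact absurd (congrArg Prod.fst h1) hz'
        · exact h1
      have hlen : (Q ++ T ++ P ++ S ++ R).length < n := by
        rw [← hn', hperm.length_eq]
        simp only [List.length_cons]
        omega
      obtain ⟨φ', L', u', H⟩ := ih _ hlen _ hn2 hc' rfl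
      have htrue : ∀ z d, (z, d) ∈ r → (z, true) ∈ r := by
        intro z d hd
        cases d with
        | true => exact hd
        | false => exact hc z false hd
      have hxr : (x, true) ∈ r := htrue x b (hperm.mem_iff.2 (by simp))
      have hyr : (y, true) ∈ r := htrue y c (hperm.mem_iff.2 (by simp))
      have hx' : (x, true) ∉ Q ++ T ++ P ++ S ++ R := hbx true
      have hy' : (y, true) ∉ Q ++ T ++ P ++ S ++ R := hby true
      have hmem : ∀ p : X × Bool, p ∈ P ++ Q ++ R ++ S ++ T → p ∈ Q ++ T ++ P ++ S ++ R := by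
        intro p hp
        simp only [List.mem_append] at hp ⊢
        tauto
      obtain ⟨ψ, s1, s2, s3⟩ := nf_step P Q R S T x y b c hxy
        (fun p hp => ⟨fun e => hbx p.2 (by rw [← e]; exact hmem p hp),
          fun e => hby p.2 (by rw [← e]; exact hmem p hp)⟩) {z | (z, true) ∈ r} hxr hyr
        (fun p hp => htrue p.1 p.2 (hsub _ (hmem p hp)))
      rw [← hr] at s3
      have hlet : {z | (z, true) ∈ Q ++ T ++ P ++ S ++ R} ⊆ ({x, y}ᶜ : Set X) := by
        intro z hz hz'
        rcases hz' with e | e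
        · exact hx' (e ▸ hz)
        · exact hy' (Set.mem_singleton_iff.1 e ▸ hz)
      obtain ⟨χ, t1, t2, t3⟩ := conj_step x y hxy u' (FS_mono hlet H.umem)
      have hFS : FS {z | (z, true) ∈ Q ++ T ++ P ++ S ++ R} ≤ FS {z | (z, true) ∈ r} :=
        FS_mono fun z hz => hsub _ hz
      have hof : ∀ z, (z, true) ∈ r → FreeGroup.of z ∈ FS {z | (z, true) ∈ r} := fun z hz =>
        Subgroup.subset_closure ⟨z, hz, rfl⟩
      have χfix : ∀ a ∈ FS ({x, y}ᶜ : Set X), χ a = a :=
        FS_fixed χ.toMonoidHom (fun z hz => t1 z (fun e => hz (Or.inl e)) (fun e => hz (Or.inr e)))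
      have hφmap : ∀ a ∈ FS {z | (z, true) ∈ r}, φ' a ∈ FS {z | (z, true) ∈ r} := by
        refine FS_maps φ'.toMonoidHom _ fun z hz => ?_
        by_cases h1 : (z, true) ∈ Q ++ T ++ P ++ S ++ R
        · exact hFS (H.maps z h1)
        · have h2 : φ'.toMonoidHom (FreeGroup.of z) = FreeGroup.of z := H.fix z h1
          rw [h2]
          exact hof z hz
      have hu' : u' ∈ FS {z | (z, true) ∈ r} := hFS H.umem
      have hχmap : ∀ a ∈ FS {z | (z, true) ∈ r}, χ a ∈ FS {z | (z, true) ∈ r} := by
        refine FS_maps χ.toMonoidHom _ fun z hz => ?_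
        by_cases h1 : z = x
        · have h2 : χ.toMonoidHom (FreeGroup.of z) = u' * FreeGroup.of x * u'⁻¹ := by
            rw [h1]; exact t2
          rw [h2]
          exact Subgroup.mul_mem _ (Subgroup.mul_mem _ hu' (hof x hxr)) (Subgroup.inv_mem _ hu')
        by_cases h1' : z = y
        · have h2 : χ.toMonoidHom (FreeGroup.of z) = u' * FreeGroup.of y * u'⁻¹ := by
            rw [h1']; exact t3
          rw [h2]
          exact Subgroup.mul_mem _ (Subgroup.mul_mem _ hu' (hof y hyr)) (Subgroup.inv_mem _ hu')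
        have h2 : χ.toMonoidHom (FreeGroup.of z) = FreeGroup.of z := t1 z h1 h1'
        rw [h2]
        exact hof z hz
      have hv : FreeGroup.mk (P ++ S ++ R) ∈ FS {z | (z, true) ∈ r} := by
        refine mk_mem_FS _ _ fun p hp => htrue p.1 p.2 (hsub _ ?_)
        simp only [List.mem_append] at hp ⊢
        tauto
      have hPi : (L'.map (fun p => cm (FreeGroup.of p.1) (FreeGroup.of p.2))).prod ∈
          FS ({x, y}ᶜ : Set X) := by
        refine Subgroup.list_prod_mem _ fun a ha => ?_
        obtain ⟨p, hp, rfl⟩ := List.mem_map.1 ha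
        have h1 : FreeGroup.of p.1 ∈ FS ({x, y}ᶜ : Set X) :=
          Subgroup.subset_closure ⟨p.1, hlet (H.sub p hp).1, rfl⟩
        have h2 : FreeGroup.of p.2 ∈ FS ({x, y}ᶜ : Set X) :=
          Subgroup.subset_closure ⟨p.2, hlet (H.sub p hp).2, rfl⟩
        exact Subgroup.mul_mem _ (Subgroup.mul_mem _ (Subgroup.mul_mem _ h1 h2)
          (Subgroup.inv_mem _ h1)) (Subgroup.inv_mem _ h2)
      refine ⟨(ψ.trans φ').trans χ, (x, y) :: L', χ (φ' (FreeGroup.mk (P ++ S ++ R)) * u'),
        ⟨?_, ?_, ?_, ?_, ?_, ?_⟩⟩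
      · rw [List.flatMap_cons]
        have h1 : ∀ z, (z, true) ∉ Q ++ T ++ P ++ S ++ R →
            z ∉ L'.flatMap (fun p => [p.1, p.2]) := by
          intro z hz h
          rw [List.mem_flatMap] at h
          obtain ⟨p, hp, h2⟩ := h
          simp only [List.mem_cons, List.not_mem_nil, or_false] at h2
          rcases h2 with h2 | h2
          · exact hz (h2 ▸ (H.sub p hp).1)
          · exact hz (h2 ▸ (H.sub p hp).2)
        simp only [List.cons_append, List.nil_append, List.nodup_cons, List.mem_cons, not_or]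
        exact ⟨⟨hxy, h1 x hx'⟩, h1 y hy', H.nodup⟩
      · intro p hp
        rw [List.mem_cons] at hp
        rcases hp with rfl | hp
        · exact ⟨hxr, hyr⟩
        · exact ⟨hsub _ (H.sub p hp).1, hsub _ (H.sub p hp).2⟩
      · intro z hz
        have hzx : z ≠ x := fun e => hz (e ▸ hxr)
        have hzy : z ≠ y := fun e => hz (e ▸ hyr)
        rw [MulEquiv.trans_apply, MulEquiv.trans_apply, s1 z hzx hzy,
          H.fix z fun h => hz (hsub _ h), t1 z hzx hzy]
      · intro z hz
        rw [MulEquiv.trans_apply, MulEquiv.trans_apply]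
        exact hχmap _ (hφmap _ (s2 z hz))
      · exact hχmap _ (Subgroup.mul_mem _ (hφmap _ hv) hu')
      · rw [MulEquiv.trans_apply, MulEquiv.trans_apply, s3]
        have g1 : φ' (cm (FreeGroup.of x) (FreeGroup.of y)) =
            cm (FreeGroup.of x) (FreeGroup.of y) := by
          simp only [cm, map_mul, map_inv, H.fix x hx', H.fix y hy']
        have g2 : χ u' = u' := χfix _ (FS_mono hlet H.umem)
        have g3 : χ (cm (FreeGroup.of x) (FreeGroup.of y)) =
            u' * cm (FreeGroup.of x) (FreeGroup.of y) * u'⁻¹ := by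
          simp only [cm, map_mul, map_inv, t2, t3]
          group
        have g4 := χfix _ hPi
        rw [map_mul φ', map_mul φ', map_mul φ', map_inv φ', g1, H.eq]
        simp only [map_mul, map_inv, g2, g3, List.map_cons, List.prod_cons]
        rw [g4]
        group

end H32N
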