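import Pool.Agent.Lib.H32N.NDefs
import Pool.Agent.Lib.H32D.S1

set_option autoImplicit false

/-!
# H32N, chunk B1 (S/M): the product of a flat labelling along the boundary word

Induction on `Built`. Base: `lab a b * lab b c * lab c a = lab a c * lab c a = 1`. Step: `lab u z * lab z v = lab u v` (`{u, z, v}` is a face, as `O v u z`
and `IsOrientation.face`).

Auxiliary names start with `b1_`.
-/

open Finset

namespace H32N

open H32D

theorem flat_prod {V : Type} [Fintype V] [DecidableEq V] {K : Cpx V} {O : V → V → V → Prop} (hO : IsOrientation K O)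
    {T C : Finset (Finset V)} {w : List (V × V)} (h : Built O T C w) {H : Type} [Group H] (lab : V → V → H) (hlab : Flat K lab) :
    (w.map (fun e => lab e.1 e.2)).prod = 1 := by
  induction h with
  | base a b c h =>
    obtain ⟨hab, hbc, hac, hf⟩ := hO.face _ _ _ h
    simp only [List.map_cons, List.map_nil, List.prod_cons, List.prod_nil, mul_one]
    rw [← mul_assoc, hlab.tri a b c hab hbc hac hf, hlab.inv a c, mul_inv_cancel]
  | step T C w1 w2 u v z hb hOv hT ih =>
    obtain ⟨hvu, huz, hvz, hf⟩ := hO.face _ _ _ hOv
    have hf' : ({u, z, v} : Finset V) ∈ K.faces := by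
      have : ({u, z, v} : Finset V) = {v, u, z} := by
        ext x
        simp only [Finset.mem_insert, Finset.mem_singleton]
        tauto
      rw [this]
      exact hf
    have h1 := hlab.tri u z v huz (Ne.symm hvz) (Ne.symm hvu) hf'
    simp only [List.map_append, List.map_cons, List.prod_append, List.prod_cons] at ih ⊢
    rw [← mul_assoc (lab u z), h1]
    exact ih

end H32N
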