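import Pool.Agent.Lib.H32N.NDefs
import Pool.Agent.Lib.H32D.S1

set_option autoImplicit false

/-!
# H32N, chunk B2 (M): corners around a vertex

Same pattern as `H32D.exists_flat` (file Lib/H32D/S4.lean). Lemma: `Ch q (w1 ++ w2) s t ↔ ∃ m, Ch q w1 s m ∧ Ch q w2 m t`, and `Ch` does not change if `q` is changed only on
pairs `(u, v)` such that neither `(u, v)` nor `(v, u)` is in the list. Induct on `Built` for all `q`, `s`.
Base: `q a b = s`, `q b c = q b a`, `q c a = q c b`, `q a c = s`: take `q' = q`; `{a, b, c}` is the only triangle.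
Step: from `Ch q (w1 ++ (u, z) :: (z, v) :: w2) s s` we get `m = q u z`, `q z v = q z u`, `m' = q v z`. Let `q1` be `q` with `q1 u v = m`, `q1 v u = m'`. Then
`Ch q1 (w1 ++ (u, v) :: w2) s s`: `(u, v)` is not in `w1`, `w2` (`nodup`) and `(v, u)` is not in the old word (its triangle `{v, u, z}` is not in `T`: `mem`, `unique`).
The induction hypothesis gives `q'`. `{u, v}, {u, z}, {z, v} ∉ C` (`inC` and `unique`: the triangle `{u, v, z}` would be in `T`), so `q' u v = m = q' u z`,
`q' v u = m' = q' v z`, `q' z u = q z u = q z v = q' z v`.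

Auxiliary names start with `b2_`.
-/

open Finset

namespace H32N

open H32D

theorem b2_append {V α : Type} (q : V → V → α) (w1 w2 : List (V × V)) (s t : α) :
    Ch q (w1 ++ w2) s t ↔ ∃ m, Ch q w1 s m ∧ Ch q w2 m t := by
  induction w1 generalizing s with
  | nil =>
    constructor
    · intro h
      exact ⟨s, rfl, h⟩
    · rintro ⟨m, h1, h2⟩
      have h1' : s = m := h1
      rw [h1']
      exact h2
  | cons e w1 ih =>
    constructor
    · rintro ⟨h1, h2⟩
      obtain ⟨m, h3, h4⟩ := (ih _).1 h2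
      exact ⟨m, ⟨h1, h3⟩, h4⟩
    · rintro ⟨m, ⟨h1, h3⟩, h4⟩
      exact ⟨h1, (ih _).2 ⟨m, h3, h4⟩⟩

theorem b2_congr {V α : Type} {q q' : V → V → α} {w : List (V × V)} {s t : α}
    (h : ∀ e ∈ w, q' e.1 e.2 = q e.1 e.2 ∧ q' e.2 e.1 = q e.2 e.1) (hw : Ch q w s t) : Ch q' w s t := by
  induction w generalizing s with
  | nil => exact hw
  | cons e w ih =>
    obtain ⟨h1, h2⟩ := hw
    have h3 := h e (by simp)
    refine ⟨h3.1.trans h1, ?_⟩
    show Ch q' w (q' e.2 e.1) t
    rw [h3.2]
    exact ih (fun e he => h e (List.mem_cons_of_mem _ he)) h2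

theorem b2_six {V α : Type} [DecidableEq V] {q : V → V → α} {a b c : V} (h1 : q a b = q a c) (h2 : q b a = q b c)
    (h3 : q c a = q c b) {x y z : V} (hxy : x ≠ y) (hyz : y ≠ z) (hxz : x ≠ z)
    (he : ({x, y, z} : Finset V) = {a, b, c}) : q x y = q x z := by
  have hx : x ∈ ({a, b, c} : Finset V) := by rw [← he]; simp
  have hy : y ∈ ({a, b, c} : Finset V) := by rw [← he]; simp
  have hz : z ∈ ({a, b, c} : Finset V) := by rw [← he]; simp
  simp only [Finset.mem_insert, Finset.mem_singleton] at hx hy hz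
  rcases hx with rfl | rfl | rfl <;> rcases hy with rfl | rfl | rfl <;> rcases hz with rfl | rfl | rfl <;>
    first
      | exact absurd rfl hxy
      | exact absurd rfl hyz
      | exact absurd rfl hxz
      | exact h1
      | exact h2
      | exact h3
      | exact h1.symm
      | exact h2.symm
      | exact h3.symm

theorem exists_corner {V : Type} [Fintype V] [DecidableEq V] {K : Cpx V} {O : V → V → V → Prop} (hO : IsOrientation K O)
    {T C : Finset (Finset V)} {w : List (V × V)} (h : Built O T C w) {α : Type} (q : V → V → α) (s : α) (hq : Ch q w s s) :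
    ∃ q' : V → V → α, (∀ a b, ({a, b} : Finset V) ∉ C → q' a b = q a b) ∧
      ∀ a b c, a ≠ b → b ≠ c → a ≠ c → ({a, b, c} : Finset V) ∈ T → q' a b = q' a c := by
  induction h generalizing q s with
  | base a b c h =>
    refine ⟨q, fun _ _ _ => rfl, ?_⟩
    intro x y z hxy hyz hxz hm
    obtain ⟨h1, h2, h3, h4⟩ := hq
    have h4' : q a c = s := h4
    exact b2_six (a := a) (b := b) (c := c) (by rw [h4']; exact h1) h2.symm h3 hxy hyz hxz
      (Finset.mem_singleton.1 hm)
  | step T C w1 w2 u v z hb hO' hT ih =>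
    have inv := built_inv hO hb
    obtain ⟨hvu, huz, hvz, -⟩ := hO.face _ _ _ hO'
    have q1 := hO.rot _ _ _ hO'
    have q2 := hO.rot _ _ _ q1
    have hset1 : ({u, z, v} : Finset V) = {u, v, z} := by rw [Finset.pair_comm]
    have hset2 : ({z, v, u} : Finset V) = {u, v, z} := by
      ext x; simp only [Finset.mem_insert, Finset.mem_singleton]; tauto
    have huvC : ({u, v} : Finset V) ∉ C := ((inv.mem u v).1 (by simp)).2
    have huzC : ({u, z} : Finset V) ∉ C := by
      intro hc
      obtain ⟨z1, h1, h2⟩ := inv.inC u z huz hc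
      rw [hO.unique _ _ _ _ h1 q1, hset1] at h2
      exact hT h2
    have hzvC : ({z, v} : Finset V) ∉ C := by
      intro hc
      obtain ⟨z1, h1, h2⟩ := inv.inC z v hvz.symm hc
      rw [hO.unique _ _ _ _ h1 q2, hset2] at h2
      exact hT h2
    have hvuw : (v, u) ∉ w1 ++ (u, v) :: w2 := by
      intro hm
      obtain ⟨⟨z1, h1, h2⟩, -⟩ := (inv.mem v u).1 hm
      rw [hO.unique _ _ _ _ h1 hO', Finset.insert_comm] at h2
      exact hT h2
    have hnd : (w1 ++ w2).Nodup ∧ (u, v) ∉ w1 ++ w2 := by
      have := inv.nodup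
      rw [List.nodup_middle] at this
      exact ⟨(List.nodup_cons.1 this).2, (List.nodup_cons.1 this).1⟩
    obtain ⟨ν, hν⟩ : ∃ ν : V → V → α, ν = fun x y => if x = u ∧ y = v then q u z else if x = v ∧ y = u then
        q v z else q x y := ⟨_, rfl⟩
    have hν1 : ν u v = q u z := by rw [hν]; simp
    have hν2 : ν v u = q v z := by rw [hν]; simp [hvu]
    have hν3 : ∀ x y, ¬ (x = u ∧ y = v) → ¬ (x = v ∧ y = u) → ν x y = q x y := by
      intro x y h1 h2
      rw [hν]
      simp only [h1, h2, if_false]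
    have hcong : ∀ l : List (V × V), (∀ e ∈ l, e ∈ w1 ++ w2) → ∀ e ∈ l, ν e.1 e.2 = q e.1 e.2 ∧ ν e.2 e.1 = q e.2 e.1 := by
      intro l hl e he
      have n1 : ¬ (e.1 = u ∧ e.2 = v) := by
        rintro ⟨h1, h2⟩
        have : e = (u, v) := Prod.ext h1 h2
        exact hnd.2 (this ▸ hl e he)
      have n2 : ¬ (e.1 = v ∧ e.2 = u) := by
        rintro ⟨h1, h2⟩
        have he' : e = (v, u) := Prod.ext h1 h2
        have := hl e he
        rw [he'] at this
        refine hvuw ?_
        rcases List.mem_append.1 this with h | h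
        · exact List.mem_append_left _ h
        · exact List.mem_append_right _ (List.mem_cons_of_mem _ h)
      exact ⟨hν3 _ _ n1 n2, hν3 _ _ (fun h => n2 ⟨h.2, h.1⟩) (fun h => n1 ⟨h.2, h.1⟩)⟩
    obtain ⟨m, c1, c2, c3, c4⟩ := (b2_append q w1 _ s s).1 hq
    have c4' : Ch q w2 (q v z) s := c4
    have hνw : Ch ν (w1 ++ (u, v) :: w2) s s := by
      refine (b2_append ν w1 _ s s).2 ⟨m, ?_, ?_, ?_⟩
      · exact b2_congr (fun e he => (hcong w1 (fun e he => List.mem_append_left _ he) e he)) c1
      · exact hν1.trans c2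
      · have : ν v u = q v z := hν2
        show Ch ν w2 (ν v u) s
        rw [this]
        exact b2_congr (fun e he => (hcong w2 (fun e he => List.mem_append_right _ he) e he)) c4'
    obtain ⟨q', h2, h3⟩ := ih ν s hνw
    refine ⟨q', ?_, ?_⟩
    · intro x y hxy
      rw [Finset.mem_insert, not_or] at hxy
      rw [h2 x y hxy.2]
      refine hν3 x y ?_ ?_
      · rintro ⟨rfl, rfl⟩
        exact hxy.1 rfl
      · rintro ⟨rfl, rfl⟩
        exact hxy.1 (Finset.pair_comm _ _)
    · intro a b c hab hbc hac hm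
      rcases Finset.mem_insert.1 hm with hm | hm
      · have hvuC : ({v, u} : Finset V) ∉ C := by rw [Finset.pair_comm]; exact huvC
        have hzuC : ({z, u} : Finset V) ∉ C := by rw [Finset.pair_comm]; exact huzC
        have hvzC : ({v, z} : Finset V) ∉ C := by rw [Finset.pair_comm]; exact hzvC
        have e1 : q' u v = q' u z := by
          rw [h2 u v huvC, h2 u z huzC, hν1, hν3 u z (fun h => hvz h.2.symm) (fun h => hvu h.1.symm)]
        have e2 : q' v u = q' v z := by
          rw [h2 v u hvuC, h2 v z hvzC, hν2, hν3 v z (fun h => hvu h.1) (fun h => huz h.2.symm)]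
        have e3 : q' z u = q' z v := by
          rw [h2 z u hzuC, h2 z v hzvC, hν3 z u (fun h => huz h.1.symm) (fun h => hvz h.1.symm),
            hν3 z v (fun h => huz h.1.symm) (fun h => hvz h.1.symm)]
          exact c3.symm
        exact b2_six (a := u) (b := v) (c := z) e1 e2 e3 hab hbc hac hm
      · exact h3 a b c hab hbc hac hm

end H32N
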