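import Pool.Agent.Lib.H32N.NDefs

set_option autoImplicit false

/-!
# H32N, chunk B3 (S): a function of the corners is a function of the vertices

The link of `a` is connected: walk in the link. The link is nonempty (`Connected.nonempty`), put `f a = q' a b0` for some neighbour `b0`. Two neighbours adjacent in the
link are in a common triangle `{a, b, c}` (card `3`), so `q' a b = q' a c`.

Auxiliary names start with `b3_`.
-/

open Finset

namespace H32N

open H32D

theorem corner_vertex {V : Type} [Fintype V] [DecidableEq V] {K : Cpx V} (hK : IsSurface K) {α : Type} (q' : V → V → α)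
    (h : ∀ a b c, a ≠ b → b ≠ c → a ≠ c → ({a, b, c} : Finset V) ∈ K.tris → q' a b = q' a c) :
    ∃ f : V → α, ∀ a b, K.graph.Adj a b → q' a b = f a := by
  have key : ∀ a (x y : {b : V // K.graph.Adj a b}), (K.link a).Reachable x y → q' a x.1 = q' a y.1 := by
    rintro a x y ⟨p⟩
    induction p with
    | nil => rfl
    | cons hxy p ih =>
      rename_i x y z
      refine Eq.trans ?_ ih
      have h1 : a ≠ x.1 := x.2.1
      have h2 : a ≠ y.1 := y.2.1
      have h3 : x.1 ≠ y.1 := fun e => hxy.1 (Subtype.ext e)
      refine h a x.1 y.1 h1 h3 h2 (Finset.mem_filter.2 ⟨hxy.2, ?_⟩)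
      exact Finset.card_eq_three.2 ⟨a, x.1, y.1, h1, h2, h3, rfl⟩
  have hne : ∀ a, Nonempty {b : V // K.graph.Adj a b} := fun a => (hK.link a).nonempty
  refine ⟨fun a => q' a (Classical.choice (hne a)).1, fun a b hab => ?_⟩
  exact key a ⟨b, hab⟩ (Classical.choice (hne a)) ((hK.link a).preconnected _ _)

end H32N
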