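import Pool.Agent.Lib.H32N.NDefs

set_option autoImplicit false

/-!
# H32N, chunk B4 (M): interval sums

`h` is a symmetric function on pairs with values in `ZMod 2`; the hypothesis `H` holds for all labellings by the Heisenberg group with first coordinate `h`.
* `(w.map h).sum = 0`: first coordinate of the product for `η a b = ⟨h a b, 0, 0⟩` (`⟨h, 0, 0⟩⁻¹ = ⟨h, 0, 0⟩`).
* For `w = w1 ++ (a, b) :: (w2 ++ (b, a) :: w3)`, `a ≠ b`, `w.Nodup`: the sum of `h` over `w2` is `0`. Take `η a b = ⟨h a b, 1, 0⟩`, `η b a = ⟨h a b, 1, h a b⟩` (inverse to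
  each other) and `⟨h, 0, 0⟩` on all other pairs. Let `A1, A2, A3` be the sums over `w1, w2, w3`. The product is
  `⟨A1,0,0⟩ ⟨h,1,0⟩ ⟨A2,0,0⟩ ⟨h,1,h⟩ ⟨A3,0,0⟩`, its third coordinate is `A1 + h + (A1 + h + A2) = A2`.

Auxiliary names start with `b4_`.
-/

open Finset

namespace H32N

theorem b4_mul (x y : Heis) : x * y = ⟨x.a + y.a, x.b + y.b, x.c + y.c + x.a * y.b⟩ := rfl
theorem b4_one : (1 : Heis) = ⟨0, 0, 0⟩ := rfl
theorem b4_inv (x : Heis) : x⁻¹ = ⟨x.a, x.b, x.c + x.a * x.b⟩ := rfl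

theorem b4_prod {V : Type} (h : V → V → ZMod 2) (η : V → V → Heis) (w : List (V × V))
    (hη : ∀ e ∈ w, η e.1 e.2 = ⟨h e.1 e.2, 0, 0⟩) :
    (w.map (fun e => η e.1 e.2)).prod = ⟨(w.map (fun e => h e.1 e.2)).sum, 0, 0⟩ := by
  induction w with
  | nil => simp [b4_one]
  | cons e w ih =>
    rw [List.map_cons, List.prod_cons, List.map_cons, List.sum_cons, ih (fun e he => hη e (List.mem_cons_of_mem _ he)),
      hη e List.mem_cons_self, b4_mul]
    simp

theorem b4_two (k : ZMod 2) : k + k = 0 := CharTwo.add_self_eq_zero k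

theorem heis_sums {V : Type} [DecidableEq V] (w : List (V × V)) (hn : w.Nodup) (hw : ∀ a b, (a, b) ∈ w → a ≠ b) (h : V → V → ZMod 2)
    (hs : ∀ a b, h b a = h a b)
    (H : ∀ η : V → V → Heis, (∀ a b, η b a = (η a b)⁻¹) → (∀ a b, (η a b).a = h a b) → (w.map (fun e => η e.1 e.2)).prod = 1) :
    (w.map (fun e => h e.1 e.2)).sum = 0 ∧
      ∀ (w1 w2 w3 : List (V × V)) (a b : V), w = w1 ++ (a, b) :: (w2 ++ (b, a) :: w3) → (w2.map (fun e => h e.1 e.2)).sum = 0 := by
  constructor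
  · have h1 := H (fun a b => ⟨h a b, 0, 0⟩) (fun a b => by rw [b4_inv]; simp [hs]) (fun a b => rfl)
    rw [b4_prod h (fun a b => ⟨h a b, 0, 0⟩) w (fun e _ => rfl), b4_one] at h1
    exact (Heis.mk.inj h1).1
  · intro w1 w2 w3 a b hw'
    have hab : a ≠ b := hw a b (by rw [hw']; simp)
    set η : V → V → Heis := fun x y => if x = a ∧ y = b then ⟨h a b, 1, 0⟩ else if x = b ∧ y = a then ⟨h a b, 1, h a b⟩ else ⟨h x y, 0, 0⟩ with hη
    have hab' : ¬ (b = a ∧ a = b) := fun hh => hab hh.2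
    have e1 : η a b = ⟨h a b, 1, 0⟩ := by simp [hη]
    have e2 : η b a = ⟨h a b, 1, h a b⟩ := by simp [hη, hab.symm]
    have e3 : ∀ x y, ¬ (x = a ∧ y = b) → ¬ (x = b ∧ y = a) → η x y = ⟨h x y, 0, 0⟩ := by
      intro x y h1 h2
      simp only [hη, if_neg h1, if_neg h2]
    have h1 := H η (by
      intro x y
      by_cases c1 : x = a ∧ y = b
      · obtain ⟨rfl, rfl⟩ := c1
        rw [e1, e2, b4_inv]; simp
      · by_cases c2 : x = b ∧ y = a
        · obtain ⟨rfl, rfl⟩ := c2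
          rw [e1, e2, b4_inv]; simp [b4_two]
        · rw [e3 x y c1 c2, e3 y x (fun hh => c2 ⟨hh.2, hh.1⟩) (fun hh => c1 ⟨hh.2, hh.1⟩), b4_inv]
          simp [hs]) (by
      intro x y
      by_cases c1 : x = a ∧ y = b
      · obtain ⟨rfl, rfl⟩ := c1
        rw [e1]
      · by_cases c2 : x = b ∧ y = a
        · obtain ⟨rfl, rfl⟩ := c2
          rw [e2, hs]
        · rw [e3 x y c1 c2])
    rw [hw'] at hn h1
    have hn1 : (a, b) ∉ w1 ∧ (a, b) ∉ w2 ∧ (a, b) ∉ w3 ∧ (b, a) ∉ w1 ∧ (b, a) ∉ w2 ∧ (b, a) ∉ w3 := by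
      rw [List.nodup_append] at hn
      obtain ⟨_, hn2, hn3⟩ := hn
      rw [List.nodup_cons] at hn2
      obtain ⟨hn4, hn5⟩ := hn2
      rw [List.nodup_append] at hn5
      obtain ⟨_, hn6, hn7⟩ := hn5
      rw [List.nodup_cons] at hn6
      refine ⟨fun hh => hn3 _ hh _ List.mem_cons_self rfl, fun hh => hn4 (List.mem_append_left _ hh),
        fun hh => hn4 (List.mem_append_right _ (List.mem_cons_of_mem _ hh)),
        fun hh => hn3 _ hh (b, a) (List.mem_cons_of_mem _ (List.mem_append_right _ List.mem_cons_self)) rfl,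
        fun hh => hn7 _ hh _ List.mem_cons_self rfl, hn6.1⟩
    obtain ⟨m1, m2, m3, m4, m5, m6⟩ := hn1
    have p : ∀ v : List (V × V), (a, b) ∉ v → (b, a) ∉ v → (v.map (fun e => η e.1 e.2)).prod = ⟨(v.map (fun e => h e.1 e.2)).sum, 0, 0⟩ := by
      intro v q1 q2
      apply b4_prod
      intro e he
      apply e3
      · rintro ⟨r1, r2⟩
        apply q1
        rw [← r1, ← r2]
        exact he
      · rintro ⟨r1, r2⟩
        apply q2
        rw [← r1, ← r2]
        exact he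
    rw [List.map_append, List.prod_append, List.map_cons, List.prod_cons, List.map_append, List.prod_append, List.map_cons, List.prod_cons,
      p w1 m1 m4, p w2 m2 m5, p w3 m3 m6] at h1
    simp only at h1
    rw [e1, e2, b4_mul, b4_mul, b4_mul, b4_mul, b4_one] at h1
    have h2 := (Heis.mk.inj h1).2.2
    simp only at h2
    have h3 : h a b + h a b = 0 := b4_two _
    have h4 := b4_two (List.map (fun e => h e.1 e.2) w1).sum
    clear h1 p
    linear_combination h2 - h3 - h4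

end H32N
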