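import Pool.Agent.Lib.H32N.NDefs

set_option autoImplicit false

/-!
# H32N, chunk B5 (M): from interval sums to corners

`q a b` := the sum of `h` over the part of `w` before `(a, b)`: `((w.takeWhile (· ≠ (a, b))).map ..).sum`; for `w = w1 ++ (a, b) :: w2` it is the sum over `w1`
(`Nodup`). Claim: `q b a = q a b + h a b` for `(a, b) ∈ w`: `(b, a) ∈ w` too; if `w = w1 ++ (a, b) :: (w2 ++ (b, a) :: w3)` then
`q b a = A1 + h a b + A2`, `A2 = 0`; if `w = w1 ++ (b, a) :: (w2 ++ (a, b) :: w3)` then `q a b = A1 + h b a + A2`, `A2 = 0`, `q b a = A1 = q a b + h a b` (characteristic `2`).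
So for `w = w1 ++ w2`: `Ch q w2 (sum over w1) (sum over w)` by induction on `w2`; the sum over `w` is `0`.

Auxiliary names start with `b5_`.
-/

open Finset

namespace H32N

theorem exists_ch {V : Type} [DecidableEq V] (w : List (V × V)) (hn : w.Nodup) (hsym : ∀ a b, (a, b) ∈ w → (b, a) ∈ w)
    (hne : ∀ a b, (a, b) ∈ w → a ≠ b) (h : V → V → ZMod 2) (hs : ∀ a b, h b a = h a b) (h0 : (w.map (fun e => h e.1 e.2)).sum = 0)
    (hi : ∀ (w1 w2 w3 : List (V × V)) (a b : V), w = w1 ++ (a, b) :: (w2 ++ (b, a) :: w3) → (w2.map (fun e => h e.1 e.2)).sum = 0) :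
    ∃ q : V → V → ZMod 2, Ch q w 0 0 ∧ ∀ a b, (a, b) ∈ w → q b a = q a b + h a b := by
  obtain ⟨q, hq⟩ : ∃ q : V → V → ZMod 2, ∀ a b, q a b =
      ((w.takeWhile (fun e => decide (e ≠ (a, b)))).map (fun e => h e.1 e.2)).sum := ⟨_, fun _ _ => rfl⟩
  have key : ∀ (w1 w2 : List (V × V)) (a b : V), w = w1 ++ (a, b) :: w2 →
      q a b = (w1.map (fun e => h e.1 e.2)).sum := by
    intro w1 w2 a b hw
    have hn' := hn
    rw [hw, List.nodup_middle, List.nodup_cons] at hn'
    have h1 : ∀ e ∈ w1, decide (e ≠ (a, b)) = true := by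
      intro e he
      rw [decide_eq_true_eq]
      rintro rfl
      exact hn'.1 (List.mem_append_left _ he)
    rw [hq, hw, List.takeWhile_append_of_pos h1, List.takeWhile_cons_of_neg (by simp), List.append_nil]
  have two : ∀ x : ZMod 2, x + x = 0 := by decide
  have claim : ∀ a b, (a, b) ∈ w → q b a = q a b + h a b := by
    intro a b hab
    have hba := hsym a b hab
    obtain ⟨w1, w2, hw⟩ := List.append_of_mem hab
    have h1 := key w1 w2 a b hw
    have hba' := hba
    rw [hw, List.mem_append, List.mem_cons] at hba'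
    rcases hba' with h2 | h2 | h2
    · obtain ⟨v1, v2, hv⟩ := List.append_of_mem h2
      have hw' : w = v1 ++ (b, a) :: (v2 ++ (a, b) :: w2) := by
        rw [hw, hv]; simp
      have h3 := key v1 _ b a hw'
      have h4 := hi v1 v2 w2 b a hw'
      rw [h1, h3, hv, List.map_append, List.sum_append, List.map_cons, List.sum_cons, h4, hs a b]
      have h5 := two (h a b)
      linear_combination -h5
    · exact absurd (congrArg Prod.fst h2).symm (hne a b hab)
    · obtain ⟨v1, v2, hv⟩ := List.append_of_mem h2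
      have hw' : w = w1 ++ (a, b) :: (v1 ++ (b, a) :: v2) := by
        rw [hw, hv]
      have hw'' : w = (w1 ++ (a, b) :: v1) ++ (b, a) :: v2 := by
        rw [hw']; simp
      have h3 := key _ _ b a hw''
      have h4 := hi w1 v1 v2 a b hw'
      rw [h1, h3, List.map_append, List.sum_append, List.map_cons, List.sum_cons, h4, add_zero]
  refine ⟨q, ?_, claim⟩
  have main : ∀ (w2 w1 : List (V × V)), w = w1 ++ w2 → Ch q w2 (w1.map (fun e => h e.1 e.2)).sum 0 := by
    intro w2
    induction w2 with
    | nil =>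
      intro w1 hw
      rw [List.append_nil] at hw
      show (w1.map (fun e => h e.1 e.2)).sum = 0
      rw [← hw]
      exact h0
    | cons e w2 ih =>
      intro w1 hw
      obtain ⟨a, b⟩ := e
      have h1 := key w1 w2 a b hw
      refine ⟨h1, ?_⟩
      have h2 := ih (w1 ++ [(a, b)]) (by rw [hw]; simp)
      rw [List.map_append, List.sum_append] at h2
      show Ch q w2 (q b a) 0
      rw [claim a b (by rw [hw]; simp), h1]
      simpa using h2
  exact main w [] rfl

end H32N
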