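import Pool.Agent.Lib.H32N.B2
import Pool.Agent.Lib.H32N.B3
import Pool.Agent.Lib.H32N.B4
import Pool.Agent.Lib.H32N.B5
import Pool.Agent.Lib.H32D.S7

set_option autoImplicit false

/-!
# H32N, chunk B6 (S/M): non-degeneracy

`heis_sums`, `exists_ch` (`BuiltInv.nodup`; `(a, b) ∈ w ↔ ..` by `BuiltInv.mem` with `T = K.tris`, so `(b, a) ∈ w`: `H32D.s7_dir` gives the triangle on the other
side; `a ≠ b` by `IsOrientation.face`), `exists_corner`, `corner_vertex`: `q a b = q' a b = f a` for `(a, b) ∈ w` (`{a, b} ∉ C`), so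
`h a b = q b a - q a b = f b - f a = f a + f b`.

Auxiliary names start with `b6_`.
-/

open Finset

namespace H32N

open H32D

theorem w_symm {V : Type} [Fintype V] [DecidableEq V] {K : Cpx V} (hK : IsSurface K) {O : V → V → V → Prop} (hO : IsOrientation K O)
    {C : Finset (Finset V)} {w : List (V × V)} (hb : Built O K.tris C w) :
    (∀ a b, (a, b) ∈ w → (b, a) ∈ w) ∧ (∀ a b, (a, b) ∈ w → a ≠ b ∧ K.graph.Adj a b) ∧
      ∀ a b, (a, b) ∈ w ↔ K.graph.Adj a b ∧ ({a, b} : Finset V) ∉ C := by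
  have inv := built_inv hO hb
  have hne : ∀ a b, (a, b) ∈ w → a ≠ b ∧ K.graph.Adj a b := by
    intro a b h
    obtain ⟨⟨z, hz, -⟩, -⟩ := (inv.mem a b).1 h
    obtain ⟨hab, -, -, hf⟩ := hO.face _ _ _ hz
    refine ⟨hab, hab, K.down _ hf _ ?_ ⟨a, by simp⟩⟩
    intro x hx
    simp only [Finset.mem_insert, Finset.mem_singleton] at hx ⊢
    tauto
  have hiff : ∀ a b, (a, b) ∈ w ↔ K.graph.Adj a b ∧ ({a, b} : Finset V) ∉ C := by
    intro a b
    constructor
    · intro h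
      exact ⟨(hne a b h).2, ((inv.mem a b).1 h).2⟩
    · rintro ⟨h1, h2⟩
      exact (inv.mem a b).2 ⟨s7_dir hK hO h1.1 h1.2, h2⟩
  refine ⟨fun a b h => ?_, hne, hiff⟩
  obtain ⟨h1, h2⟩ := (hiff a b).1 h
  exact (hiff b a).2 ⟨h1.symm, by rw [Finset.pair_comm]; exact h2⟩

theorem nondeg {V : Type} [Fintype V] [DecidableEq V] {K : Cpx V} (hK : IsSurface K) {O : V → V → V → Prop} (hO : IsOrientation K O)
    {C : Finset (Finset V)} {w : List (V × V)} (hb : Built O K.tris C w) (h : V → V → ZMod 2) (hs : ∀ a b, h b a = h a b)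
    (H : ∀ η : V → V → Heis, (∀ a b, η b a = (η a b)⁻¹) → (∀ a b, (η a b).a = h a b) → (w.map (fun e => η e.1 e.2)).prod = 1) :
    ∃ f : V → ZMod 2, ∀ a b, (a, b) ∈ w → h a b = f a + f b := by
  have inv := built_inv hO hb
  obtain ⟨hsym, hne, hiff⟩ := w_symm hK hO hb
  have hne' : ∀ a b, (a, b) ∈ w → a ≠ b := fun a b hab => (hne a b hab).1
  obtain ⟨h0, hi⟩ := heis_sums w inv.nodup hne' h hs H
  obtain ⟨q, hq, hqh⟩ := exists_ch w inv.nodup hsym hne' h hs h0 hi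
  obtain ⟨q', hq1, hq2⟩ := exists_corner hO hb q 0 hq
  obtain ⟨f, hf⟩ := corner_vertex hK q' hq2
  refine ⟨f, fun a b hab => ?_⟩
  have h1 := hqh a b hab
  obtain ⟨ha1, ha2⟩ := (hiff a b).1 hab
  obtain ⟨hb1, hb2⟩ := (hiff b a).1 (hsym a b hab)
  rw [← hq1 a b ha2, ← hq1 b a hb2, hf a b ha1, hf b a hb1] at h1
  rw [h1, ← add_assoc, Heis.two_eq, zero_add]

end H32N
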