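import Pool.Agent.Lib.H32N.B6

set_option autoImplicit false

/-!
# H32N, chunk C1 (M): the tree

`G'`: the graph of the edges of `K` outside `C`, i.e. of the edges in `w` (`w_symm`). It is connected: `w` is a closed walk of directed edges (`BuiltInv.chain`) which
meets every vertex (`BuiltInv.vert`; every vertex is in a triangle by `pure`); see `H32D.s5_reach` and the beginning of the proof of `H32D.exists_three` in
Lib/H32D/S5.lean. `rk v` = distance of `v` and `v0` in `G'`; for `v ≠ v0` take for `par v` the first vertex after `v` on a shortest path from `v` to `v0`.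

Auxiliary names start with `c1_`.
-/

open Finset

namespace H32N

open H32D

theorem exists_tree {V : Type} [Fintype V] [DecidableEq V] {K : Cpx V} (hK : IsSurface K) {O : V → V → V → Prop} (hO : IsOrientation K O)
    {C : Finset (Finset V)} {w : List (V × V)} (hb : Built O K.tris C w) (v0 : V) : ∃ (par : V → V) (rk : V → ℕ), TreeOf w v0 par rk := by
  classical
  have inv := built_inv hO hb
  obtain ⟨s1, s2, s3⟩ := w_symm hK hO hb
  obtain ⟨G', hG'⟩ : ∃ G' : SimpleGraph V, ∀ a b, G'.Adj a b ↔ K.graph.Adj a b ∧ ({a, b} : Finset V) ∉ C :=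
    ⟨{ Adj := fun a b => K.graph.Adj a b ∧ ({a, b} : Finset V) ∉ C
       symm := ⟨fun a b h => ⟨h.1.symm, by rw [Finset.pair_comm]; exact h.2⟩⟩
       loopless := ⟨fun _ h => h.1.ne rfl⟩ }, fun _ _ => Iff.rfl⟩
  have hwadj : ∀ e ∈ w, G'.Adj e.1 e.2 := fun e he => (hG' _ _).2 ((s3 e.1 e.2).1 he)
  have hvert : ∀ v, ∃ u, (v, u) ∈ w := by
    intro v
    obtain ⟨t, htf, hvt, ht3⟩ := hK.pure _ (K.vertex v)
    exact inv.vert t (Finset.mem_filter.2 ⟨htf, ht3⟩) v (hvt (Finset.mem_singleton_self v))
  have hconn : G'.Connected := by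
    haveI : Nonempty V := ⟨v0⟩
    obtain ⟨u0, hu0⟩ := hvert v0
    cases hw : w with
    | nil => rw [hw] at hu0; simp at hu0
    | cons e0 l =>
      have key := s5_reach l e0 (by rw [← hw]; exact inv.chain) (by rw [← hw]; exact hwadj)
      refine ⟨fun a b => ?_⟩
      obtain ⟨ua, hua⟩ := hvert a
      obtain ⟨ub, hub⟩ := hvert b
      rw [hw] at hua hub
      exact (key _ hua).symm.trans (key _ hub)
  have hpar : ∀ v, v ≠ v0 → ∃ u, G'.Adj v u ∧ G'.dist u v0 < G'.dist v v0 := by
    intro v hv
    obtain ⟨p, hp⟩ := hconn.exists_walk_length_eq_dist v v0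
    cases p with
    | nil => exact absurd rfl hv
    | cons h p =>
      refine ⟨_, h, ?_⟩
      rw [← hp, SimpleGraph.Walk.length_cons]
      exact Nat.lt_succ_of_le (SimpleGraph.dist_le p)
  refine ⟨fun v => if hv : v ≠ v0 then (hpar v hv).choose else v0, fun v => G'.dist v v0, ⟨?_, ?_⟩⟩
  · intro v hv
    have h1 := (hpar v hv).choose_spec
    simp only [hv, ne_eq, not_false_eq_true, dif_pos]
    have h2 := (hG' _ _).1 h1.1
    have h3 := (s3 _ _).2 h2
    exact ⟨s1 _ _ h3, h3⟩
  · intro v hv
    have h1 := (hpar v hv).choose_spec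
    simp only [hv, ne_eq, not_false_eq_true, dif_pos]
    exact h1.2

end H32N
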