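import Pool.Agent.Lib.H32N.NDefs

set_option autoImplicit false

/-!
# H32N, chunk C2 (M/L): letters for the edges outside the tree

Fix an injection `o : V → ℕ` (`Fintype.equivFin`). `X` := the subtype of the pairs `e ∈ w` with `o e.1 < o e.2` which are not tree edges
(`e` is a tree edge iff `(e.2 ≠ v0 ∧ e.1 = par e.2) ∨ (e.1 ≠ v0 ∧ e.2 = par e.1)`), `rep` the inclusion, and `r = w.filterMap f` with `f e = none` for tree edges,
`f e = some (e, true)` if `o e.1 < o e.2` and `some ((e.2, e.1), false)` otherwise (use `List.attach` or define `f` with `if h : .. then .. else ..`, proving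
membership from `hsym`; for `e ∈ w` this is what one gets). `nodup`: `f` is injective where it is not `none`. `all`: `e ∈ w` and its reverse `∈ w`. `read`: for every sublist of
`w`, induction on the list; a tree edge has `η = 1` (`η v (par v) = (η (par v) v)⁻¹ = 1`). `FreeGroup.lift_mk`, or `FreeGroup.mk (p :: l) = mk [p] * mk l`. `write`:
`η u v = s x` if `(u, v) = rep x`, `(s x)⁻¹` if `(v, u) = rep x`, and `1` otherwise (`rep x = (u, v)` and `rep y = (v, u)` exclude each other by `o`).
Cardinality: `w.length = 2 * card X + 2 * (card V - 1)`: the tree edges `v ↦ (par v, v)`, `v ↦ (v, par v)`, `v ≠ v0`, are `2 (card V - 1)` different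
elements of `w` (`(par v, v) = (v', par v')` is impossible by `rk`), and `r.length = 2 * card X` (`nodup`, `all`: `r` is a permutation of `univ : Finset (X × Bool)`).

Auxiliary names start with `c2_`.
-/

open Finset

namespace H32N

theorem exists_letters {V : Type} [Fintype V] [DecidableEq V] (w : List (V × V)) (hn : w.Nodup) (hsym : ∀ a b, (a, b) ∈ w → (b, a) ∈ w)
    (hne : ∀ a b, (a, b) ∈ w → a ≠ b) (v0 : V) (par : V → V) (rk : V → ℕ) (ht : TreeOf w v0 par rk) :
    ∃ (X : Type) (_ : Fintype X) (_ : DecidableEq X) (rep : X → V × V) (r : List (X × Bool)), Letters w v0 par X rep r ∧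
      w.length + 2 = 2 * Fintype.card X + 2 * Fintype.card V := by
  classical
  obtain ⟨o, ho⟩ : ∃ o : V → ℕ, Function.Injective o :=
    ⟨fun v => (Fintype.equivFin V v : ℕ), fun a b h => (Fintype.equivFin V).injective (Fin.ext h)⟩
  obtain ⟨te, hte⟩ : ∃ te : V × V → Prop, ∀ e, te e ↔ (e.2 ≠ v0 ∧ e.1 = par e.2) ∨ (e.1 ≠ v0 ∧ e.2 = par e.1) :=
    ⟨_, fun _ => Iff.rfl⟩
  have tes : ∀ e, te e.swap ↔ te e := by
    intro e
    rw [hte, hte, Prod.fst_swap, Prod.snd_swap]
    tauto
  let cd : V × V → Prop := fun e => e ∈ w ∧ o e.1 < o e.2 ∧ ¬ te e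
  let X : Type := {e : V × V // cd e}
  let f : V × V → Option (X × Bool) := fun e => if h : cd e then some (⟨e, h⟩, true) else
    if h : cd e.swap then some (⟨e.swap, h⟩, false) else none
  have f1 : ∀ e (h : cd e), f e = some (⟨e, h⟩, true) := fun e h => dif_pos h
  have hexc : ∀ e, cd e → ¬ cd e.swap := by
    intro e h h'
    have h1 := h.2.1
    have h2 := h'.2.1
    rw [Prod.fst_swap, Prod.snd_swap] at h2
    omega
  have f2 : ∀ e (h : cd e.swap), f e = some (⟨e.swap, h⟩, false) := by
    intro e h
    have h' : ¬ cd e := fun h1 => hexc e h1 h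
    show (if h : cd e then some ((⟨e, h⟩ : X), true) else
      if h : cd e.swap then some (⟨e.swap, h⟩, false) else none) = _
    rw [dif_neg h', dif_pos h]
  have f3 : ∀ e, ¬ cd e → ¬ cd e.swap → f e = none := by
    intro e h h'
    show (if h : cd e then some ((⟨e, h⟩ : X), true) else
      if h : cd e.swap then some (⟨e.swap, h⟩, false) else none) = _
    rw [dif_neg h, dif_neg h']
  have hcases : ∀ e ∈ w, te e ∨ cd e ∨ cd e.swap := by
    intro e he
    by_cases ht : te e
    · exact Or.inl ht
    · right
      have h1 : e.1 ≠ e.2 := hne e.1 e.2 he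
      have h2 : o e.1 ≠ o e.2 := fun h => h1 (ho h)
      rcases lt_or_gt_of_ne h2 with h3 | h3
      · exact Or.inl ⟨he, h3, ht⟩
      · exact Or.inr ⟨hsym e.1 e.2 he, h3, fun h => ht ((tes e).1 h)⟩
  have hten : ∀ e, te e → ¬ cd e ∧ ¬ cd e.swap := fun e h =>
    ⟨fun h' => h'.2.2 h, fun h' => h'.2.2 ((tes e).2 h)⟩
  refine ⟨X, inferInstance, inferInstance, Subtype.val, w.filterMap f, ⟨?_, ?_, ?_, ?_, ?_⟩, ?_⟩
  · intro x
    exact x.2.1
  · refine List.Nodup.filterMap ?_ hn
    intro e e' b hb hb'
    by_cases c1 : cd e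
    · rw [f1 e c1] at hb
      by_cases c2 : cd e'
      · rw [f1 e' c2] at hb'
        have h1 := Option.some.inj (hb.trans hb'.symm)
        exact congrArg (fun z : X × Bool => z.1.1) h1
      by_cases c3 : cd e'.swap
      · rw [f2 e' c3] at hb'
        have h1 := Option.some.inj (hb.trans hb'.symm)
        exact absurd (congrArg Prod.snd h1) (by simp)
      · rw [f3 e' c2 c3] at hb'
        simp at hb'
    by_cases c4 : cd e.swap
    · rw [f2 e c4] at hb
      by_cases c2 : cd e'
      · rw [f1 e' c2] at hb'
        have h1 := Option.some.inj (hb.trans hb'.symm)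
        exact absurd (congrArg Prod.snd h1) (by simp)
      by_cases c3 : cd e'.swap
      · rw [f2 e' c3] at hb'
        have h1 := Option.some.inj (hb.trans hb'.symm)
        have h2 := congrArg (fun z : X × Bool => z.1.1) h1
        exact Prod.swap_injective h2
      · rw [f3 e' c2 c3] at hb'
        simp at hb'
    · rw [f3 e c1 c4] at hb
      simp at hb
  · intro x b
    rw [List.mem_filterMap]
    cases b with
    | true => exact ⟨x.1, x.2.1, f1 x.1 x.2⟩
    | false =>
      refine ⟨x.1.swap, hsym x.1.1 x.1.2 x.2.1, ?_⟩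
      rw [f2 x.1.swap (by rw [Prod.swap_swap]; exact x.2)]
      simp only [Prod.swap_swap]
      rfl
  · intro H _ η hη hη'
    have key : ∀ l : List (V × V), (∀ e ∈ l, e ∈ w) → (l.map (fun e => η e.1 e.2)).prod =
        FreeGroup.lift (fun x : X => η x.1.1 x.1.2) (FreeGroup.mk (l.filterMap f)) := by
      intro l
      induction l with
      | nil =>
        intro _
        rw [List.filterMap_nil, FreeGroup.lift_mk]
        rfl
      | cons e l ih =>
        intro hl
        have ih' := ih fun e he => hl e (List.mem_cons_of_mem _ he)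
        rw [List.map_cons, List.prod_cons, ih', FreeGroup.lift_mk, FreeGroup.lift_mk]
        rcases hcases e (hl e (by simp)) with h1 | h1 | h1
        · rw [List.filterMap_cons_none (f3 e (hten e h1).1 (hten e h1).2)]
          have h2 : η e.1 e.2 = 1 := by
            rcases (hte e).1 h1 with ⟨h3, h4⟩ | ⟨h3, h4⟩
            · rw [h4]; exact hη' _ h3
            · rw [h4, hη (par e.1) e.1, hη' _ h3, inv_one]
          rw [h2, one_mul]
        · rw [List.filterMap_cons_some (f1 e h1), List.map_cons, List.prod_cons]
          rfl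
        · rw [List.filterMap_cons_some (f2 e h1), List.map_cons, List.prod_cons]
          simp only [cond_false, Prod.fst_swap, Prod.snd_swap]
          rw [← hη e.2 e.1]
    exact key w fun e he => he
  · intro H _ s
    obtain ⟨η, hη⟩ : ∃ η : V → V → H, ∀ a b, η a b = if h : cd (a, b) then s ⟨(a, b), h⟩ else
      if h : cd (b, a) then (s ⟨(b, a), h⟩)⁻¹ else 1 := ⟨_, fun _ _ => rfl⟩
    have e1 : ∀ a b (h : cd (a, b)), η a b = s ⟨(a, b), h⟩ := fun a b h => by rw [hη, dif_pos h]
    have e2 : ∀ a b (h : cd (b, a)), η a b = (s ⟨(b, a), h⟩)⁻¹ := fun a b h => by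
      rw [hη, dif_neg (fun h' => hexc (a, b) h' h), dif_pos h]
    have e3 : ∀ a b, ¬ cd (a, b) → ¬ cd (b, a) → η a b = 1 := fun a b h h' => by
      rw [hη, dif_neg h, dif_neg h']
    refine ⟨η, ?_, ?_, ?_⟩
    · intro a b
      by_cases h1 : cd (a, b)
      · rw [e1 a b h1, e2 b a h1]
      by_cases h2 : cd (b, a)
      · rw [e1 b a h2, e2 a b h2, inv_inv]
      · rw [e3 a b h1 h2, e3 b a h2 h1, inv_one]
    · intro v hv
      have h1 : te (par v, v) := (hte _).2 (Or.inl ⟨hv, rfl⟩)
      have h2 := hten _ h1
      exact e3 _ _ h2.1 h2.2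
    · intro x
      exact e1 _ _ x.2
  · have hA : (w.toFinset.filter te).card = 2 * (Fintype.card V - 1) := by
      have h1 : w.toFinset.filter te = ((univ.erase v0) ×ˢ (univ : Finset Bool)).image
          (fun p => if p.2 then (par p.1, p.1) else (p.1, par p.1)) := by
        ext e
        rw [Finset.mem_filter, List.mem_toFinset, Finset.mem_image, hte]
        constructor
        · rintro ⟨h1, ⟨h2, h3⟩ | ⟨h2, h3⟩⟩
          · refine ⟨(e.2, true), by simp [h2], ?_⟩
            simp [← h3]
          · refine ⟨(e.1, false), by simp [h2], ?_⟩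
            simp [← h3]
        · rintro ⟨⟨v, b⟩, h1, rfl⟩
          have hv : v ≠ v0 := by
            have := (Finset.mem_product.1 h1).1
            exact Finset.ne_of_mem_erase this
          have h2 := ht.mem v hv
          cases b with
          | true => exact ⟨h2.1, Or.inl ⟨hv, rfl⟩⟩
          | false => exact ⟨h2.2, Or.inr ⟨hv, rfl⟩⟩
      rw [h1, Finset.card_image_of_injOn, Finset.card_product, Finset.card_erase_of_mem (Finset.mem_univ _),
        Finset.card_univ, Finset.card_univ, Fintype.card_bool, mul_comm]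
      rintro ⟨v, b⟩ hv ⟨v', b'⟩ hv' hvv
      have hv1 : v ≠ v0 := Finset.ne_of_mem_erase (Finset.mem_product.1 hv).1
      have hv2 : v' ≠ v0 := Finset.ne_of_mem_erase (Finset.mem_product.1 hv').1
      have r1 := ht.rk v hv1
      have r2 := ht.rk v' hv2
      cases b <;> cases b' <;> simp at hvv
      · rw [hvv.1]
      · exfalso
        have h3 : par v = v' := hvv.2
        have h4 : v = par v' := hvv.1
        rw [← h4] at r2
        rw [h3] at r1
        omega
      · exfalso
        have h3 : par v = v' := hvv.1
        have h4 : v = par v' := hvv.2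
        rw [← h4] at r2
        rw [h3] at r1
        omega
      · rw [hvv.2]
    have hB : (w.toFinset.filter (fun e => ¬ te e)).card = 2 * Fintype.card X := by
      have h1 : w.toFinset.filter (fun e => ¬ te e) = (univ : Finset (X × Bool)).image
          (fun p => if p.2 then p.1.1 else p.1.1.swap) := by
        ext e
        rw [Finset.mem_filter, List.mem_toFinset, Finset.mem_image]
        constructor
        · rintro ⟨h1, h2⟩
          rcases hcases e h1 with h3 | h3 | h3
          · exact absurd h3 h2
          · exact ⟨(⟨e, h3⟩, true), Finset.mem_univ _, by simp⟩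
          · exact ⟨(⟨e.swap, h3⟩, false), Finset.mem_univ _, by simp⟩
        · rintro ⟨⟨x, b⟩, -, rfl⟩
          cases b with
          | true => exact ⟨x.2.1, x.2.2.2⟩
          | false => exact ⟨hsym _ _ x.2.1, fun h => x.2.2.2 ((tes x.1).1 h)⟩
      rw [h1, Finset.card_image_of_injective, Finset.card_univ, Fintype.card_prod, Fintype.card_bool, mul_comm]
      rintro ⟨x, b⟩ ⟨y, c⟩ hxy
      cases b <;> cases c <;> simp only [if_true, if_false, Bool.false_eq_true] at hxy
      · rw [Subtype.ext (Prod.swap_injective hxy)]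
      · exfalso
        refine hexc x.1 x.2 ?_
        rw [hxy]
        exact y.2
      · exfalso
        refine hexc y.1 y.2 ?_
        rw [← hxy]
        exact x.2
      · rw [Subtype.ext hxy]
    have hC := Finset.card_filter_add_card_filter_not (s := w.toFinset) te
    rw [hA, hB, List.toFinset_card_of_nodup hn] at hC
    have hV : 0 < Fintype.card V := Fintype.card_pos_iff.2 ⟨v0⟩
    have hXc : ∀ (i : Fintype X), @Fintype.card X i = @Fintype.card X inferInstance := fun i => by
      congr!
    omega

end H32N
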