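import Pool.Agent.Lib.H32N.B6

set_option autoImplicit false

/-!
# H32N, chunk C3 (S/M): the length of the boundary word

`w` has no repetition and consists of the directed edges `(a, b)` with `K.graph.Adj a b`, `{a, b} ∉ C` (`w_symm`), two for each edge in `K.edges \ C`:
`w.length = 2 * (K.edges.card - C.card)`, `C ⊆ K.edges` (`BuiltInv.edgesC`), `C.card + 1 = K.tris.card` (`BuiltInv.card`), `H32D.euler_eq`. So
`w.length = 2 (E - F + 1) = 2 (V - χ + 1) = 2 (V - 2 + 2 g + 1)`.

Auxiliary names start with `c3_`.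
-/

open Finset

namespace H32N

open H32D

theorem w_length {V : Type} [Fintype V] [DecidableEq V] {K : Cpx V} (hK : IsSurface K) {O : V → V → V → Prop} (hO : IsOrientation K O)
    {C : Finset (Finset V)} {w : List (V × V)} (hb : Built O K.tris C w) (g : ℕ) (hχ : K.euler = 2 - 2 * (g : ℤ)) :
    w.length + 2 = 2 * (2 * g) + 2 * Fintype.card V := by
  classical
  have inv := built_inv hO hb
  obtain ⟨s1, s2, s3⟩ := w_symm hK hO hb
  have heul := euler_eq hK
  have hmaps : ∀ e ∈ w.toFinset, ({e.1, e.2} : Finset V) ∈ K.edges \ C := by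
    intro e he
    obtain ⟨h1, h2⟩ := (s3 e.1 e.2).1 (List.mem_toFinset.1 he)
    exact Finset.mem_sdiff.2 ⟨Finset.mem_filter.2 ⟨h1.2, Finset.card_pair h1.1⟩, h2⟩
  have h1 : w.toFinset.card = ∑ s ∈ K.edges \ C,
      (w.toFinset.filter (fun e => ({e.1, e.2} : Finset V) = s)).card :=
    Finset.card_eq_sum_card_fiberwise hmaps
  have h2 : ∀ s ∈ K.edges \ C, (w.toFinset.filter (fun e => ({e.1, e.2} : Finset V) = s)).card = 2 := by
    intro s hs
    obtain ⟨hs1, hs2⟩ := Finset.mem_sdiff.1 hs
    obtain ⟨hs3, hs4⟩ := Finset.mem_filter.1 hs1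
    obtain ⟨a, b, hab, rfl⟩ := Finset.card_eq_two.1 hs4
    have h3 : w.toFinset.filter (fun e => ({e.1, e.2} : Finset V) = {a, b}) = {(a, b), (b, a)} := by
      ext e
      rw [Finset.mem_filter, List.mem_toFinset, Finset.mem_insert, Finset.mem_singleton]
      constructor
      · rintro ⟨h4, h5⟩
        have h6 := (s2 e.1 e.2 h4).1
        have ha : e.1 ∈ ({a, b} : Finset V) := by rw [← h5]; simp
        have hb' : e.2 ∈ ({a, b} : Finset V) := by rw [← h5]; simp
        rw [Finset.mem_insert, Finset.mem_singleton] at ha hb'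
        rcases ha with ha | ha <;> rcases hb' with hb' | hb'
        · exact absurd (ha.trans hb'.symm) h6
        · exact Or.inl (Prod.ext ha hb')
        · exact Or.inr (Prod.ext ha hb')
        · exact absurd (ha.trans hb'.symm) h6
      · rintro (rfl | rfl)
        · exact ⟨(s3 a b).2 ⟨⟨hab, hs3⟩, hs2⟩, rfl⟩
        · exact ⟨s1 _ _ ((s3 a b).2 ⟨⟨hab, hs3⟩, hs2⟩), Finset.pair_comm _ _⟩
    rw [h3]
    exact Finset.card_pair fun h => hab (congrArg Prod.fst h)
  rw [Finset.sum_congr rfl h2, Finset.sum_const, List.toFinset_card_of_nodup inv.nodup,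
    Finset.card_sdiff_of_subset inv.edgesC] at h1
  have h3 := Finset.card_le_card inv.edgesC
  have h4 := inv.card
  rw [hχ] at heul
  simp only [smul_eq_mul] at h1
  omega

end H32N
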