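import Pool.Agent.Lib.H32N.NDefs

set_option autoImplicit false

/-!
# H32N, chunk C4 (M): gauge

`S v` is defined by recursion on `rk`: `S v0 = 1`, `S v = S (par v) * η (par v) v` (`WellFounded.fix` on `InvImage` of `rk`, or: `S v = ` the product along the chain
`v, par v, par (par v), ..`: define `Sn : ℕ → V → H` by `Sn 0 v = 1`, `Sn (n+1) v = if v = v0 then 1 else Sn n (par v) * η (par v) v` and `S v = Sn (rk v) v`, using
`Sn n v = Sn (rk v) v` for `n ≥ rk v`). The new labelling is `η' a b = S a * η a b * (S b)⁻¹`. The product along a chain of directed edges from `s` to `t` is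
multiplied by `S s` and `(S t)⁻¹` (`gauge_prod`).

Auxiliary names start with `c4_`.
-/

open Finset

namespace H32N

theorem exists_gauge {V : Type} [DecidableEq V] (w : List (V × V)) (v0 : V) (par : V → V) (rk : V → ℕ) (ht : TreeOf w v0 par rk) (H : Type) [Group H]
    (η : V → V → H) : ∃ S : V → H, S v0 = 1 ∧ ∀ v, v ≠ v0 → S v = S (par v) * η (par v) v := by
  obtain ⟨Sn, hSn⟩ : ∃ Sn : ℕ → V → H, Sn = fun n => Nat.rec (fun _ => 1)
    (fun _ F v => if v = v0 then 1 else F (par v) * η (par v) v) n := ⟨_, rfl⟩
  have s1 : ∀ n, Sn (n + 1) v0 = 1 := by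
    intro n
    rw [hSn]
    simp
  have s2 : ∀ n v, v ≠ v0 → Sn (n + 1) v = Sn n (par v) * η (par v) v := by
    intro n v hv
    rw [hSn]
    simp [hv]
  have key : ∀ n m v, rk v < n → rk v < m → Sn n v = Sn m v := by
    intro n
    induction n with
    | zero => intro m v h; omega
    | succ n ih =>
      intro m v h1 h2
      cases m with
      | zero => omega
      | succ m =>
        by_cases hv : v = v0
        · rw [hv, s1, s1]
        · have h3 := ht.rk v hv
          rw [s2 n v hv, s2 m v hv, ih m (par v) (by omega) (by omega)]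
  refine ⟨fun v => Sn (rk v + 1) v, s1 _, fun v hv => ?_⟩
  have h3 := ht.rk v hv
  simp only
  rw [s2 _ v hv, key (rk v) (rk (par v) + 1) (par v) (by omega) (by omega)]

theorem gauge_prod {V : Type} (H : Type) [Group H] (η : V → V → H) (S : V → H) (w : List (V × V)) (e e' : V × V) (h1 : w.head? = some e)
    (h2 : w.getLast? = some e') (hc : w.IsChain (fun e e' => e.2 = e'.1)) :
    (w.map (fun e => S e.1 * η e.1 e.2 * (S e.2)⁻¹)).prod = S e.1 * (w.map (fun e => η e.1 e.2)).prod * (S e'.2)⁻¹ := by
  induction w generalizing e with
  | nil => simp at h1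
  | cons a w ih =>
    simp only [List.head?_cons, Option.some.injEq] at h1
    subst h1
    cases w with
    | nil =>
      simp only [List.getLast?_singleton, Option.some.injEq] at h2
      subst h2
      simp
    | cons b w =>
      rw [List.isChain_cons_cons] at hc
      rw [List.getLast?_cons_cons] at h2
      have h3 := ih b rfl h2 hc.2
      rw [List.map_cons, List.prod_cons, h3, List.map_cons (l := b :: w), List.prod_cons, hc.1]
      group

/-- In the Heisenberg group: if the first coordinate of `η` is trivial on the tree edges, then the gauge transformation does not change it. -/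
theorem gauge_heis {V : Type} [DecidableEq V] (w : List (V × V)) (v0 : V) (par : V → V) (rk : V → ℕ) (ht : TreeOf w v0 par rk)
    (η : V → V → Heis) (hη : ∀ v, v ≠ v0 → (η (par v) v).a = 0) (S : V → Heis) (h0 : S v0 = 1) (hS : ∀ v, v ≠ v0 → S v = S (par v) * η (par v) v) :
    ∀ v, (S v).a = 0 := by
  have key : ∀ n v, rk v = n → (S v).a = 0 := by
    intro n
    induction n using Nat.strong_induction_on with
    | _ n ih =>
      intro v hv
      by_cases h : v = v0
      · rw [h, h0]
        rfl
      · have h3 := ht.rk v h
        rw [hS v h, Heis.mul_def]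
        simp only
        rw [ih _ (by omega) (par v) rfl, hη v h, add_zero]
  exact fun v => key _ v rfl

end H32N
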