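import Pool.Agent.Lib.H32N.B6
import Pool.Agent.Lib.H32N.C4

set_option autoImplicit false

/-!
# H32N, chunk C5 (M): every letter occurs in the normal form

Suppose `x0 : X` is not in `L`. Let `δ : FreeGroup X →* Multiplicative (ZMod 2)`, `of x0 ↦ 1`, `of z ↦ 0` otherwise, and `κ = δ ∘ φ`, and let
`h : V → V → ZMod 2` be the symmetric function with `h (rep x) = κ (of x)` which vanishes on the tree edges (`Letters.write` for
`H = Multiplicative (ZMod 2)`; inverse = itself, so it is symmetric). Claim: the hypothesis `H` of `nondeg` holds for `h`. Let `η` be as there, `S` from `exists_gauge`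
and `η' a b = S a * η a b * (S b)⁻¹`; `η'` is inverse-symmetric, trivial on the tree edges, and has first coordinate `h` (`gauge_heis`). By `Letters.read` the product of `η'` over `w`
is `ρ (mk r)` with `ρ = FreeGroup.lift (fun x => η' (rep x))`. The first coordinate of `ρ (φ⁻¹ y)` is `δ y` for all `y` (two homomorphisms to
`Multiplicative (ZMod 2)` which agree: `(ρ (of x)).a = κ (of x)`). For `p ∈ L` the elements `ρ (φ⁻¹ (of p.1))`, `ρ (φ⁻¹ (of p.2))` have first coordinate `0`, so they commute and
`cm = 1`; by `NF.eq` `ρ (mk r) = ρ (φ⁻¹ (φ (mk r))) = 1`. `gauge_prod` (`w` is a closed chain: `BuiltInv.chain`, `closed`): the product of `η` over `w` is conjugate to it.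
`nondeg` gives `f` with `h a b = f a + f b` on `w`; on tree edges `f (par v) = f v` (`TreeOf.mem`), so `f` is constant (induction on `rk`), `h = 0` on `w`, so `κ (of x) = 1` for all `x`
(`rep x ∈ w`), `κ = 1`, `δ = κ ∘ φ⁻¹ = 1`: contradiction.

Auxiliary names start with `c5_`.
-/

open Finset

namespace H32N

open H32D

theorem all_letters {V : Type} [Fintype V] [DecidableEq V] {K : Cpx V} (hK : IsSurface K) {O : V → V → V → Prop} (hO : IsOrientation K O)
    {C : Finset (Finset V)} {w : List (V × V)} (hb : Built O K.tris C w) (v0 : V) (par : V → V) (rk : V → ℕ) (ht : TreeOf w v0 par rk)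
    (X : Type) [DecidableEq X] (rep : X → V × V) (r : List (X × Bool)) (hX : Letters w v0 par X rep r)
    (φ : FreeGroup X ≃* FreeGroup X) (L : List (X × X)) (u : FreeGroup X) (h : NF r φ L u) : ∀ x : X, ∃ p ∈ L, x = p.1 ∨ x = p.2 := by
  classical
  intro x0
  by_contra hx0
  push Not at hx0
  have inv := built_inv hO hb
  obtain ⟨δ, hδ⟩ : ∃ δ : FreeGroup X →* Multiplicative (ZMod 2), ∀ z, δ (FreeGroup.of z) =
      if z = x0 then Multiplicative.ofAdd 1 else 1 :=
    ⟨FreeGroup.lift (fun z => if z = x0 then Multiplicative.ofAdd 1 else 1), fun z => by simp⟩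
  obtain ⟨η0, hη0, hη1, hη2⟩ := hX.write (Multiplicative (ZMod 2)) inferInstance (fun x => δ (φ (FreeGroup.of x)))
  obtain ⟨hh, hhd⟩ : ∃ hh : V → V → ZMod 2, ∀ a b, hh a b = Multiplicative.toAdd (η0 a b) := ⟨_, fun _ _ => rfl⟩
  have hs : ∀ a b, hh b a = hh a b := by
    intro a b
    rw [hhd, hhd, hη0 a b, toAdd_inv]
    generalize Multiplicative.toAdd (η0 a b) = t
    revert t
    decide
  have htree : ∀ v, v ≠ v0 → hh (par v) v = 0 := by
    intro v hv
    rw [hhd, hη1 v hv, toAdd_one]
  have H : ∀ η : V → V → Heis, (∀ a b, η b a = (η a b)⁻¹) → (∀ a b, (η a b).a = hh a b) →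
      (w.map (fun e => η e.1 e.2)).prod = 1 := by
    intro η e1 e2
    obtain ⟨S, S0, S1⟩ := exists_gauge w v0 par rk ht Heis η
    have Sa := gauge_heis w v0 par rk ht η (fun v hv => by rw [e2, htree v hv]) S S0 S1
    obtain ⟨η', hη'⟩ : ∃ η' : V → V → Heis, ∀ a b, η' a b = S a * η a b * (S b)⁻¹ := ⟨_, fun _ _ => rfl⟩
    have f1 : ∀ a b, η' b a = (η' a b)⁻¹ := by
      intro a b
      rw [hη', hη', e1 a b]
      group
    have f2 : ∀ v, v ≠ v0 → η' (par v) v = 1 := by
      intro v hv
      rw [hη', S1 v hv]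
      group
    have f3 : ∀ a b, (η' a b).a = hh a b := by
      intro a b
      rw [hη', Heis.mul_def, Heis.mul_def, Heis.inv_def]
      simp only [Sa, e2, zero_add, add_zero]
    have hread := hX.read Heis inferInstance η' f1 f2
    obtain ⟨ρ, hρ⟩ : ∃ ρ : FreeGroup X →* Heis, ρ = FreeGroup.lift (fun x => η' (rep x).1 (rep x).2) := ⟨_, rfl⟩
    rw [← hρ] at hread
    let δ' : Heis →* Multiplicative (ZMod 2) :=
      { toFun := fun x => Multiplicative.ofAdd x.a
        map_one' := rfl
        map_mul' := fun x y => rfl }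
    have g1 : δ'.comp ρ = δ.comp φ.toMonoidHom := by
      refine FreeGroup.ext_hom _ _ fun x => ?_
      have g2 : ρ (FreeGroup.of x) = η' (rep x).1 (rep x).2 := by rw [hρ, FreeGroup.lift_apply_of]
      have g3 : (δ'.comp ρ) (FreeGroup.of x) = Multiplicative.ofAdd (ρ (FreeGroup.of x)).a := rfl
      rw [g3, g2, f3, hhd, hη2, ofAdd_toAdd]
      rfl
    have g4 : ∀ y, Multiplicative.ofAdd (ρ (φ.symm y)).a = δ y := by
      intro y
      have g5 := DFunLike.congr_fun g1 (φ.symm y)
      have g6 : (δ.comp φ.toMonoidHom) (φ.symm y) = δ (φ (φ.symm y)) := rfl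
      rw [g6, MulEquiv.apply_symm_apply] at g5
      exact g5
    have g7 : ∀ z, z ≠ x0 → (ρ (φ.symm (FreeGroup.of z))).a = 0 := by
      intro z hz
      have g8 := g4 (FreeGroup.of z)
      rw [hδ, if_neg hz] at g8
      exact g8
    have g9 : ∀ x y : Heis, x.a = 0 → y.a = 0 → cm x y = 1 := by
      intro x y hx hy
      have hc : x * y = y * x := by
        rw [Heis.mul_def, Heis.mul_def, hx, hy]
        congr 1
        · ring
        · ring
      unfold cm
      rw [hc]
      group
    have g10 : ρ (FreeGroup.mk r) = 1 := by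
      have g11 : FreeGroup.mk r = φ.symm (φ (FreeGroup.mk r)) := (φ.symm_apply_apply _).symm
      rw [g11, h.eq, map_mul, map_mul, map_mul, map_mul, map_inv, map_inv, map_list_prod, map_list_prod, List.map_map, List.map_map]
      have g12 : (L.map ((fun a => ρ a) ∘ (fun a => φ.symm a) ∘ fun p => cm (FreeGroup.of p.1) (FreeGroup.of p.2))).prod = 1 := by
        refine List.prod_eq_one fun x hx => ?_
        obtain ⟨p, hp, rfl⟩ := List.mem_map.1 hx
        have g13 := hx0 p hp
        simp only [Function.comp_apply, cm, map_mul, map_inv]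
        exact g9 _ _ (g7 _ g13.1.symm) (g7 _ g13.2.symm)
      have g14 : (L.map ((ρ ∘ φ.symm) ∘ fun p => cm (FreeGroup.of p.1) (FreeGroup.of p.2))).prod = 1 := g12
      rw [g14, mul_one, mul_inv_cancel]
    rw [g10] at hread
    cases hw : w with
    | nil => simp
    | cons e l =>
      rw [hw] at hread inv
      obtain ⟨e', he'⟩ : ∃ e', (e :: l).getLast? = some e' := by
        rw [List.getLast?_cons]
        exact ⟨_, rfl⟩
      have g15 := gauge_prod Heis η S (e :: l) e e' rfl he' inv.chain
      have g16 := inv.closed e e' rfl he'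
      have g17 : ((e :: l).map (fun e => η' e.1 e.2)).prod =
          ((e :: l).map (fun e => S e.1 * η e.1 e.2 * (S e.2)⁻¹)).prod := by
        congr 1
        exact List.map_congr_left fun a _ => hη' _ _
      rw [g17, g15, g16] at hread
      have g18 := eq_inv_of_mul_eq_one_left hread
      rw [inv_inv] at g18
      exact mul_eq_left.1 g18
  obtain ⟨f, hf⟩ := nondeg hK hO hb hh hs H
  have two : ∀ x : ZMod 2, x + x = 0 := by decide
  have hfc : ∀ n v, rk v = n → f v = f v0 := by
    intro n
    induction n using Nat.strong_induction_on with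
    | _ n ih =>
      intro v hv
      by_cases hv0 : v = v0
      · rw [hv0]
      · have h3 := ht.rk v hv0
        have h4 := hf (par v) v (ht.mem v hv0).1
        rw [htree v hv0, ih _ (by omega) (par v) rfl] at h4
        have h5 := two (f v0)
        have h6 : f v0 + f v = f v0 + f v0 := by rw [← h4, h5]
        exact add_left_cancel h6
  have hzero : ∀ a b, (a, b) ∈ w → hh a b = 0 := by
    intro a b hab
    rw [hf a b hab, hfc _ a rfl, hfc _ b rfl]
    exact two _
  have hκ : ∀ x, δ (φ (FreeGroup.of x)) = 1 := by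
    intro x
    rw [← hη2 x, ← ofAdd_toAdd (η0 (rep x).1 (rep x).2), ← hhd, hzero _ _ (hX.mem x), ofAdd_zero]
  have hκ' : δ.comp φ.toMonoidHom = 1 := by
    refine FreeGroup.ext_hom _ _ fun x => ?_
    exact hκ x
  have h1 : δ (FreeGroup.of x0) = 1 := by
    have h2 := DFunLike.congr_fun hκ' (φ.symm (FreeGroup.of x0))
    have h3 : (δ.comp φ.toMonoidHom) (φ.symm (FreeGroup.of x0)) = δ (φ (φ.symm (FreeGroup.of x0))) := rfl
    rw [h3, MulEquiv.apply_symm_apply] at h2
    exact h2
  rw [hδ, if_pos rfl] at h1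
  have h2 : (1 : ZMod 2) = 0 := h1
  exact absurd h2 (by decide)

end H32N
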