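import Pool.Agent.Lib.H32N.NDefs

set_option autoImplicit false

/-!
# H32N, chunk C6 (M): closed walks and holonomy

* `hol_append`: for lists `l1` ending at `a` and `l2` starting at `a`: `hol lab (l1 ++ l2) = hol lab l1 * hol lab l2`.
* `hol_reverse`: `hol lab l.reverse = (hol lab l)⁻¹` if `lab b a = (lab a b)⁻¹`.
* `exists_path`: walks `t v` from `v0` to `v` along the tree: `t v0 = [v0]`, `t v = t (par v) ++ [v]` (recursion as for `exists_gauge`, chunk C4), with
  `hol lab (t v) = S v` for the `S` of every labelling.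
* `exists_word_walk`: for `y : FreeGroup X` there is a closed walk `γ` at `v0` such that for every inverse-symmetric labelling `lab`
  `hol lab γ = FreeGroup.lift (fun x => S (rep x).1 * lab (rep x).1 (rep x).2 * (S (rep x).2)⁻¹) y`: induction on `y` (`FreeGroup.induction_on`, or on the word): for a
  letter `x` the walk `t a ++ (t b).reverse`, `(a, b) = rep x`, and for the inverse letter its reverse; products: concatenation.

Auxiliary names start with `c6_`.
-/

open Finset

namespace H32N

open H32D

theorem c6_join {V H : Type} [DecidableEq V] [Group H] (lab : V → V → H) (d : List V) (a : V) (r : List V) :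
    hol lab (d ++ a :: r) = hol lab (d ++ [a]) * hol lab (a :: r) := by
  induction d with
  | nil => show _ = 1 * _; rw [one_mul]; rfl
  | cons x d ih =>
    cases d with
    | nil =>
      show lb lab x a * hol lab (a :: r) = lb lab x a * 1 * hol lab (a :: r)
      rw [mul_one]
    | cons y d =>
      show lb lab x y * hol lab ((y :: d) ++ a :: r) = lb lab x y * hol lab ((y :: d) ++ [a]) * hol lab (a :: r)
      rw [ih, mul_assoc]

theorem hol_append {V H : Type} [DecidableEq V] [Group H] (lab : V → V → H) (l1 l2 : List V) (a : V) (h1 : l1.getLast? = some a)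
    (h2 : l2.head? = some a) : hol lab (l1 ++ l2) = hol lab l1 * hol lab l2 := by
  obtain ⟨d, rfl⟩ := List.getLast?_eq_some_iff.1 h1
  obtain ⟨r, rfl⟩ := List.head?_eq_some_iff.1 h2
  rw [List.append_assoc]
  show hol lab (d ++ a :: (a :: r)) = _
  rw [c6_join]
  congr 1
  show lb lab a a * hol lab (a :: r) = _
  unfold lb
  rw [if_pos rfl, one_mul]

theorem hol_reverse {V H : Type} [DecidableEq V] [Group H] (lab : V → V → H) (hinv : ∀ a b, lab b a = (lab a b)⁻¹) (l : List V) :
    hol lab l.reverse = (hol lab l)⁻¹ := by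
  induction l with
  | nil => show (1 : H) = 1⁻¹; rw [inv_one]
  | cons x l ih =>
    cases l with
    | nil => show (1 : H) = 1⁻¹; rw [inv_one]
    | cons y l =>
      rw [List.reverse_cons, List.reverse_cons, List.append_assoc]
      show hol lab (l.reverse ++ y :: [x]) = (lb lab x y * hol lab (y :: l))⁻¹
      rw [List.reverse_cons] at ih
      rw [c6_join, ih, mul_inv_rev]
      congr 1
      show lb lab y x * 1 = _
      rw [mul_one]
      unfold lb
      by_cases hxy : x = y
      · rw [if_pos hxy, if_pos hxy.symm, inv_one]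
      · rw [if_neg hxy, if_neg (Ne.symm hxy), hinv]

theorem c6_edge {V H : Type} [DecidableEq V] [Group H] (lab : V → V → H) (l1 l2 : List V) (a b : V) (hab : a ≠ b) (h1 : l1.getLast? = some a)
    (h2 : l2.head? = some b) : hol lab (l1 ++ l2) = hol lab l1 * lab a b * hol lab l2 := by
  obtain ⟨d, rfl⟩ := List.getLast?_eq_some_iff.1 h1
  obtain ⟨r, rfl⟩ := List.head?_eq_some_iff.1 h2
  rw [List.append_assoc]
  show hol lab (d ++ a :: (b :: r)) = _
  rw [c6_join, mul_assoc]
  congr 1
  show lb lab a b * hol lab (b :: r) = _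
  unfold lb
  rw [if_neg hab]

theorem exists_path {V : Type} [Fintype V] [DecidableEq V] (K : Cpx V) (w : List (V × V)) (hw : ∀ a b, (a, b) ∈ w → a ≠ b ∧ K.graph.Adj a b) (v0 : V)
    (par : V → V) (rk : V → ℕ) (ht : TreeOf w v0 par rk) :
    ∃ t : V → List V, (∀ v, (t v).head? = some v0 ∧ (t v).getLast? = some v ∧ (t v).IsChain (fun a b => ({a, b} : Finset V) ∈ K.faces)) ∧
      ∀ (H : Type) (_ : Group H) (lab : V → V → H) (S : V → H), S v0 = 1 → (∀ v, v ≠ v0 → S v = S (par v) * lab (par v) v) →
        ∀ v, hol lab (t v) = S v := by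
  have key : ∀ n : ℕ, ∀ v, rk v = n → ∃ l : List V, (l.head? = some v0 ∧ l.getLast? = some v ∧ l.IsChain (fun a b => ({a, b} : Finset V) ∈ K.faces)) ∧
      ∀ (H : Type) (_ : Group H) (lab : V → V → H) (S : V → H), S v0 = 1 → (∀ v, v ≠ v0 → S v = S (par v) * lab (par v) v) → hol lab l = S v := by
    intro n
    induction n using Nat.strong_induction_on with
    | _ n ih =>
      intro v hv
      by_cases hv0 : v = v0
      · subst hv0
        refine ⟨[v], ⟨rfl, rfl, List.isChain_singleton _⟩, ?_⟩
        intro H _ lab S h1 _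
        rw [h1]
        rfl
      · obtain ⟨l, ⟨h1, h2, h3⟩, h4⟩ := ih (rk (par v)) (by rw [← hv]; exact ht.rk v hv0) (par v) rfl
        obtain ⟨hne, hadj⟩ := hw _ _ (ht.mem v hv0).1
        refine ⟨l ++ [v], ⟨?_, ?_, ?_⟩, ?_⟩
        · rw [List.head?_append, h1]
          rfl
        · simp
        · rw [List.isChain_append]
          refine ⟨h3, List.isChain_singleton _, ?_⟩
          intro x hx y hy
          rw [h2] at hx
          obtain rfl : par v = x := Option.some.inj hx
          obtain rfl : v = y := Option.some.inj hy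
          exact hadj.2
        · intro H _ lab S hS1 hS2
          rw [c6_edge lab l [v] (par v) v hne h2 rfl, h4 H inferInstance lab S hS1 hS2, hS2 v hv0]
          show _ * 1 = _
          rw [mul_one]
  choose t ht1 ht2 using fun v => key (rk v) v rfl
  exact ⟨t, ht1, fun H _ lab S h1 h2 v => ht2 v H inferInstance lab S h1 h2⟩

theorem exists_word_walk {V : Type} [Fintype V] [DecidableEq V] (K : Cpx V) (w : List (V × V)) (hw : ∀ a b, (a, b) ∈ w → a ≠ b ∧ K.graph.Adj a b)
    (v0 : V) (par : V → V) (rk : V → ℕ) (ht : TreeOf w v0 par rk) (X : Type) (rep : X → V × V) (hrep : ∀ x, rep x ∈ w) (y : FreeGroup X) :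
    ∃ γ : List V, ClW K v0 γ ∧ ∀ (H : Type) (_ : Group H) (lab : V → V → H) (_ : ∀ a b, lab b a = (lab a b)⁻¹) (S : V → H), S v0 = 1 →
      (∀ v, v ≠ v0 → S v = S (par v) * lab (par v) v) →
        hol lab γ = FreeGroup.lift (fun x => S (rep x).1 * lab (rep x).1 (rep x).2 * (S (rep x).2)⁻¹) y := by
  obtain ⟨t, ht1, ht2⟩ := exists_path K w hw v0 par rk ht
  induction y using FreeGroup.induction_on with
  | C1 =>
    refine ⟨[v0], ⟨rfl, rfl, List.isChain_singleton _⟩, ?_⟩
    intro H _ lab _ S _ _
    rw [map_one]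
    rfl
  | of x =>
    obtain ⟨a, b, hab⟩ : ∃ a b, rep x = (a, b) := ⟨(rep x).1, (rep x).2, rfl⟩
    obtain ⟨hne, hadj⟩ := hw a b (by rw [← hab]; exact hrep x)
    obtain ⟨ha1, ha2, ha3⟩ := ht1 a
    obtain ⟨hb1, hb2, hb3⟩ := ht1 b
    have hbr : (t b).reverse.head? = some b := by rw [List.head?_reverse, hb2]
    refine ⟨t a ++ (t b).reverse, ⟨?_, ?_, ?_⟩, ?_⟩
    · rw [List.head?_append, ha1]
      rfl
    · rw [List.getLast?_append, List.getLast?_reverse, hb1]
      rfl
    · rw [List.isChain_append]
      refine ⟨ha3, ?_, ?_⟩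
      · rw [List.isChain_reverse]
        refine hb3.imp ?_
        intro u v huv
        show ({v, u} : Finset V) ∈ K.faces
        rw [Finset.pair_comm]
        exact huv
      · intro u hu v hv
        rw [ha2] at hu
        rw [hbr] at hv
        obtain rfl : a = u := Option.some.inj hu
        obtain rfl : b = v := Option.some.inj hv
        exact hadj.2
    · intro H _ lab hinv S h1 h2
      rw [c6_edge lab _ _ a b hne ha2 hbr, hol_reverse lab hinv, ht2 H inferInstance lab S h1 h2, ht2 H inferInstance lab S h1 h2,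
        FreeGroup.lift_apply_of, hab]
  | inv_of x ih =>
    obtain ⟨γ, hγ, h⟩ := ih
    refine ⟨γ.reverse, ⟨by rw [List.head?_reverse, hγ.last], by rw [List.getLast?_reverse, hγ.head], ?_⟩, ?_⟩
    · rw [List.isChain_reverse]
      refine hγ.chain.imp ?_
      intro u v huv
      show ({v, u} : Finset V) ∈ K.faces
      rw [Finset.pair_comm]
      exact huv
    · intro H _ lab hinv S h1 h2
      rw [hol_reverse lab hinv, h H inferInstance lab hinv S h1 h2, map_inv]
  | mul y z ihy ihz =>
    obtain ⟨γ, hγ, h⟩ := ihy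
    obtain ⟨γ', hγ', h'⟩ := ihz
    refine ⟨γ ++ γ', ⟨?_, ?_, ?_⟩, ?_⟩
    · rw [List.head?_append, hγ.head]
      rfl
    · rw [List.getLast?_append, hγ'.last]
      rfl
    · rw [List.isChain_append]
      refine ⟨hγ.chain, hγ'.chain, ?_⟩
      intro u hu v hv
      rw [hγ.last] at hu
      rw [hγ'.head] at hv
      obtain rfl : v0 = u := Option.some.inj hu
      obtain rfl : v0 = v := Option.some.inj hv
      rw [Finset.pair_eq_singleton]
      exact K.vertex _
    · intro H _ lab hinv S h1 h2
      rw [hol_append lab γ γ' v0 hγ.last hγ'.head, h H inferInstance lab hinv S h1 h2, h' H inferInstance lab hinv S h1 h2, map_mul]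

end H32N
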