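import Pool.Agent.Lib.H32N.A4
import Pool.Agent.Lib.H32N.A5
import Pool.Agent.Lib.H32N.B1
import Pool.Agent.Lib.H32N.C1
import Pool.Agent.Lib.H32N.C2
import Pool.Agent.Lib.H32N.C3
import Pool.Agent.Lib.H32N.C5
import Pool.Agent.Lib.H32N.C6

set_option autoImplicit false

/-!
# H32N, chunk C7 (M): the loops

`O` from `IsSurface.orient`, `H32D.exists_built`, `exists_tree`, `exists_letters` (`BuiltInv.nodup`, `w_symm`), `w_length` (so `card X = 2 g`), `normal_form` for `r`
(`Letters.nodup`, `all`), `all_letters`, `exists_basis`; `γ k` = the walk of `B k` (`exists_word_walk`).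
* first claim: `lab` flat, `S` from `exists_gauge`, `η a b = S a * lab a b * (S b)⁻¹` is trivial on the tree edges, `s = FreeGroup.lift (fun x => η (rep x))`,
  `s (mk r)` = product of `η` over `w` (`Letters.read`) = conjugate (`gauge_prod`, `w` is a closed chain: `BuiltInv.chain`, `closed`) of the product of `lab` over `w` = `1`
  (`flat_prod`). `hol lab (γ k) = s (B k)`.
* second claim: `s` from `exists_basis`, `η` from `Letters.write` for `fun x => s (of x)`; its product over `w` is `s (mk r) = 1` (`Letters.read`), so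
  `H32D.exists_flat` gives a labelling `lab`, equal to `η` on the edges of `w` (outside `C`, `w_symm`), flat for the triangles in `K.tris`. Then `S = 1` satisfies the recursion for `lab`, and
  `hol lab (γ k) = s (B k) = σ k`.

Auxiliary names start with `c7_`.
-/

open Finset

namespace H32N

open H32D

theorem exists_loops {V : Type} [Fintype V] [DecidableEq V] {K : Cpx V} (hK : IsSurface K) (g : ℕ) (hχ : K.euler = 2 - 2 * (g : ℤ)) (v0 : V) :
    ∃ γ : ℕ → List V, (∀ k, ClW K v0 (γ k)) ∧
      (∀ (H : Type) (_ : Group H) (lab : V → V → H), Flat K lab → comm g (fun k => hol lab (γ k)) = 1) ∧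
      ∀ (H : Type) (_ : Group H) (σ : ℕ → H), comm g σ = 1 → ∃ lab : V → V → H, Flat K lab ∧ ∀ k < 2 * g, hol lab (γ k) = σ k := by
  classical
  obtain ⟨O, hO⟩ := hK.orient
  obtain ⟨C, w, hb⟩ := exists_built hK hO
  have inv := built_inv hO hb
  obtain ⟨hsym, hadj, hmem⟩ := w_symm hK hO hb
  obtain ⟨par, rk, ht⟩ := exists_tree hK hO hb v0
  obtain ⟨X, iF, iD, rep, r, hX, hlen⟩ := exists_letters w inv.nodup hsym (fun a b h => (hadj a b h).1) v0 par rk ht
  have hlen2 := w_length hK hO hb g hχ
  have hcard : Fintype.card X = 2 * g := by omega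
  obtain ⟨φ, L, u, hNF⟩ := normal_form r hX.nodup (fun x b _ => hX.all x _)
  have hall := all_letters hK hO hb v0 par rk ht X rep r hX φ L u hNF
  obtain ⟨B, hB1, hB2⟩ := exists_basis g hcard r φ L u hNF hall
  choose γ hγ hhol using fun k => exists_word_walk K w hadj v0 par rk ht X rep hX.mem (B k)
  refine ⟨γ, hγ, ?_, ?_⟩
  · intro H _ lab hlab
    obtain ⟨S, hS0, hS⟩ := exists_gauge w v0 par rk ht H lab
    have h1 : (w.map (fun e => S e.1 * lab e.1 e.2 * (S e.2)⁻¹)).prod = 1 := by
      cases hw : w with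
      | nil => simp
      | cons e w' =>
        have hne : w ≠ [] := by rw [hw]; simp
        obtain ⟨e', he'⟩ : ∃ e', w.getLast? = some e' := ⟨w.getLast hne, List.getLast?_eq_some_getLast hne⟩
        have hhead : w.head? = some e := by rw [hw]; rfl
        have h2 := gauge_prod H lab S w e e' hhead he' inv.chain
        rw [← hw, h2, flat_prod hO hb lab hlab, inv.closed e e' hhead he', mul_one, mul_inv_cancel]
    have h2 : FreeGroup.lift (fun x => S (rep x).1 * lab (rep x).1 (rep x).2 * (S (rep x).2)⁻¹) (FreeGroup.mk r) = 1 := by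
      rw [← h1]
      refine (hX.read H inferInstance (fun a b => S a * lab a b * (S b)⁻¹) ?_ ?_).symm
      · intro a b
        rw [hlab.inv a b]
        group
      · intro v hv
        show S (par v) * lab (par v) v * (S v)⁻¹ = 1
        rw [← hS v hv, mul_inv_cancel]
    have h3 := hB1 H inferInstance (FreeGroup.lift (fun x => S (rep x).1 * lab (rep x).1 (rep x).2 * (S (rep x).2)⁻¹)) h2
    rw [← h3]
    congr 1
    funext k
    exact hhol k H inferInstance lab hlab.inv S hS0 hS
  · intro H _ σ hσ
    obtain ⟨s, hs1, hs2⟩ := hB2 H inferInstance σ hσ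
    obtain ⟨η, hη1, hη2, hη3⟩ := hX.write H inferInstance (fun x => s (FreeGroup.of x))
    have hlift : FreeGroup.lift (fun x => η (rep x).1 (rep x).2) = s := by
      ext x
      rw [FreeGroup.lift_apply_of]
      exact hη3 x
    have hprod : (w.map (fun e => η e.1 e.2)).prod = 1 := by
      rw [hX.read H inferInstance η hη1 hη2, hlift, hs1]
    obtain ⟨lab, hl1, hl2, hl3⟩ := exists_flat hO hb η hη1 hprod
    have hflat : Flat K lab := by
      refine ⟨hl1, fun a b c hab hbc hac hf => hl3 a b c hab hbc hac ?_⟩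
      exact Finset.mem_filter.2 ⟨hf, Finset.card_eq_three.2 ⟨a, b, c, hab, hac, hbc, rfl⟩⟩
    refine ⟨lab, hflat, fun k hk => ?_⟩
    have hlw : ∀ a b, (a, b) ∈ w → lab a b = η a b := fun a b h => hl2 a b ((hmem a b).1 h).2
    have htree : ∀ v, v ≠ v0 → lab (par v) v = 1 := fun v hv => by
      rw [hlw _ _ (ht.mem v hv).1, hη2 v hv]
    rw [hhol k H inferInstance lab hl1 (fun _ => 1) rfl (fun v hv => by rw [htree v hv, mul_one]), ← hs2 k hk, ← hlift]
    congr 2
    funext x
    have := hlw (rep x).1 (rep x).2 (hX.mem x)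
    rw [this]
    simp

end H32N
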