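import Pool.Agent.Lib.H32N.NDefs

set_option autoImplicit false

/-!
# H32N, chunk E1 (M): the edge path group

Elements: closed walks at `v0` up to `Relation.EqvGen (Mv K)`. Product: concatenation (with the repetition `v0, v0`), inverse: reverse, unit: `[v0]`.
* `Mv` is preserved by adding lists on both sides and by `List.reverse` (`{a, b, c} = {c, b, a}`), so is `EqvGen`.
* `ClW` is preserved by concatenation and reverse.
* `[v0] ++ l ~ l` (`l = v0 :: l'`, `stut`).
* `l.reverse ++ l ~ [last]`: for a walk `a :: l'`: induction on `l'`: `(a :: b :: l'').reverse ++ a :: b :: l'' = l''.reverse ++ [b, a, a, b] ++ l''`, `stut` gives `b a b`, `tri` with the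
  face `{b, a, b} = {a, b}` gives `b b`, which is `(b :: l'').reverse ++ (b :: l'')`.

Auxiliary names start with `e1_`.
-/

open Finset

namespace H32N

open H32D

theorem mv_append {V : Type} [Fintype V] [DecidableEq V] {K : Cpx V} {l l' : List V} (h : Relation.EqvGen (Mv K) l l') (p q : List V) :
    Relation.EqvGen (Mv K) (p ++ l ++ q) (p ++ l' ++ q) := by
  induction h with
  | rel x y h =>
    apply Relation.EqvGen.rel
    cases h with
    | stut l1 l2 a => simpa [List.append_assoc] using Mv.stut (K := K) (p ++ l1) (l2 ++ q) a
    | tri l1 l2 a b c h => simpa [List.append_assoc] using Mv.tri (K := K) (p ++ l1) (l2 ++ q) a b c h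
  | refl x => exact Relation.EqvGen.refl _
  | symm x y _ ih => exact ih.symm
  | trans x y z _ _ ih1 ih2 => exact ih1.trans _ _ _ ih2

theorem mv_reverse {V : Type} [Fintype V] [DecidableEq V] {K : Cpx V} {l l' : List V} (h : Relation.EqvGen (Mv K) l l') :
    Relation.EqvGen (Mv K) l.reverse l'.reverse := by
  induction h with
  | rel x y h =>
    apply Relation.EqvGen.rel
    cases h with
    | stut l1 l2 a => simpa [List.append_assoc] using Mv.stut (K := K) l2.reverse l1.reverse a
    | tri l1 l2 a b c h =>
      have h' : ({c, b, a} : Finset V) ∈ K.faces := by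
        have : ({c, b, a} : Finset V) = {a, b, c} := by
          ext x
          simp only [Finset.mem_insert, Finset.mem_singleton]
          tauto
        rw [this]
        exact h
      simpa [List.append_assoc] using Mv.tri (K := K) l2.reverse l1.reverse c b a h'
  | refl x => exact Relation.EqvGen.refl _
  | symm x y _ ih => exact ih.symm
  | trans x y z _ _ ih1 ih2 => exact ih1.trans _ _ _ ih2

theorem clw_append {V : Type} [Fintype V] [DecidableEq V] {K : Cpx V} {v0 : V} {l l' : List V} (h : ClW K v0 l) (h' : ClW K v0 l') :
    ClW K v0 (l ++ l') := by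
  refine ⟨?_, ?_, ?_⟩
  · rw [List.head?_append, h.head]
    rfl
  · rw [List.getLast?_append, h'.last]
    rfl
  · rw [List.isChain_append]
    refine ⟨h.chain, h'.chain, ?_⟩
    intro x hx y hy
    rw [h.last] at hx
    rw [h'.head] at hy
    obtain rfl : v0 = x := Option.some.inj hx
    obtain rfl : v0 = y := Option.some.inj hy
    rw [Finset.pair_eq_singleton]
    exact K.vertex _

theorem clw_reverse {V : Type} [Fintype V] [DecidableEq V] {K : Cpx V} {v0 : V} {l : List V} (h : ClW K v0 l) : ClW K v0 l.reverse := by
  refine ⟨by rw [List.head?_reverse, h.last], by rw [List.getLast?_reverse, h.head], ?_⟩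
  rw [List.isChain_reverse]
  refine h.chain.imp ?_
  intro x y hxy
  show ({y, x} : Finset V) ∈ K.faces
  rw [Finset.pair_comm]
  exact hxy

theorem clw_one {V : Type} [Fintype V] [DecidableEq V] (K : Cpx V) (v0 : V) : ClW K v0 [v0] := ⟨rfl, rfl, List.isChain_singleton _⟩

theorem mv_one_append {V : Type} [Fintype V] [DecidableEq V] {K : Cpx V} {v0 : V} {l : List V} (h : ClW K v0 l) :
    Relation.EqvGen (Mv K) ([v0] ++ l) l := by
  obtain ⟨r, hr⟩ := List.head?_eq_some_iff.1 h.head
  rw [hr]
  exact Relation.EqvGen.rel _ _ (Mv.stut [] r v0)

/-- Backtracking, for walks which need not be closed. -/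
theorem mv_back {V : Type} [Fintype V] [DecidableEq V] {K : Cpx V} (l : List V) (b : V) (hl : l.getLast? = some b)
    (hc : l.IsChain (fun a b => ({a, b} : Finset V) ∈ K.faces)) : Relation.EqvGen (Mv K) (l.reverse ++ l) [b] := by
  induction l with
  | nil => simp at hl
  | cons x l ih =>
    cases l with
    | nil =>
      have hx : x = b := by simpa using hl
      subst hx
      exact Relation.EqvGen.rel _ _ (Mv.stut [] [] x)
    | cons y l =>
      have hxy := (List.isChain_cons_cons.1 hc).1
      have ih' := ih (by simpa using hl) (List.isChain_cons_cons.1 hc).2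
      refine Relation.EqvGen.trans _ _ _ ?_ ih'
      have h1 : Relation.EqvGen (Mv K) ((x :: y :: l).reverse ++ x :: y :: l) (l.reverse ++ y :: x :: y :: l) := by
        have := Mv.stut (K := K) (l.reverse ++ [y]) (y :: l) x
        simpa [List.append_assoc] using Relation.EqvGen.rel _ _ this
      refine h1.trans _ _ _ ?_
      have h2 : ({y, x, y} : Finset V) ∈ K.faces := by
        have : ({y, x, y} : Finset V) = {x, y} := by
          ext z
          simp only [Finset.mem_insert, Finset.mem_singleton]
          tauto
        rw [this]
        exact hxy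
      have h3 := Mv.tri (K := K) l.reverse l y x y h2
      simpa [List.append_assoc] using Relation.EqvGen.rel _ _ h3

end H32N
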