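import Pool.Agent.Lib.H32N.E1

set_option autoImplicit false

/-!
# H32N, definitions for chunk E3: the group `PiOne K v0` (proved from E1)
-/

open Finset

namespace H32N

open H32D

variable {V : Type} [Fintype V] [DecidableEq V]

/-- Homotopy of closed walks. -/
def piSetoid (K : Cpx V) (v0 : V) : Setoid {l : List V // ClW K v0 l} where
  r l l' := Relation.EqvGen (Mv K) l.1 l'.1
  iseqv := ⟨fun l => Relation.EqvGen.refl _, fun h => Relation.EqvGen.symm _ _ h, fun h h' => Relation.EqvGen.trans _ _ _ h h'⟩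

/-- The edge path group. -/
def PiOne (K : Cpx V) (v0 : V) : Type := Quotient (piSetoid K v0)

/-- The class of a closed walk. -/
def cls (K : Cpx V) (v0 : V) (l : {l : List V // ClW K v0 l}) : PiOne K v0 := Quotient.mk (piSetoid K v0) l

theorem cls_eq {K : Cpx V} {v0 : V} {l l' : {l : List V // ClW K v0 l}} (h : Relation.EqvGen (Mv K) l.1 l'.1) : cls K v0 l = cls K v0 l' :=
  Quotient.sound (s := piSetoid K v0) h

theorem cls_exact {K : Cpx V} {v0 : V} {l l' : {l : List V // ClW K v0 l}} (h : cls K v0 l = cls K v0 l') : Relation.EqvGen (Mv K) l.1 l'.1 :=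
  Quotient.exact (s := piSetoid K v0) h

instance (K : Cpx V) (v0 : V) : Mul (PiOne K v0) :=
  ⟨Quotient.map₂ (fun l l' => ⟨l.1 ++ l'.1, clw_append l.2 l'.2⟩) (by
    intro a b hab c d hcd
    have h1 : Relation.EqvGen (Mv K) (a.1 ++ c.1) (b.1 ++ c.1) := by simpa using mv_append hab [] c.1
    have h2 : Relation.EqvGen (Mv K) (b.1 ++ c.1) (b.1 ++ d.1) := by simpa using mv_append hcd b.1 []
    exact h1.trans _ _ _ h2)⟩

instance (K : Cpx V) (v0 : V) : One (PiOne K v0) := ⟨cls K v0 ⟨[v0], clw_one K v0⟩⟩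

instance (K : Cpx V) (v0 : V) : Inv (PiOne K v0) :=
  ⟨Quotient.map (fun l => ⟨l.1.reverse, clw_reverse l.2⟩) (by
    intro a b hab
    exact mv_reverse hab)⟩

theorem cls_mul (K : Cpx V) (v0 : V) (l l' : {l : List V // ClW K v0 l}) :
    cls K v0 l * cls K v0 l' = cls K v0 ⟨l.1 ++ l'.1, clw_append l.2 l'.2⟩ := rfl

theorem cls_inv (K : Cpx V) (v0 : V) (l : {l : List V // ClW K v0 l}) : (cls K v0 l)⁻¹ = cls K v0 ⟨l.1.reverse, clw_reverse l.2⟩ := rfl

theorem cls_one (K : Cpx V) (v0 : V) : (1 : PiOne K v0) = cls K v0 ⟨[v0], clw_one K v0⟩ := rfl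

instance (K : Cpx V) (v0 : V) : Group (PiOne K v0) := Group.ofLeftAxioms
  (by
    rintro ⟨a⟩ ⟨b⟩ ⟨c⟩
    show cls K v0 a * cls K v0 b * cls K v0 c = cls K v0 a * (cls K v0 b * cls K v0 c)
    rw [cls_mul, cls_mul, cls_mul, cls_mul]
    apply congrArg
    exact Subtype.ext (List.append_assoc _ _ _))
  (by
    rintro ⟨a⟩
    show cls K v0 _ * cls K v0 a = cls K v0 a
    rw [cls_mul]
    exact cls_eq (mv_one_append a.2))
  (by
    rintro ⟨a⟩
    show (cls K v0 a)⁻¹ * cls K v0 a = cls K v0 _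
    rw [cls_inv, cls_mul]
    exact cls_eq (mv_back a.1 v0 a.2.last a.2.chain))

end H32N
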