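import Pool.Agent.Lib.H32N.E2

set_option autoImplicit false

/-!
# H32N, chunk E3 (M): a closed walk with trivial holonomies is null-homotopic

`K.graph` is connected: choose for every `v` a walk `t v` from `v0` to `v` (a list with head `v0`, last element `v`, consecutive elements in a common face; from a
`SimpleGraph.Walk`, its `support`). Take `H = PiOne K v0` and `lab a b = cls ⟨t a ++ (t b).reverse, _⟩` if `{a, b} ∈ K.faces`, `1` otherwise.
* inverse: `(t a ++ (t b).reverse).reverse = t b ++ (t a).reverse`.
* triangles: `t a ++ (t b).reverse ++ t b ++ (t c).reverse ~ t a ++ [b] ++ (t c).reverse` (`mv_back`), and `.. a b c ..` to `.. a c ..` by `Mv.tri`.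
* for a walk `l` from `a` to `b`: `hol lab l = cls ⟨t a ++ l ++ (t b).reverse, _⟩`: induction on `l`; `l = [a]`: `t a ++ [a] ++ (t a).reverse ~ t a ++ (t a).reverse ~ [v0]`
  (`mv_back` for `(t a).reverse`); `l = a :: b' :: l'`: `t a ++ (t b').reverse ++ t b' ++ b' :: l' ++ .. ~ t a ++ [b'] ++ b' :: l' ++ ..` and `stut`.
* so for `l` closed at `v0`: `1 = cls (t v0) * cls l * (cls (t v0))⁻¹`, `cls l = 1`, `cls_exact`.

Auxiliary names start with `e3_`.
-/

open Finset

namespace H32N

open H32D

/-- A walk between two vertices. -/
structure e3_W {V : Type} [Fintype V] [DecidableEq V] (K : Cpx V) (a b : V) (l : List V) : Prop where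
  head : l.head? = some a
  last : l.getLast? = some b
  chain : l.IsChain (fun a b => ({a, b} : Finset V) ∈ K.faces)

theorem e3_append {V : Type} [Fintype V] [DecidableEq V] {K : Cpx V} {a b c d : V} {l l' : List V} (h : e3_W K a b l) (h' : e3_W K c d l')
    (hbc : ({b, c} : Finset V) ∈ K.faces) : e3_W K a d (l ++ l') := by
  refine ⟨?_, ?_, ?_⟩
  · cases l with
    | nil => have := h.head; simp at this
    | cons x l => exact h.head
  · rw [List.getLast?_append, h'.last]
    rfl
  · rw [List.isChain_append]
    refine ⟨h.chain, h'.chain, ?_⟩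
    intro x hx y hy
    have h1 := h.last
    have h2 := h'.head
    rw [h1] at hx
    rw [h2] at hy
    obtain rfl : b = x := Option.some.inj hx
    obtain rfl : c = y := Option.some.inj hy
    exact hbc

theorem e3_reverse {V : Type} [Fintype V] [DecidableEq V] {K : Cpx V} {a b : V} {l : List V} (h : e3_W K a b l) : e3_W K b a l.reverse := by
  refine ⟨?_, ?_, ?_⟩
  · rw [List.head?_reverse, h.last]
  · rw [List.getLast?_reverse, h.head]
  · rw [List.isChain_reverse]
    refine h.chain.imp ?_
    intro x y hxy
    show ({y, x} : Finset V) ∈ K.faces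
    rw [Finset.pair_comm]
    exact hxy

theorem e3_one {V : Type} [Fintype V] [DecidableEq V] (K : Cpx V) (a : V) : e3_W K a a [a] := ⟨rfl, rfl, List.isChain_singleton a⟩

theorem e3_diag {V : Type} [Fintype V] [DecidableEq V] (K : Cpx V) (a : V) : ({a, a} : Finset V) ∈ K.faces := by
  rw [Finset.pair_eq_singleton]
  exact K.vertex a

theorem e3_walk {V : Type} [Fintype V] [DecidableEq V] {K : Cpx V} {a b : V} (w : K.graph.Walk a b) : ∃ l, e3_W K a b l := by
  induction w with
  | nil => exact ⟨_, e3_one K _⟩
  | cons h _ ih =>
    obtain ⟨l, hl⟩ := ih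
    exact ⟨_, e3_append (e3_one K _) hl h.2⟩

theorem null_of_hol {V : Type} [Fintype V] [DecidableEq V] {K : Cpx V} (hK : K.graph.Connected) (v0 : V) (l : List V) (hl : ClW K v0 l)
    (h : ∀ (H : Type) (_ : Group H) (lab : V → V → H), Flat K lab → hol lab l = 1) : Relation.EqvGen (Mv K) l [v0] := by
  classical
  have hex : ∀ v, ∃ l, e3_W K v0 v l := fun v => by
    obtain ⟨w⟩ := hK.preconnected v0 v
    exact e3_walk w
  choose t ht using hex
  have toCl : ∀ l, e3_W K v0 v0 l → ClW K v0 l := fun l h => ⟨h.head, h.last, h.chain⟩
  have ofCl : ∀ l, ClW K v0 l → e3_W K v0 v0 l := fun l h => ⟨h.head, h.last, h.chain⟩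
  -- class of a loop through two vertices
  have hpair : ∀ a b, ({a, b} : Finset V) ∈ K.faces → ClW K v0 (t a ++ (t b).reverse) := fun a b hab =>
    toCl _ (e3_append (ht a) (e3_reverse (ht b)) hab)
  obtain ⟨lab, hlab⟩ : ∃ lab : V → V → PiOne K v0, lab = fun a b => if hab : ({a, b} : Finset V) ∈ K.faces then cls K v0 ⟨_, hpair a b hab⟩ else 1 :=
    ⟨_, rfl⟩
  have hlab1 : ∀ a b (hab : ({a, b} : Finset V) ∈ K.faces), lab a b = cls K v0 ⟨_, hpair a b hab⟩ := fun a b hab => by
    rw [hlab]; exact dif_pos hab
  -- middle cancellation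
  have hmid : ∀ (p q : List V) (b : V), Relation.EqvGen (Mv K) (p ++ (t b).reverse ++ (t b ++ q)) (p ++ [b] ++ q) := by
    intro p q b
    have h1 := mv_append (mv_back (t b) b (ht b).last (ht b).chain) p q
    simpa [List.append_assoc] using h1
  have hflat : Flat K lab := by
    constructor
    · intro a b
      by_cases hab : ({a, b} : Finset V) ∈ K.faces
      · have hba : ({b, a} : Finset V) ∈ K.faces := by rw [Finset.pair_comm]; exact hab
        rw [hlab1 a b hab, hlab1 b a hba, cls_inv]
        congr 1
        apply Subtype.ext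
        show t b ++ (t a).reverse = (t a ++ (t b).reverse).reverse
        rw [List.reverse_append, List.reverse_reverse]
      · have hba : ({b, a} : Finset V) ∉ K.faces := by rw [Finset.pair_comm]; exact hab
        have e1 : lab a b = 1 := by rw [hlab]; exact dif_neg hab
        have e2 : lab b a = 1 := by rw [hlab]; exact dif_neg hba
        rw [e1, e2, inv_one]
    · intro a b c _ _ _ hf
      have hsub : ∀ x y, x ∈ ({a, b, c} : Finset V) → y ∈ ({a, b, c} : Finset V) → ({x, y} : Finset V) ∈ K.faces := by
        intro x y hx hy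
        refine K.down _ hf _ ?_ (by simp)
        intro z hz
        simp only [Finset.mem_insert, Finset.mem_singleton] at hz
        rcases hz with rfl | rfl
        · exact hx
        · exact hy
      have hab := hsub a b (by simp) (by simp)
      have hbc := hsub b c (by simp) (by simp)
      have hac := hsub a c (by simp) (by simp)
      rw [hlab1 a b hab, hlab1 b c hbc, hlab1 a c hac, cls_mul]
      apply cls_eq
      show Relation.EqvGen (Mv K) (t a ++ (t b).reverse ++ (t b ++ (t c).reverse)) (t a ++ (t c).reverse)
      refine (hmid (t a) (t c).reverse b).trans _ _ _ ?_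
      obtain ⟨pa, hpa⟩ : ∃ pa, t a = pa ++ [a] := by
        have h1 := (ht a).last
        exact List.getLast?_eq_some_iff.1 h1
      obtain ⟨pc, hpc⟩ : ∃ pc, (t c).reverse = c :: pc := by
        have h1 := (e3_reverse (ht c)).head
        exact List.head?_eq_some_iff.1 h1
      rw [hpa, hpc]
      have h2 := Mv.tri (K := K) pa pc a b c hf
      simpa [List.append_assoc] using Relation.EqvGen.rel _ _ h2
  -- the holonomy along a walk
  have hwalk : ∀ (l : List V) (a b : V), (hw : e3_W K a b l) → ∃ hc : ClW K v0 (t a ++ l ++ (t b).reverse), hol lab l = cls K v0 ⟨_, hc⟩ := by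
    intro l
    induction l with
    | nil => intro a b hw; have := hw.head; simp at this
    | cons x l ih =>
      intro a b hw
      have hx : x = a := Option.some.inj hw.head
      subst hx
      have hc : ClW K v0 (t x ++ (x :: l) ++ (t b).reverse) :=
        toCl _ (e3_append (e3_append (ht x) hw (e3_diag K x)) (e3_reverse (ht b)) (e3_diag K b))
      refine ⟨hc, ?_⟩
      obtain ⟨px, hpx⟩ : ∃ px, t x = px ++ [x] := List.getLast?_eq_some_iff.1 (ht x).last
      cases l with
      | nil =>
        have hxb : x = b := by
          have := hw.last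
          simpa using this
        subst hxb
        show (1 : PiOne K v0) = _
        rw [cls_one]
        apply cls_eq
        show Relation.EqvGen (Mv K) [v0] (t x ++ [x] ++ (t x).reverse)
        apply Relation.EqvGen.symm
        have h1 : Relation.EqvGen (Mv K) (t x ++ [x] ++ (t x).reverse) (t x ++ (t x).reverse) := by
          have h2 := Mv.stut (K := K) px (t x).reverse x
          rw [hpx]
          rw [hpx] at h2
          simpa [List.append_assoc] using Relation.EqvGen.rel _ _ h2
        refine h1.trans _ _ _ ?_
        have h3 := mv_back (t x).reverse v0 (e3_reverse (ht x)).last (e3_reverse (ht x)).chain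
        rw [List.reverse_reverse] at h3
        exact h3
      | cons y l =>
        have hxy : ({x, y} : Finset V) ∈ K.faces := (List.isChain_cons_cons.1 hw.chain).1
        have hw' : e3_W K y b (y :: l) := ⟨rfl, by have := hw.last; simpa using this, (List.isChain_cons_cons.1 hw.chain).2⟩
        obtain ⟨hc', he⟩ := ih y b hw'
        show lb lab x y * hol lab (y :: l) = _
        rw [he]
        by_cases hxy' : x = y
        · subst hxy'
          unfold lb
          rw [if_pos rfl, one_mul]
          apply cls_eq
          show Relation.EqvGen (Mv K) (t x ++ (x :: l) ++ (t b).reverse) (t x ++ (x :: x :: l) ++ (t b).reverse)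
          apply Relation.EqvGen.symm
          have h2 := Mv.stut (K := K) (t x) (l ++ (t b).reverse) x
          simpa [List.append_assoc] using Relation.EqvGen.rel _ _ h2
        · unfold lb
          rw [if_neg hxy', hlab1 x y hxy, cls_mul]
          apply cls_eq
          show Relation.EqvGen (Mv K) (t x ++ (t y).reverse ++ (t y ++ (y :: l) ++ (t b).reverse)) (t x ++ (x :: y :: l) ++ (t b).reverse)
          have h1 := hmid (t x) ((y :: l) ++ (t b).reverse) y
          rw [← List.append_assoc (t y)] at h1
          refine h1.trans _ _ _ ?_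
          have h2 : Relation.EqvGen (Mv K) (t x ++ [y] ++ ((y :: l) ++ (t b).reverse)) (t x ++ (y :: l) ++ (t b).reverse) := by
            have h3 := Mv.stut (K := K) (t x) (l ++ (t b).reverse) y
            simpa [List.append_assoc] using Relation.EqvGen.rel _ _ h3
          refine h2.trans _ _ _ ?_
          apply Relation.EqvGen.symm
          have h4 := Mv.stut (K := K) px ((y :: l) ++ (t b).reverse) x
          rw [hpx]
          simpa [List.append_assoc] using Relation.EqvGen.rel _ _ h4
  obtain ⟨hc, he⟩ := hwalk l v0 v0 (ofCl l hl)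
  have h1 := h (PiOne K v0) inferInstance lab hflat
  rw [he] at h1
  have h2 : cls K v0 ⟨t v0, toCl _ (ht v0)⟩ * cls K v0 ⟨l, hl⟩ * (cls K v0 ⟨t v0, toCl _ (ht v0)⟩)⁻¹ = 1 := by
    rw [cls_mul, cls_inv, cls_mul]
    exact h1
  have h3 : cls K v0 ⟨l, hl⟩ = 1 := by
    rw [mul_inv_eq_one] at h2
    exact mul_eq_left.1 h2
  rw [cls_one] at h3
  exact cls_exact h3

end H32N
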