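import Pool.Agent.Lib.H32N.NDefs

set_option autoImplicit false

/-!
# H32N, chunk E4 (M): homotopies as sequences of functions

* `sqb_stut`: induction on `l2` for all `l1`, `a`. `l2 = []`: `a = v0` (last element) and the two functions are equal. `l2 = b :: l2'`: one step from `l1 ++ a :: a :: b :: l2'` to
  `l1 ++ a :: b :: b :: l2'` (only the entry number `l1.length + 1` changes: the squares are `{a, a, a, b}`, `{a, b, b, b}` and otherwise two consecutive vertices, or
  `v0` only), then the induction hypothesis for `l1 ++ [a]`, `b`.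
* `sqb_tri`: one step to `l1 ++ a :: c :: c :: l2` (squares `{a, b, a, c}`, `{b, c, c, c}`), then `sqb_stut`.
* `mv_clw`: elementary homotopies preserve `ClW`, in both directions.
* `chain_of_equiv`: induction on `EqvGen`; `SqB` is symmetric (`{f i, f (i+1), f' i, f' (i+1)}` as a set) and monotone in `N`.
* `chain_of_str`: induction on `ReflTransGen`, head first; the lengths decrease.

Auxiliary names start with `e4_`.
-/

open Finset

namespace H32N

open H32D

section

variable {V : Type} [Fintype V] [DecidableEq V] {K : Cpx V} {v0 : V}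

theorem e4_split {R : V → V → Prop} (l1 : List V) (a : V) (m : List V) : (l1 ++ a :: m).IsChain R ↔ (l1 ++ [a]).IsChain R ∧ (a :: m).IsChain R := by
  induction l1 with
  | nil => simp
  | cons x l1 ih =>
    cases l1 with
    | nil =>
      simp only [List.nil_append, List.cons_append, List.isChain_cons_cons]
      simp
    | cons y l1 =>
      simp only [List.cons_append, List.isChain_cons_cons] at ih ⊢
      rw [ih, and_assoc]

theorem e4_head (l1 : List V) (a : V) (m m' : List V) : (l1 ++ a :: m).head? = (l1 ++ a :: m').head? := by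
  cases l1 <;> rfl

theorem e4_sub {s t : Finset V} (h : t ∈ K.faces) (hs : s ⊆ t) (hne : s.Nonempty) : s ∈ K.faces := K.down t h s hs hne

theorem mv_clw' {l l' : List V} (h : Mv K l l') : ClW K v0 l ↔ ClW K v0 l' := by
  cases h with
  | stut l1 l2 a =>
    have haa : ({a, a} : Finset V) ∈ K.faces := by rw [Finset.pair_eq_singleton]; exact K.vertex a
    constructor
    · intro h
      refine ⟨by rw [e4_head l1 a l2 (a :: l2)]; exact h.head, by simpa using h.last, ?_⟩
      rw [e4_split]
      have := h.chain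
      rw [e4_split, List.isChain_cons_cons] at this
      exact ⟨this.1, this.2.2⟩
    · intro h
      refine ⟨by rw [e4_head l1 a (a :: l2) l2]; exact h.head, by simpa using h.last, ?_⟩
      rw [e4_split, List.isChain_cons_cons]
      have := h.chain
      rw [e4_split] at this
      exact ⟨this.1, haa, this.2⟩
  | tri l1 l2 a b c hf =>
    have hab : ({a, b} : Finset V) ∈ K.faces := e4_sub hf (by intro x; simp only [Finset.mem_insert, Finset.mem_singleton]; tauto) (by simp)
    have hbc : ({b, c} : Finset V) ∈ K.faces := e4_sub hf (by intro x; simp only [Finset.mem_insert, Finset.mem_singleton]; tauto) (by simp)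
    have hac : ({a, c} : Finset V) ∈ K.faces := e4_sub hf (by intro x; simp only [Finset.mem_insert, Finset.mem_singleton]; tauto) (by simp)
    constructor
    · intro h
      refine ⟨by rw [e4_head l1 a (c :: l2) (b :: c :: l2)]; exact h.head, by simpa using h.last, ?_⟩
      have := h.chain
      rw [e4_split, List.isChain_cons_cons, List.isChain_cons_cons] at this
      rw [e4_split, List.isChain_cons_cons]
      exact ⟨this.1, hac, this.2.2.2⟩
    · intro h
      refine ⟨by rw [e4_head l1 a (b :: c :: l2) (c :: l2)]; exact h.head, by simpa using h.last, ?_⟩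
      have := h.chain
      rw [e4_split, List.isChain_cons_cons] at this
      rw [e4_split, List.isChain_cons_cons, List.isChain_cons_cons]
      exact ⟨this.1, hab, hbc, this.2.2⟩

theorem e4_fl_zero {l : List V} (h : ClW K v0 l) : fl v0 l 0 = v0 := by
  obtain ⟨r, hr⟩ := List.head?_eq_some_iff.1 h.head
  rw [hr]
  rfl

theorem e4_fl_tail {l : List V} (h : l.getLast? = some v0) (i : ℕ) (hi : l.length ≤ i + 1) : fl v0 l i = v0 := by
  obtain ⟨d, hd⟩ := List.getLast?_eq_some_iff.1 h
  unfold fl
  rw [hd] at hi ⊢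
  have hi' : d.length ≤ i := by simpa using hi
  rw [List.getD_append_right _ _ _ _ hi']
  cases i - d.length <;> simp

theorem e4_fl_concat (l : List V) : fl v0 (l ++ [v0]) = fl v0 l := by
  funext i
  unfold fl
  by_cases hi : i < l.length
  · rw [List.getD_append _ _ _ _ hi]
  · rw [List.getD_append_right _ _ _ _ (by omega), List.getD_eq_default l _ (by omega)]
    cases i - l.length <;> simp

/-- The squares between two sequences. -/
def e4_P (K : Cpx V) (f f' : ℕ → V) : Prop := ∀ i, ({f i, f (i + 1), f' i, f' (i + 1)} : Finset V) ∈ K.faces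

theorem e4_cons (x x' y y' : V) (l l' : List V) (h : ({x, y, x', y'} : Finset V) ∈ K.faces) (hP : e4_P K (fl v0 (y :: l)) (fl v0 (y' :: l'))) :
    e4_P K (fl v0 (x :: y :: l)) (fl v0 (x' :: y' :: l')) := by
  intro i
  cases i with
  | zero => exact h
  | succ i => exact hP i

theorem e4_self (l : List V) (hl : l.getLast? = some v0) (hc : l.IsChain (fun a b => ({a, b} : Finset V) ∈ K.faces)) :
    e4_P K (fl v0 l) (fl v0 l) := by
  induction l with
  | nil => simp at hl
  | cons x l ih =>
    cases l with
    | nil =>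
      have hx : x = v0 := by simpa using hl
      subst hx
      have e : ∀ i, fl x [x] i = x := by
        intro i
        unfold fl
        cases i <;> simp
      intro i
      rw [e, e]
      simpa using K.vertex x
    | cons y l =>
      obtain ⟨h1, h2⟩ := List.isChain_cons_cons.1 hc
      refine e4_cons x x y y l l ?_ (ih (by simpa using hl) h2)
      exact e4_sub h1 (by intro z; simp only [Finset.mem_insert, Finset.mem_singleton]; tauto) (by simp)

theorem e4_prefix (l1 : List V) (a : V) (m m' : List V) (hc : (l1 ++ [a]).IsChain (fun a b => ({a, b} : Finset V) ∈ K.faces))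
    (hP : e4_P K (fl v0 (a :: m)) (fl v0 (a :: m'))) : e4_P K (fl v0 (l1 ++ a :: m)) (fl v0 (l1 ++ a :: m')) := by
  induction l1 with
  | nil => exact hP
  | cons x l1 ih =>
    cases l1 with
    | nil =>
      have h1 : ({x, a} : Finset V) ∈ K.faces := (List.isChain_cons_cons.1 hc).1
      exact e4_cons x x a a m m' (e4_sub h1 (by intro z; simp only [Finset.mem_insert, Finset.mem_singleton]; tauto) (by simp)) hP
    | cons y l1 =>
      obtain ⟨h1, h2⟩ := List.isChain_cons_cons.1 hc
      exact e4_cons x x y y (l1 ++ a :: m) (l1 ++ a :: m') (e4_sub h1 (by intro z; simp only [Finset.mem_insert, Finset.mem_singleton]; tauto) (by simp))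
        (ih h2)

theorem e4_step (l l' : List V) (h : ClW K v0 l) (h' : ClW K v0 l') (N : ℕ) (hN : l.length ≤ N + 1) (hN' : l'.length ≤ N + 1)
    (hP : e4_P K (fl v0 l) (fl v0 l')) : SqB K v0 N (fl v0 l) (fl v0 l') :=
  ⟨⟨e4_fl_zero h, e4_fl_zero h'⟩, fun i hi => ⟨e4_fl_tail h.last i (by omega), e4_fl_tail h'.last i (by omega)⟩, hP⟩

end

theorem sqb_stut {V : Type} [Fintype V] [DecidableEq V] {K : Cpx V} {v0 : V} (l1 l2 : List V) (a : V) (h : ClW K v0 (l1 ++ a :: a :: l2)) (N : ℕ)
    (hN : (l1 ++ a :: a :: l2).length ≤ N + 1) : Relation.ReflTransGen (SqB K v0 N) (fl v0 (l1 ++ a :: a :: l2)) (fl v0 (l1 ++ a :: l2)) := by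
  induction l2 generalizing l1 a with
  | nil =>
    have ha : a = v0 := by
      have := h.last
      simpa using this
    subst ha
    have e : l1 ++ [a, a] = (l1 ++ [a]) ++ [a] := by simp
    rw [e, e4_fl_concat]
  | cons b l2 ih =>
    have h1 : ClW K v0 (l1 ++ a :: b :: l2) := (mv_clw' (Mv.stut l1 (b :: l2) a)).1 h
    have h2 : ClW K v0 (l1 ++ a :: b :: b :: l2) := by
      have := (mv_clw' (K := K) (v0 := v0) (Mv.stut (l1 ++ [a]) l2 b)).2
      simp only [List.append_assoc, List.cons_append, List.nil_append] at this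
      exact this h1
    have hch := h.chain
    rw [e4_split, List.isChain_cons_cons] at hch
    obtain ⟨hc1, -, hc2⟩ := hch
    obtain ⟨hab, hc3⟩ := List.isChain_cons_cons.1 hc2
    have hlast : (b :: l2).getLast? = some v0 := by
      have := h.last
      simpa using this
    have hP : e4_P K (fl v0 (l1 ++ a :: a :: b :: l2)) (fl v0 (l1 ++ a :: b :: b :: l2)) := by
      refine e4_prefix l1 a _ _ hc1 ?_
      refine e4_cons a a a b (b :: l2) (b :: l2) ?_ ?_
      · exact e4_sub hab (by intro z; simp only [Finset.mem_insert, Finset.mem_singleton]; tauto) (by simp)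
      · refine e4_cons a b b b l2 l2 ?_ (e4_self _ hlast hc3)
        exact e4_sub hab (by intro z; simp only [Finset.mem_insert, Finset.mem_singleton]; tauto) (by simp)
    have hlen : (l1 ++ a :: b :: b :: l2).length ≤ N + 1 := by simpa using hN
    refine Relation.ReflTransGen.head (e4_step _ _ h h2 N hN hlen hP) ?_
    have e1 : l1 ++ a :: b :: b :: l2 = (l1 ++ [a]) ++ b :: b :: l2 := by simp
    have e2 : l1 ++ a :: b :: l2 = (l1 ++ [a]) ++ b :: l2 := by simp
    rw [e1] at h2 hlen
    rw [e1, e2]
    exact ih (l1 ++ [a]) b h2 hlen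

theorem sqb_tri {V : Type} [Fintype V] [DecidableEq V] {K : Cpx V} {v0 : V} (l1 l2 : List V) (a b c : V) (hf : ({a, b, c} : Finset V) ∈ K.faces)
    (h : ClW K v0 (l1 ++ a :: b :: c :: l2)) (N : ℕ) (hN : (l1 ++ a :: b :: c :: l2).length ≤ N + 1) :
    Relation.ReflTransGen (SqB K v0 N) (fl v0 (l1 ++ a :: b :: c :: l2)) (fl v0 (l1 ++ a :: c :: l2)) := by
  have h1 : ClW K v0 (l1 ++ a :: c :: l2) := (mv_clw' (Mv.tri l1 l2 a b c hf)).1 h
  have h2 : ClW K v0 (l1 ++ a :: c :: c :: l2) := by
    have := (mv_clw' (K := K) (v0 := v0) (Mv.stut (l1 ++ [a]) l2 c)).2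
    simp only [List.append_assoc, List.cons_append, List.nil_append] at this
    exact this h1
  have hch := h.chain
  rw [e4_split, List.isChain_cons_cons, List.isChain_cons_cons] at hch
  obtain ⟨hc1, -, -, hc2⟩ := hch
  have hlast : (c :: l2).getLast? = some v0 := by
    have := h.last
    simpa using this
  have hP : e4_P K (fl v0 (l1 ++ a :: b :: c :: l2)) (fl v0 (l1 ++ a :: c :: c :: l2)) := by
    refine e4_prefix l1 a _ _ hc1 ?_
    refine e4_cons a a b c (c :: l2) (c :: l2) ?_ ?_
    · exact e4_sub hf (by intro z; simp only [Finset.mem_insert, Finset.mem_singleton]; tauto) (by simp)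
    · refine e4_cons b c c c l2 l2 ?_ (e4_self _ hlast hc2)
      exact e4_sub hf (by intro z; simp only [Finset.mem_insert, Finset.mem_singleton]; tauto) (by simp)
  have hlen : (l1 ++ a :: c :: c :: l2).length ≤ N + 1 := by simpa using hN
  refine Relation.ReflTransGen.head (e4_step _ _ h h2 N hN hlen hP) ?_
  have e1 : l1 ++ a :: c :: c :: l2 = (l1 ++ [a]) ++ c :: c :: l2 := by simp
  have e2 : l1 ++ a :: c :: l2 = (l1 ++ [a]) ++ c :: l2 := by simp
  rw [e1] at h2 hlen
  rw [e1, e2]
  exact sqb_stut (l1 ++ [a]) l2 c h2 N hlen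

theorem mv_clw {V : Type} [Fintype V] [DecidableEq V] {K : Cpx V} {v0 : V} {l l' : List V} (h : Mv K l l') : ClW K v0 l ↔ ClW K v0 l' :=
  mv_clw' h

theorem e4_symm {V : Type} [Fintype V] [DecidableEq V] {K : Cpx V} {v0 : V} {N : ℕ} (f f' : ℕ → V) (h : SqB K v0 N f f') :
    SqB K v0 N f' f := by
  refine ⟨⟨h.zero.2, h.zero.1⟩, fun i hi => ⟨(h.tail i hi).2, (h.tail i hi).1⟩, fun i => ?_⟩
  have := h.sq i
  have e : ({f' i, f' (i + 1), f i, f (i + 1)} : Finset V) = {f i, f (i + 1), f' i, f' (i + 1)} := by
    ext x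
    simp only [Finset.mem_insert, Finset.mem_singleton]
    tauto
  rw [e]
  exact this

theorem e4_rev {A : Type} {R : A → A → Prop} (hs : ∀ a b, R a b → R b a) {a b : A} (h : Relation.ReflTransGen R a b) :
    Relation.ReflTransGen R b a := by
  induction h with
  | refl => exact Relation.ReflTransGen.refl
  | tail _ h ih => exact Relation.ReflTransGen.head (hs _ _ h) ih

theorem chain_of_equiv {V : Type} [Fintype V] [DecidableEq V] {K : Cpx V} {v0 : V} {l l' : List V} (h : Relation.EqvGen (Mv K) l l')
    (hl : ClW K v0 l) : ∃ N0 : ℕ, ∀ N, N0 ≤ N → Relation.ReflTransGen (SqB K v0 N) (fl v0 l) (fl v0 l') := by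
  have key : (ClW K v0 l ↔ ClW K v0 l') ∧ (ClW K v0 l → ∃ N0 : ℕ, ∀ N, N0 ≤ N → Relation.ReflTransGen (SqB K v0 N) (fl v0 l) (fl v0 l')) := by
    clear hl
    induction h with
    | rel x y h =>
      refine ⟨mv_clw h, fun hx => ⟨x.length, fun N hN => ?_⟩⟩
      cases h with
      | stut l1 l2 a => exact sqb_stut l1 l2 a hx N (by omega)
      | tri l1 l2 a b c hf => exact sqb_tri l1 l2 a b c hf hx N (by omega)
    | refl x => exact ⟨Iff.rfl, fun _ => ⟨0, fun _ _ => Relation.ReflTransGen.refl⟩⟩
    | symm x y _ ih =>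
      refine ⟨ih.1.symm, fun hy => ?_⟩
      obtain ⟨N0, hN0⟩ := ih.2 (ih.1.2 hy)
      exact ⟨N0, fun N hN => e4_rev e4_symm (hN0 N hN)⟩
    | trans x y z _ _ ih1 ih2 =>
      refine ⟨ih1.1.trans ih2.1, fun hx => ?_⟩
      obtain ⟨N1, h1⟩ := ih1.2 hx
      obtain ⟨N2, h2⟩ := ih2.2 (ih1.1.1 hx)
      exact ⟨max N1 N2, fun N hN => (h1 N (le_trans (le_max_left _ _) hN)).trans (h2 N (le_trans (le_max_right _ _) hN))⟩
  exact key.2 hl

theorem chain_of_str {V : Type} [Fintype V] [DecidableEq V] {K : Cpx V} {v0 : V} {l l' : List V} (h : Relation.ReflTransGen StR l l')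
    (hl : ClW K v0 l) (N : ℕ) (hN : l.length ≤ N + 1) : Relation.ReflTransGen (SqB K v0 N) (fl v0 l) (fl v0 l') := by
  induction h using Relation.ReflTransGen.head_induction_on with
  | refl => exact Relation.ReflTransGen.refl
  | head h1 _ ih =>
    obtain ⟨l1, l2, a⟩ := h1
    refine (sqb_stut l1 l2 a hl N hN).trans (ih ((mv_clw (Mv.stut l1 l2 a)).1 hl) ?_)
    simp only [List.length_append, List.length_cons] at hN ⊢
    omega

end H32N
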