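import Pool.Agent.Lib.H32N.NDefs

set_option autoImplicit false

/-!
# H32N, chunk E5 (S/M): the grid of a homotopy

Induction on `ReflTransGen`, head first (`Relation.ReflTransGen.head_induction_on`): `m = 0`, `D i j = v0` for the constant sequence; step `f → f1`, `D1` for `f1`:
`D i 0 = f i`, `D i (j + 1) = D1 i j`, `m = m1 + 1`. The squares in row `0` are the squares of the step.

Auxiliary names start with `e5_`.
-/

open Finset

namespace H32N

open H32D

theorem grid_of_chain {V : Type} [Fintype V] [DecidableEq V] {K : Cpx V} {v0 : V} {N : ℕ} {f : ℕ → V}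
    (h : Relation.ReflTransGen (SqB K v0 N) f (fun _ => v0)) :
    ∃ (m : ℕ) (D : ℕ → ℕ → V), (∀ i, D i 0 = f i) ∧ (∀ j, D 0 j = v0) ∧ (∀ i j, N ≤ i → D i j = v0) ∧ (∀ i j, m ≤ j → D i j = v0) ∧
      ∀ i j, ({D i j, D (i + 1) j, D i (j + 1), D (i + 1) (j + 1)} : Finset V) ∈ K.faces := by
  induction h using Relation.ReflTransGen.head_induction_on with
  | refl =>
    refine ⟨0, fun _ _ => v0, fun _ => rfl, fun _ => rfl, fun _ _ _ => rfl, fun _ _ _ => rfl, fun _ _ => ?_⟩
    simpa using K.vertex v0
  | head h1 h2 ih =>
    rename_i f f1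
    obtain ⟨m, D, hD0, hDl, hDr, hDt, hDs⟩ := ih
    refine ⟨m + 1, fun i j => match j with | 0 => f i | j + 1 => D i j, fun _ => rfl, ?_, ?_, ?_, ?_⟩
    · intro j
      cases j with
      | zero => exact h1.zero.1
      | succ j => exact hDl j
    · intro i j hi
      cases j with
      | zero => exact (h1.tail i hi).1
      | succ j => exact hDr i j hi
    · intro i j hj
      cases j with
      | zero => omega
      | succ j => exact hDt i j (by omega)
    · intro i j
      cases j with
      | zero =>
        show ({f i, f (i + 1), D i 0, D (i + 1) 0} : Finset V) ∈ K.faces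
        rw [hD0, hD0]
        exact h1.sq i
      | succ j => exact hDs i j

end H32N
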