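import Pool.Agent.Lib.H32N.NDefs

set_option autoImplicit false

/-!
# H32N, chunk E6 (M/L): the bottom row

For a list `cs` of closed walks at `v0` let `J cs = cs.foldr (fun c acc => c.dropLast ++ acc) [v0]` (each closed walk is `c.dropLast ++ [v0]`). By induction on `cs`: `J cs` is
a closed walk at `v0`, and `hol lab (J cs) = (cs.map (hol lab)).prod` (the last step of `c` goes to `v0`, the head of the rest).
The side `s` (`s < 4 g`): `c_s = γ (gen s)` if `s % 4 < 2`, `(γ (gen s)).reverse` otherwise. `p = J (c_0, .., c_(4g-1))`. `hol lab p = comm g (fun k => hol lab (γ k))` (induction on `g`, four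
sides at a time; `gen (4 i) = gen (4 i + 2) = 2 i`, `gen (4 i + 1) = gen (4 i + 3) = 2 i + 1`; the holonomy of the reverse: prove it here by induction on the list).
`b = J` of the padded walks `(List.range (l + 1)).map (fun i => fl v0 (γ (gen s)) i)`, resp. `.. (l - i)`. Padding: `fl v0 (γ k) i = v0` for `i ≥ (γ k).length - 1`, so the padded walk is
`γ k ++ replicate j v0`, resp. `replicate j v0 ++ (γ k).reverse`. Its `dropLast` has length `l`, so `b.length = 4 g l + 1` and
`fl v0 b (s * l + i)` is the entry number `i` of the padded side `s` for `i < l`, and for `i = l` it is `v0` (first entry of the next side, or the final `v0`).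
`StR`: for `c` a closed walk at `v0` and any list `rest`: `(c ++ replicate j v0).dropLast ++ v0 :: rest` reduces to `c.dropLast ++ v0 :: rest`, and
`(replicate j v0 ++ c).dropLast ++ v0 :: rest` too (`c.dropLast ++ v0 :: rest` starts with `v0`); `StR` is compatible with adding a list on the left; `J cs` starts with `v0`.

Auxiliary names start with `e6_`.
-/

open Finset

namespace H32N

open H32D

/-- Concatenation of closed walks, without repetition of the base point. -/
def e6_J {V : Type} (v0 : V) (cs : List (List V)) : List V := cs.foldr (fun c acc => c.dropLast ++ acc) [v0]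

theorem e6_J_cons {V : Type} (v0 : V) (c : List V) (cs : List (List V)) : e6_J v0 (c :: cs) = c.dropLast ++ e6_J v0 cs := rfl

theorem e6_drop {V : Type} [Fintype V] [DecidableEq V] {K : Cpx V} {v0 : V} {c : List V} (h : ClW K v0 c) :
    ∃ d : List V, c = d ++ [v0] ∧ c.dropLast = d ∧ (d = [] ∨ ∃ d', d = v0 :: d') := by
  obtain ⟨d, hd⟩ := List.getLast?_eq_some_iff.1 h.last
  refine ⟨d, hd, by rw [hd, List.dropLast_concat], ?_⟩
  cases d with
  | nil => exact Or.inl rfl
  | cons x d' =>
    right
    have h1 := h.head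
    rw [hd] at h1
    have h2 : x = v0 := Option.some.inj h1
    exact ⟨d', by rw [h2]⟩

theorem e6_diag {V : Type} [Fintype V] [DecidableEq V] (K : Cpx V) (a : V) : ({a, a} : Finset V) ∈ K.faces := by
  rw [Finset.pair_eq_singleton]
  exact K.vertex a

theorem e6_J_spec {V : Type} [Fintype V] [DecidableEq V] {K : Cpx V} {v0 : V} (cs : List (List V)) (h : ∀ c ∈ cs, ClW K v0 c) :
    ClW K v0 (e6_J v0 cs) ∧ ∃ r, e6_J v0 cs = v0 :: r := by
  induction cs with
  | nil => exact ⟨⟨rfl, rfl, List.isChain_singleton _⟩, [], rfl⟩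
  | cons c cs ih =>
    obtain ⟨h1, r, hr⟩ := ih (fun c hc => h c (List.mem_cons_of_mem _ hc))
    have hc := h c (by simp)
    obtain ⟨d, hd, hd', hd''⟩ := e6_drop hc
    rw [e6_J_cons, hd', hr]
    have hcd := hc.chain
    rw [hd, List.isChain_append] at hcd
    have hlast : (d ++ v0 :: r).getLast? = some v0 := by
      rw [List.getLast?_append, ← hr, h1.last]
      rfl
    have hch : (d ++ v0 :: r).IsChain (fun a b => ({a, b} : Finset V) ∈ K.faces) := by
      rw [List.isChain_append]
      refine ⟨hcd.1, by rw [← hr]; exact h1.chain, ?_⟩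
      intro x hx y hy
      exact hcd.2.2 x hx y (by simpa using hy)
    rcases hd'' with rfl | ⟨d', rfl⟩
    · exact ⟨⟨rfl, hlast, hch⟩, r, rfl⟩
    · exact ⟨⟨rfl, hlast, hch⟩, d' ++ v0 :: r, rfl⟩

theorem e6_hol_join {V H : Type} [DecidableEq V] [Group H] (lab : V → V → H) (d : List V) (a : V) (r : List V) :
    hol lab (d ++ a :: r) = hol lab (d ++ [a]) * hol lab (a :: r) := by
  induction d with
  | nil => show _ = 1 * _; rw [one_mul]; rfl
  | cons x d ih =>
    cases d with
    | nil =>
      show lb lab x a * hol lab (a :: r) = lb lab x a * 1 * hol lab (a :: r)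
      rw [mul_one]
    | cons y d =>
      show lb lab x y * hol lab ((y :: d) ++ a :: r) = lb lab x y * hol lab ((y :: d) ++ [a]) * hol lab (a :: r)
      rw [ih, mul_assoc]

theorem e6_hol_J {V H : Type} [Fintype V] [DecidableEq V] [Group H] (K : Cpx V) (lab : V → V → H) (v0 : V) (cs : List (List V)) (h : ∀ c ∈ cs, ClW K v0 c) :
    hol lab (e6_J v0 cs) = (cs.map (hol lab)).prod := by
  induction cs with
  | nil => rfl
  | cons c cs ih =>
    have hcs : ∀ c ∈ cs, ClW K v0 c := fun c hc => h c (List.mem_cons_of_mem _ hc)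
    obtain ⟨-, r, hr⟩ := e6_J_spec cs hcs
    obtain ⟨d, hd, hd', -⟩ := e6_drop (h c (by simp))
    rw [e6_J_cons, hd', hr, e6_hol_join, ← hr, ih hcs, ← hd, List.map_cons, List.prod_cons]

theorem e6_hol_reverse {V H : Type} [DecidableEq V] [Group H] (lab : V → V → H) (hinv : ∀ a b, lab b a = (lab a b)⁻¹) (l : List V) :
    hol lab l.reverse = (hol lab l)⁻¹ := by
  induction l with
  | nil => show (1 : H) = 1⁻¹; rw [inv_one]
  | cons x l ih =>
    cases l with
    | nil => show (1 : H) = 1⁻¹; rw [inv_one]
    | cons y l =>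
      rw [List.reverse_cons, List.reverse_cons, List.append_assoc]
      show hol lab (l.reverse ++ y :: [x]) = (lb lab x y * hol lab (y :: l))⁻¹
      rw [List.reverse_cons] at ih
      rw [e6_hol_join, ih, mul_inv_rev]
      congr 1
      show lb lab y x * 1 = _
      rw [mul_one]
      unfold lb
      by_cases hxy : x = y
      · rw [if_pos hxy, if_pos hxy.symm, inv_one]
      · rw [if_neg hxy, if_neg (Ne.symm hxy), hinv]

/-- The side `s`. -/
def e6_sd {V : Type} (γ : ℕ → List V) (s : ℕ) : List V := if s % 4 < 2 then γ (gen s) else (γ (gen s)).reverse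

/-- The padded side `s`. -/
def e6_pd {V : Type} (v0 : V) (γ : ℕ → List V) (l : ℕ) (s : ℕ) : List V :=
  (List.range (l + 1)).map (fun i => if s % 4 < 2 then fl v0 (γ (gen s)) i else fl v0 (γ (gen s)) (l - i))

theorem e6_pad {V : Type} (v0 : V) (c : List V) (l : ℕ) (h : c.length ≤ l + 1) :
    (List.range (l + 1)).map (fl v0 c) = c ++ List.replicate (l + 1 - c.length) v0 := by
  apply List.ext_getElem
  · simp; omega
  · intro i h1 h2
    simp only [List.getElem_map, List.getElem_range]
    unfold fl
    by_cases hi : i < c.length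
    · rw [List.getElem_append_left hi, List.getD_eq_getElem _ _ hi]
    · rw [List.getElem_append_right (by omega), List.getElem_replicate, List.getD_eq_default _ _ (by omega)]

theorem e6_rev {V : Type} (f : ℕ → V) (l : ℕ) : (List.range (l + 1)).map (fun i => f (l - i)) = ((List.range (l + 1)).map f).reverse := by
  apply List.ext_getElem
  · simp
  · intro i h1 h2
    simp only [List.getElem_map, List.getElem_range, List.getElem_reverse, List.length_map, List.length_range]
    congr 1

theorem e6_clw_rev {V : Type} [Fintype V] [DecidableEq V] {K : Cpx V} {v0 : V} {l : List V} (h : ClW K v0 l) : ClW K v0 l.reverse := by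
  refine ⟨by rw [List.head?_reverse, h.last], by rw [List.getLast?_reverse, h.head], ?_⟩
  rw [List.isChain_reverse]
  refine h.chain.imp ?_
  intro x y hxy
  show ({y, x} : Finset V) ∈ K.faces
  rw [Finset.pair_comm]
  exact hxy

theorem e6_clw_pad {V : Type} [Fintype V] [DecidableEq V] {K : Cpx V} {v0 : V} {l : List V} (h : ClW K v0 l) (j : ℕ) :
    ClW K v0 (l ++ List.replicate j v0) := by
  induction j with
  | zero => simpa using h
  | succ j ih =>
    rw [List.replicate_succ', ← List.append_assoc]
    refine ⟨?_, by simp, ?_⟩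
    · have := ih.head
      rw [List.head?_append, this]
      rfl
    · rw [List.isChain_append]
      refine ⟨ih.chain, List.isChain_singleton _, ?_⟩
      intro x hx y hy
      rw [ih.last] at hx
      obtain rfl : v0 = x := Option.some.inj hx
      obtain rfl : v0 = y := Option.some.inj hy
      exact e6_diag K _

/-- The padded side and the side. -/
theorem e6_pd_eq {V : Type} (v0 : V) (γ : ℕ → List V) (l s : ℕ) (h : (γ (gen s)).length ≤ l + 1) :
    (∃ j, e6_pd v0 γ l s = e6_sd γ s ++ List.replicate j v0) ∨ ∃ j, e6_pd v0 γ l s = List.replicate j v0 ++ e6_sd γ s := by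
  unfold e6_pd e6_sd
  by_cases h4 : s % 4 < 2
  · left
    refine ⟨l + 1 - (γ (gen s)).length, ?_⟩
    simp only [if_pos h4]
    exact e6_pad v0 _ l h
  · right
    refine ⟨l + 1 - (γ (gen s)).length, ?_⟩
    simp only [if_neg h4]
    rw [e6_rev, e6_pad v0 _ l h, List.reverse_append, List.reverse_replicate]

theorem e6_sd_clw {V : Type} [Fintype V] [DecidableEq V] {K : Cpx V} {v0 : V} {γ : ℕ → List V} (hγ : ∀ k, ClW K v0 (γ k)) (s : ℕ) :
    ClW K v0 (e6_sd γ s) := by
  unfold e6_sd
  split_ifs
  · exact hγ _
  · exact e6_clw_rev (hγ _)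

theorem e6_pd_clw {V : Type} [Fintype V] [DecidableEq V] {K : Cpx V} {v0 : V} {γ : ℕ → List V} (hγ : ∀ k, ClW K v0 (γ k)) (l s : ℕ)
    (h : (γ (gen s)).length ≤ l + 1) : ClW K v0 (e6_pd v0 γ l s) := by
  rcases e6_pd_eq v0 γ l s h with ⟨j, hj⟩ | ⟨j, hj⟩
  · rw [hj]; exact e6_clw_pad (e6_sd_clw hγ s) j
  · rw [hj]
    have := e6_clw_rev (e6_clw_pad (e6_clw_rev (e6_sd_clw hγ s)) j)
    rw [List.reverse_append, List.reverse_replicate, List.reverse_reverse] at this
    exact this

theorem e6_str_left {V : Type} {l l' : List V} (h : Relation.ReflTransGen StR l l') (p : List V) :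
    Relation.ReflTransGen StR (p ++ l) (p ++ l') := by
  induction h with
  | refl => exact Relation.ReflTransGen.refl
  | tail _ h2 ih =>
    refine ih.tail ?_
    obtain ⟨l1, l2, a⟩ := h2
    rw [← List.append_assoc, ← List.append_assoc]
    exact StR.mk _ _ _

theorem e6_str_rep {V : Type} (v0 : V) (d r : List V) (j : ℕ) :
    Relation.ReflTransGen StR (d ++ List.replicate j v0 ++ v0 :: r) (d ++ v0 :: r) := by
  induction j with
  | zero => simp; exact Relation.ReflTransGen.refl
  | succ j ih =>
    refine Relation.ReflTransGen.head ?_ ih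
    rw [List.replicate_succ', ← List.append_assoc, List.append_assoc _ [v0] _]
    exact StR.mk (d ++ List.replicate j v0) r v0

theorem e6_str_side {V : Type} [Fintype V] [DecidableEq V] {K : Cpx V} {v0 : V} {c c' : List V} (h : ClW K v0 c)
    (h' : (∃ j, c' = c ++ List.replicate j v0) ∨ ∃ j, c' = List.replicate j v0 ++ c) (r : List V) :
    Relation.ReflTransGen StR (c'.dropLast ++ v0 :: r) (c.dropLast ++ v0 :: r) := by
  obtain ⟨d, hd, hd', hd''⟩ := e6_drop h
  rw [hd']
  rcases h' with ⟨j, rfl⟩ | ⟨j, rfl⟩
  · have e : (c ++ List.replicate j v0).dropLast = d ++ List.replicate j v0 := by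
      rw [hd, List.append_assoc]
      have : [v0] ++ List.replicate j v0 = List.replicate j v0 ++ [v0] := by
        rw [← List.replicate_succ', List.replicate_succ]; rfl
      rw [this, ← List.append_assoc, List.dropLast_concat]
    rw [e]
    exact e6_str_rep v0 d r j
  · have e : (List.replicate j v0 ++ c).dropLast = List.replicate j v0 ++ d := by
      rw [hd, ← List.append_assoc, List.dropLast_concat]
    rw [e]
    rcases hd'' with rfl | ⟨d', rfl⟩
    · have := e6_str_rep v0 [] r j
      simpa using this
    · have := e6_str_rep v0 [] (d' ++ v0 :: r) j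
      simpa [List.append_assoc] using this

theorem e6_str_J {V : Type} [Fintype V] [DecidableEq V] {K : Cpx V} {v0 : V} (f f' : ℕ → List V) (ss : List ℕ) (h : ∀ s ∈ ss, ClW K v0 (f s))
    (h' : ∀ s ∈ ss, (∃ j, f' s = f s ++ List.replicate j v0) ∨ ∃ j, f' s = List.replicate j v0 ++ f s) :
    Relation.ReflTransGen StR (e6_J v0 (ss.map f')) (e6_J v0 (ss.map f)) := by
  induction ss with
  | nil => exact Relation.ReflTransGen.refl
  | cons s ss ih =>
    rw [List.map_cons, List.map_cons, e6_J_cons, e6_J_cons]
    have h1 : ∀ s ∈ ss, ClW K v0 (f s) := fun s hs => h s (List.mem_cons_of_mem _ hs)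
    have ih' := ih h1 (fun s hs => h' s (List.mem_cons_of_mem _ hs))
    refine (e6_str_left ih' _).trans ?_
    obtain ⟨-, r, hr⟩ := e6_J_spec (K := K) (ss.map f) (by
      intro c hc
      obtain ⟨s, hs, rfl⟩ := List.mem_map.1 hc
      exact h1 s hs)
    rw [hr]
    exact e6_str_side (h s (by simp)) (h' s (by simp)) r

theorem e6_J_length {V : Type} (v0 : V) (l : ℕ) (cs : List (List V)) (h : ∀ c ∈ cs, c.length = l + 1) :
    (e6_J v0 cs).length = cs.length * l + 1 := by
  induction cs with
  | nil => simp [e6_J]
  | cons c cs ih =>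
    rw [e6_J_cons, List.length_append, List.length_dropLast, h c (by simp), ih (fun c hc => h c (List.mem_cons_of_mem _ hc)),
      List.length_cons]
    rw [Nat.add_sub_cancel]
    ring

theorem e6_J_get {V : Type} [Fintype V] [DecidableEq V] {K : Cpx V} (v0 : V) (l : ℕ) (cs : List (List V)) (h : ∀ c ∈ cs, c.length = l + 1)
    (hc : ∀ c ∈ cs, ClW K v0 c) (t : ℕ) (ht : t < cs.length) (i : ℕ) (hi : i ≤ l) : fl v0 (e6_J v0 cs) (t * l + i) = fl v0 (cs[t]) i := by
  induction cs generalizing t with
  | nil => simp at ht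
  | cons c cs ih =>
    have h1 : ∀ c ∈ cs, c.length = l + 1 := fun c hc => h c (List.mem_cons_of_mem _ hc)
    have hc1 : ∀ c ∈ cs, ClW K v0 c := fun c hc' => hc c (List.mem_cons_of_mem _ hc')
    have hlen : c.length = l + 1 := h c (by simp)
    have hdl : c.dropLast.length = l := by rw [List.length_dropLast, hlen]; rfl
    obtain ⟨-, r, hr⟩ := e6_J_spec cs hc1
    rw [e6_J_cons]
    cases t with
    | zero =>
      rw [zero_mul, zero_add]
      show fl v0 (c.dropLast ++ e6_J v0 cs) i = fl v0 c i
      obtain ⟨d, hd, hd', -⟩ := e6_drop (hc c (by simp))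
      rw [hd']
      have hdl' : d.length = l := by rw [← hd']; exact hdl
      unfold fl
      by_cases hil : i < l
      · rw [List.getD_append _ _ _ _ (by omega), hd, List.getD_append _ _ _ _ (by omega)]
      · have : i = l := by omega
        subst this
        rw [hr, hd, List.getD_append_right _ _ _ _ (by omega), List.getD_append_right _ _ _ _ (by omega), hdl']
        simp
    | succ t =>
      have ht' : t < cs.length := by simpa using ht
      have ih' := ih h1 hc1 t ht'
      have e : (t + 1) * l + i = c.dropLast.length + (t * l + i) := by rw [hdl]; ring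
      rw [e]
      show (c.dropLast ++ e6_J v0 cs).getD (c.dropLast.length + (t * l + i)) v0 = fl v0 cs[t] i
      rw [List.getD_append_right _ _ _ _ (by omega), Nat.add_sub_cancel_left]
      exact ih'

theorem e6_comm {H : Type} [Group H] (τ : ℕ → H) (g : ℕ) :
    ((List.range (4 * g)).map (fun s => if s % 4 < 2 then τ (gen s) else (τ (gen s))⁻¹)).prod = comm g τ := by
  induction g with
  | zero => rfl
  | succ g ih =>
    have e : 4 * (g + 1) = 4 * g + 1 + 1 + 1 + 1 := by ring
    have e0 : (4 * g) % 4 < 2 := by omega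
    have e1 : (4 * g + 1) % 4 < 2 := by omega
    have e2 : ¬ (4 * g + 1 + 1) % 4 < 2 := by omega
    have e3 : ¬ (4 * g + 1 + 1 + 1) % 4 < 2 := by omega
    have g0 : gen (4 * g) = 2 * g := by unfold gen; omega
    have g1 : gen (4 * g + 1) = 2 * g + 1 := by unfold gen; omega
    have g2 : gen (4 * g + 1 + 1) = 2 * g := by unfold gen; omega
    have g3 : gen (4 * g + 1 + 1 + 1) = 2 * g + 1 := by unfold gen; omega
    rw [e, List.range_succ, List.range_succ, List.range_succ, List.range_succ]
    simp only [List.map_append, List.prod_append, List.map_cons, List.map_nil, List.prod_cons, List.prod_nil, mul_one]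
    rw [ih, if_pos e0, if_pos e1, if_neg e2, if_neg e3, g0, g1, g2, g3]
    unfold comm
    rw [List.range_succ, List.map_append, List.prod_append]
    simp only [List.map_cons, List.map_nil, List.prod_cons, List.prod_nil, mul_one, cm, mul_assoc]

theorem exists_bottom {V : Type} [Fintype V] [DecidableEq V] {K : Cpx V} (v0 : V) (g : ℕ) (γ : ℕ → List V) (hγ : ∀ k, ClW K v0 (γ k)) :
    ∃ p : List V, ClW K v0 p ∧
      (∀ (H : Type) (_ : Group H) (lab : V → V → H), (∀ a b, lab b a = (lab a b)⁻¹) → hol lab p = comm g (fun k => hol lab (γ k))) ∧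
      ∀ l : ℕ, 1 ≤ l → (∀ k < 2 * g, (γ k).length ≤ l + 1) → ∃ b : List V, ClW K v0 b ∧ b.length = 4 * g * l + 1 ∧
        Relation.ReflTransGen StR b p ∧
        ∀ s, s < 4 * g → ∀ i, i ≤ l → fl v0 b (s * l + i) = if s % 4 < 2 then fl v0 (γ (gen s)) i else fl v0 (γ (gen s)) (l - i) := by
  have hsd : ∀ c ∈ (List.range (4 * g)).map (e6_sd γ), ClW K v0 c := by
    intro c hc
    obtain ⟨s, -, rfl⟩ := List.mem_map.1 hc
    exact e6_sd_clw hγ s
  refine ⟨e6_J v0 ((List.range (4 * g)).map (e6_sd γ)), (e6_J_spec _ hsd).1, ?_, ?_⟩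
  · intro H _ lab hinv
    rw [e6_hol_J K lab v0 _ hsd, List.map_map, ← e6_comm]
    congr 1
    refine List.map_congr_left fun s _ => ?_
    show hol lab (e6_sd γ s) = _
    unfold e6_sd
    split_ifs
    · rfl
    · exact e6_hol_reverse lab hinv _
  · intro l hl hlen
    have hgen : ∀ s ∈ List.range (4 * g), (γ (gen s)).length ≤ l + 1 := by
      intro s hs
      have := List.mem_range.1 hs
      apply hlen
      unfold gen
      omega
    have hpd : ∀ c ∈ (List.range (4 * g)).map (e6_pd v0 γ l), ClW K v0 c := by
      intro c hc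
      obtain ⟨s, hs, rfl⟩ := List.mem_map.1 hc
      exact e6_pd_clw hγ l s (hgen s hs)
    have hpl : ∀ c ∈ (List.range (4 * g)).map (e6_pd v0 γ l), c.length = l + 1 := by
      intro c hc
      obtain ⟨s, hs, rfl⟩ := List.mem_map.1 hc
      simp [e6_pd]
    refine ⟨e6_J v0 ((List.range (4 * g)).map (e6_pd v0 γ l)), (e6_J_spec _ hpd).1, ?_, ?_, ?_⟩
    · rw [e6_J_length v0 l _ hpl, List.length_map, List.length_range]
    · exact e6_str_J (K := K) (e6_sd γ) (e6_pd v0 γ l) _ (fun s _ => e6_sd_clw hγ s) (fun s hs => e6_pd_eq v0 γ l s (hgen s hs))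
    · intro s hs i hi
      rw [e6_J_get v0 l _ hpl hpd s (by simpa using hs) i hi, List.getElem_map, List.getElem_range]
      unfold fl e6_pd
      rw [List.getD_eq_getElem _ _ (by simp; omega), List.getElem_map, List.getElem_range]
      rfl

/-- The holonomy of a closed walk and of its sequence. -/
theorem holF_fl {V H : Type} [DecidableEq V] [Group H] (lab : V → V → H) (v0 : V) (l : List V) (h : l.getLast? = some v0) (n : ℕ)
    (hn : l.length ≤ n + 1) : holF lab (fl v0 l) n = hol lab l := by
  induction l generalizing n with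
  | nil => simp at h
  | cons a l ih =>
    cases l with
    | nil =>
      have ha : a = v0 := by simpa using h
      subst ha
      show _ = 1
      unfold holF
      apply List.prod_eq_one
      intro x hx
      obtain ⟨i, -, rfl⟩ := List.mem_map.1 hx
      have e : ∀ i, fl a [a] i = a := by
        intro i
        unfold fl
        cases i <;> simp
      show lb lab (fl a [a] i) (fl a [a] (i + 1)) = 1
      rw [e, e]
      unfold lb
      rw [if_pos rfl]
    | cons b l =>
      obtain ⟨n, rfl⟩ : ∃ n', n = n' + 1 := ⟨n - 1, by simp at hn; omega⟩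
      have h1 := ih (by simpa using h) n (by simpa using hn)
      show holF lab (fl v0 (a :: b :: l)) (n + 1) = lb lab a b * hol lab (b :: l)
      rw [← h1]
      unfold holF
      rw [List.range_succ_eq_map, List.map_cons, List.map_map, List.prod_cons]
      rfl

end H32N
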