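import Pool.Agent.Lib.H32N.C7
import Pool.Agent.Lib.H32N.E3
import Pool.Agent.Lib.H32N.E4
import Pool.Agent.Lib.H32N.E5
import Pool.Agent.Lib.H32N.E6

set_option autoImplicit false

/-!
# H32N, chunk E7 (S/M): the disc diagram

`v0` any vertex, `γ` from `exists_loops`, `p` from `exists_bottom`; every flat holonomy of `p` is `comm g .. = 1`, so `p ~ [v0]` (`null_of_hol`), `chain_of_equiv` gives `N0`.
Choose `l ≥ N0 + 1` with `(γ k).length ≤ l + 1` for all `k < 2 g`; `N = 4 g l ≥ N0` if `g ≥ 1`. `b` from `exists_bottom`; `chain_of_str` (`b.length ≤ N + 1`) and `chain_of_equiv`: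
`ReflTransGen (SqB K v0 N) (fl v0 b) (fl v0 [v0])`, and `fl v0 [v0] = fun _ => v0`. `grid_of_chain`. `c k = fl v0 (γ k)` (for `i ≥ l`: `fl v0 (γ k) i = v0`). `holF_fl`.

Auxiliary names start with `e7_`.
-/

open Finset

namespace H32N

open H32D

theorem e7_tail {V : Type} {v0 : V} {l : List V} (h : l.getLast? = some v0) (i : ℕ) (hi : l.length ≤ i + 1) : fl v0 l i = v0 := by
  unfold fl
  rw [List.getD_eq_getElem?_getD]
  rcases lt_or_ge i l.length with h1 | h1
  · have h2 : i = l.length - 1 := by omega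
    rw [List.getLast?_eq_getElem?] at h
    rw [h2, h]
    rfl
  · rw [List.getElem?_eq_none h1]
    rfl

theorem e7_head {V : Type} {v0 : V} {l : List V} (h : l.head? = some v0) : fl v0 l 0 = v0 := by
  unfold fl
  rw [List.getD_eq_getElem?_getD]
  cases l with
  | nil => rfl
  | cons a l =>
    simp only [List.head?_cons, Option.some.injEq] at h
    simp [h]

theorem e7_face {V : Type} [Fintype V] [DecidableEq V] {K : Cpx V} {v0 : V} {l : List V} (h : ClW K v0 l) (i : ℕ) :
    ({fl v0 l i, fl v0 l (i + 1)} : Finset V) ∈ K.faces := by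
  rcases lt_or_ge (i + 1) l.length with h1 | h1
  · have h2 : fl v0 l i = l[i]'(by omega) := by
      unfold fl
      rw [List.getD_eq_getElem?_getD, List.getElem?_eq_getElem (by omega : i < l.length)]
      rfl
    have h3 : fl v0 l (i + 1) = l[i + 1]'h1 := by
      unfold fl
      rw [List.getD_eq_getElem?_getD, List.getElem?_eq_getElem h1]
      rfl
    rw [h2, h3]
    exact List.isChain_iff_getElem.1 h.chain i h1
  · rw [e7_tail h.last i h1, e7_tail h.last (i + 1) (by omega)]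
    have h4 : ({v0, v0} : Finset V) = {v0} := by simp
    rw [h4]
    exact K.vertex v0

theorem exists_disc {V : Type} [Fintype V] [DecidableEq V] {K : Cpx V} (hK : IsSurface K) (g : ℕ) (hg : 1 ≤ g) (hχ : K.euler = 2 - 2 * (g : ℤ)) :
    ∃ (v0 : V) (l m : ℕ) (c D : ℕ → ℕ → V), Disc K v0 g l m c D ∧
      ∀ (H : Type) (_ : Group H) (σ : ℕ → H), comm g σ = 1 → ∃ lab : V → V → H, Flat K lab ∧ ∀ k < 2 * g, holF lab (c k) l = σ k := by
  obtain ⟨v0⟩ := hK.conn.nonempty
  obtain ⟨γ, hγ, h1, h2⟩ := exists_loops hK g hχ v0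
  obtain ⟨p, hp, hp1, hp2⟩ := exists_bottom v0 g γ hγ
  have hnull : Relation.EqvGen (Mv K) p [v0] := by
    refine null_of_hol hK.conn v0 p hp ?_
    intro H _ lab hlab
    rw [hp1 H _ lab hlab.inv]
    exact h1 H _ lab hlab
  obtain ⟨N0, hN0⟩ := chain_of_equiv hnull hp
  obtain ⟨l, hl, hl1⟩ : ∃ l : ℕ, N0 + 1 ≤ l ∧ ∀ k < 2 * g, (γ k).length ≤ l + 1 := by
    refine ⟨N0 + 1 + ∑ k ∈ Finset.range (2 * g), (γ k).length, by omega, fun k hk => ?_⟩
    have := Finset.single_le_sum (f := fun k => (γ k).length) (fun i _ => Nat.zero_le _) (Finset.mem_range.2 hk)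
    omega
  obtain ⟨b, hb, hblen, hstr, hbot⟩ := hp2 l (by omega) hl1
  have hNN : N0 ≤ 4 * g * l := by
    have : 1 * l ≤ 4 * g * l := Nat.mul_le_mul_right l (by omega)
    omega
  have hch : Relation.ReflTransGen (SqB K v0 (4 * g * l)) (fl v0 b) (fun _ => v0) := by
    have e : fl v0 [v0] = fun _ => v0 := by
      funext i
      unfold fl
      cases i with
      | zero => rfl
      | succ i => rfl
    rw [← e]
    exact (chain_of_str hstr hb _ (by omega)).trans (hN0 _ hNN)
  obtain ⟨m, D, hD0, hDl, hDr, hDt, hDs⟩ := grid_of_chain hch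
  refine ⟨v0, l, m, fun k => fl v0 (γ k), D, ⟨by omega, fun k => e7_head (hγ k).head, fun k hk i hi => ?_, fun k i => e7_face (hγ k) i,
    fun s hs i hi => ?_, hDl, hDr, hDt, hDs⟩, ?_⟩
  · have := hl1 k hk
    exact e7_tail (hγ k).last i (by omega)
  · rw [hD0]
    exact hbot s hs i hi
  · intro H _ σ hσ
    obtain ⟨lab, hlab, hlab2⟩ := h2 H _ σ hσ
    refine ⟨lab, hlab, fun k hk => ?_⟩
    rw [holF_fl lab v0 (γ k) (hγ k).last l (hl1 k hk)]
    exact hlab2 k hk

end H32N
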