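import Pool.Agent.Lib.H32N.Topology
import Pool.Agent.Lib.H98T.Z12

set_option autoImplicit false

/-!
# H32N, part (B): expander coverings whose thick embedding radius is not `O(G ^ (1 / (n - 1)))`
-/

open Finset

namespace H32N

open H32D

theorem partb_root (n d : ℕ) (hn : 2 ≤ n) : ((d : ℝ) ^ (1 / ((n : ℝ) - 1))) ^ (n - 1) = d := by
  have h : ((n - 1 : ℕ) : ℝ) = (n : ℝ) - 1 := by
    rw [Nat.cast_sub (by omega)]
    simp
  rw [← Real.rpow_natCast, ← Real.rpow_mul (Nat.cast_nonneg d), h, one_div, inv_mul_cancel₀, Real.rpow_one]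
  rw [← h]
  exact_mod_cast (by omega : n - 1 ≠ 0)

/-- Part (B): for every `M` and every large degree `d` there is an expander covering of degree `d` whose thick embedding radius is at
least `M G ^ (1 / (n - 1))`, `G = d (g - 1) + 1` the genus. -/
theorem generic_covers {V : Type} [Fintype V] [DecidableEq V] (K : Cpx V) (hK : IsSurface K) (g : ℕ) (hg : 2 ≤ g)
    (hχ : K.euler = 2 - 2 * (g : ℤ)) (n : ℕ) (hn : 5 ≤ n) :
    ∃ h : ℝ, 0 < h ∧ ∀ M : ℝ, ∃ d0 : ℕ, ∀ d : ℕ, d0 ≤ d → ∃ (W : Type) (_ : Fintype W) (_ : DecidableEq W) (L : Cpx W) (p : W → V),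
      IsSurface L ∧ IsCovering p L K ∧ L.euler = 2 - 2 * ((d * (g - 1) + 1 : ℕ) : ℤ) ∧ Expands L.graph h ∧
        ENNReal.ofReal (M * ((d * (g - 1) + 1 : ℕ) : ℝ) ^ (1 / ((n : ℝ) - 1))) ≤ thickRadius n L := by
  obtain ⟨C0, C, h1, hC, hh1, htop⟩ := topology K hK g hg hχ n
  refine ⟨h1, hh1, fun M => ?_⟩
  obtain ⟨d0, hcov⟩ := H98T.exists_cov n g C0 hn hg ((C * (max M 0 * g + 1) + 1) ^ (n - 1))
  refine ⟨max d0 1, fun d hd => ?_⟩
  have hd1 : 1 ≤ d := le_trans (le_max_right _ _) hd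
  obtain ⟨σ, hσ, hE, hno⟩ := hcov d (le_trans (le_max_left _ _) hd)
  obtain ⟨W, iW, dW, L, p, hp, hS, hX, heu, hdig⟩ := htop d hd1 σ hσ hE
  refine ⟨W, iW, dW, L, p, hS, hp, ?_, hX, ?_⟩
  · rw [heu, hχ]
    have : ((g - 1 : ℕ) : ℤ) = (g : ℤ) - 1 := by omega
    push_cast
    rw [this]
    ring
  · refine le_sInf ?_
    rintro R ⟨f, hf, hR⟩
    by_contra hlt
    rw [not_le] at hlt
    obtain ⟨s, hs⟩ : ∃ s : ℝ, s = (d : ℝ) ^ (1 / ((n : ℝ) - 1)) := ⟨_, rfl⟩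
    have hnR : (5 : ℝ) ≤ n := by exact_mod_cast hn
    have hexp0 : 0 ≤ 1 / ((n : ℝ) - 1) := div_nonneg zero_le_one (by linarith)
    have hexp1 : 1 / ((n : ℝ) - 1) ≤ 1 := by
      rw [div_le_one (by linarith)]
      linarith
    have hdR : (1 : ℝ) ≤ d := by exact_mod_cast hd1
    have hgR : (2 : ℝ) ≤ g := by exact_mod_cast hg
    have hs1 : 1 ≤ s := by
      rw [hs]
      exact Real.one_le_rpow hdR hexp0
    have hG : ((d * (g - 1) + 1 : ℕ) : ℝ) ^ (1 / ((n : ℝ) - 1)) ≤ g * s := by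
      have h2 : ((d * (g - 1) + 1 : ℕ) : ℝ) ≤ g * d := by
        have : d * (g - 1) + 1 ≤ g * d := by
          obtain ⟨g', rfl⟩ : ∃ g', g = g' + 1 := ⟨g - 1, by omega⟩
          rw [Nat.add_sub_cancel]
          nlinarith
        exact_mod_cast this
      calc ((d * (g - 1) + 1 : ℕ) : ℝ) ^ (1 / ((n : ℝ) - 1)) ≤ ((g : ℝ) * d) ^ (1 / ((n : ℝ) - 1)) :=
            Real.rpow_le_rpow (Nat.cast_nonneg _) h2 hexp0
        _ = (g : ℝ) ^ (1 / ((n : ℝ) - 1)) * s := by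
            rw [Real.mul_rpow (by linarith) (by linarith), hs]
        _ ≤ (g : ℝ) ^ (1 : ℝ) * s := by
            refine mul_le_mul_of_nonneg_right (Real.rpow_le_rpow_of_exponent_le (by linarith) hexp1) (by linarith)
        _ = g * s := by rw [Real.rpow_one]
    have hM0 : 0 ≤ max M 0 := le_max_right _ _
    have hbound : ∀ x ∈ L.real, ‖f x‖ ≤ max M 0 * (g * s) := by
      intro x hx
      have h3 : ENNReal.ofReal ‖f x‖ ≤ ENNReal.ofReal (max M 0 * (g * s)) := by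
        refine (hR x hx).trans (hlt.le.trans (ENNReal.ofReal_le_ofReal ?_))
        calc M * ((d * (g - 1) + 1 : ℕ) : ℝ) ^ (1 / ((n : ℝ) - 1)) ≤ max M 0 * ((d * (g - 1) + 1 : ℕ) : ℝ) ^ (1 / ((n : ℝ) - 1)) :=
              mul_le_mul_of_nonneg_right (le_max_left _ _) (by positivity)
          _ ≤ max M 0 * (g * s) := mul_le_mul_of_nonneg_left hG hM0
      exact (ENNReal.ofReal_le_ofReal_iff (by positivity)).1 h3
    have hN : C * (max M 0 * (g * s) + 1) ≤ (⌈C * (max M 0 * (g * s) + 1)⌉₊ : ℝ) := Nat.le_ceil _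
    have hDig := hdig _ f hf hbound _ hN
    refine hno _ ?_ hDig
    have hupper : (⌈C * (max M 0 * (g * s) + 1)⌉₊ : ℝ) ≤ (C * (max M 0 * g + 1) + 1) * s := by
      have h4 : (⌈C * (max M 0 * (g * s) + 1)⌉₊ : ℝ) ≤ C * (max M 0 * (g * s) + 1) + 1 := by
        exact (Nat.ceil_lt_add_one (by positivity)).le
      calc (⌈C * (max M 0 * (g * s) + 1)⌉₊ : ℝ) ≤ C * (max M 0 * (g * s) + 1) + 1 := h4
        _ ≤ C * (max M 0 * (g * s) + s) + s := by
            have := mul_le_mul_of_nonneg_left hs1 hC.le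
            nlinarith
        _ = (C * (max M 0 * g + 1) + 1) * s := by ring
    calc (⌈C * (max M 0 * (g * s) + 1)⌉₊ : ℝ) ^ (n - 1) ≤ ((C * (max M 0 * g + 1) + 1) * s) ^ (n - 1) :=
          pow_le_pow_left₀ (Nat.cast_nonneg _) hupper _
      _ = (C * (max M 0 * g + 1) + 1) ^ (n - 1) * d := by
          rw [mul_pow, hs, partb_root n d (by omega)]

end H32N
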