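import Pool.Agent.Lib.H32N.PartA
import Pool.Agent.Lib.H32N.PartB

set_option autoImplicit false

/-!
# H32N, the combined theorem: the growth rate is not a function of the genus
-/

open Finset

namespace H32N

open H32D

/-- Both alternatives occur, for expander coverings of the same surface with the same genera. -/
theorem both_rates {V : Type} [Fintype V] [DecidableEq V] (K : Cpx V) (hK : IsSurface K) (g : ℕ) (hg : 2 ≤ g)
    (hχ : K.euler = 2 - 2 * (g : ℤ)) (n : ℕ) (hn : 5 ≤ n) :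
    ∃ c C h : ℝ, 0 < c ∧ 0 < C ∧ 0 < h ∧
      (∃ G : ℕ → ℕ, Filter.Tendsto G Filter.atTop Filter.atTop ∧
        (∃ (W : ℕ → Type) (_ : ∀ i, Fintype (W i)) (_ : ∀ i, DecidableEq (W i)) (L : ∀ i, Cpx (W i)) (p : ∀ i, W i → V),
          ∀ i, IsSurface (L i) ∧ IsCovering (p i) (L i) K ∧ (L i).euler = 2 - 2 * (G i : ℤ) ∧ Expands (L i).graph h ∧
            ENNReal.ofReal (c * (G i : ℝ) ^ (1 / ((n : ℝ) - 1))) ≤ thickRadius n (L i) ∧
            thickRadius n (L i) ≤ ENNReal.ofReal (C * (G i : ℝ) ^ (1 / ((n : ℝ) - 1)))) ∧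
        ∃ (W : ℕ → Type) (_ : ∀ i, Fintype (W i)) (_ : ∀ i, DecidableEq (W i)) (L : ∀ i, Cpx (W i)) (p : ∀ i, W i → V),
          (∀ i, IsSurface (L i) ∧ IsCovering (p i) (L i) K ∧ (L i).euler = 2 - 2 * (G i : ℤ) ∧ Expands (L i).graph h) ∧
            ∀ M : ℝ, ∀ᶠ i in Filter.atTop, ENNReal.ofReal (M * (G i : ℝ) ^ (1 / ((n : ℝ) - 1))) ≤ thickRadius n (L i)) ∧
      ∀ M : ℝ, ∀ᶠ d : ℕ in Filter.atTop, ∃ (W : Type) (_ : Fintype W) (_ : DecidableEq W) (L : Cpx W) (p : W → V),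
        IsSurface L ∧ IsCovering p L K ∧ L.euler = d * K.euler ∧ Expands L.graph h ∧
          ENNReal.ofReal (M * (d : ℝ) ^ (1 / ((n : ℝ) - 1))) ≤ thickRadius n L := by
  obtain ⟨c, C, ha, hc, hC, hha, W, iW, dW, L, p, D, hD, hA⟩ := expander_covers_deg K hK g hg hχ n hn
  obtain ⟨hb, hhb, hB⟩ := generic_covers K hK g hg hχ n hn
  have hmono : ∀ {W : Type} [Fintype W] (H : SimpleGraph W) (x y : ℝ), x ≤ y → Expands H y → Expands H x := by
    intro W _ H x y hxy hE A hAc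
    exact le_trans (mul_le_mul_of_nonneg_right hxy (Nat.cast_nonneg _)) (hE A hAc)
  have hnR : (5 : ℝ) ≤ n := by exact_mod_cast hn
  have hexp0 : 0 ≤ 1 / ((n : ℝ) - 1) := div_nonneg zero_le_one (by linarith)
  -- the property of the degree `d` and of the integer `m`
  obtain ⟨P, hP⟩ : ∃ P : ℕ → ℕ → Prop, P = fun (m d : ℕ) => ∃ (W : Type) (_ : Fintype W) (_ : DecidableEq W) (L : Cpx W) (p : W → V),
      IsSurface L ∧ IsCovering p L K ∧ L.euler = 2 - 2 * ((d * (g - 1) + 1 : ℕ) : ℤ) ∧ Expands L.graph hb ∧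
        ENNReal.ofReal ((m : ℝ) * ((d * (g - 1) + 1 : ℕ) : ℝ) ^ (1 / ((n : ℝ) - 1))) ≤ thickRadius n L := ⟨_, rfl⟩
  have hP1 : ∀ m : ℕ, ∃ d0 : ℕ, ∀ d, d0 ≤ d → P m d := by
    intro m
    rw [hP]
    exact hB m
  choose d0 hd0 using hP1
  -- shift the sequence so that all degrees are at least `d0 0`
  obtain ⟨i0, hi0⟩ := Filter.eventually_atTop.1 (hD.eventually_ge_atTop (d0 0))
  refine ⟨c, C, min ha hb, hc, hC, lt_min hha hhb, ⟨fun i => D (i + i0) * (g - 1) + 1, ?_, ⟨fun i => W (i + i0), inferInstance,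
    inferInstance, fun i => L (i + i0), fun i => p (i + i0), fun i => ?_⟩, ?_⟩, ?_⟩
  · have h1 : Filter.Tendsto (fun i => D (i + i0)) Filter.atTop Filter.atTop := hD.comp (Filter.tendsto_add_atTop_nat i0)
    refine Filter.tendsto_atTop_mono (fun i => ?_) h1
    have : D (i + i0) * 1 ≤ D (i + i0) * (g - 1) := Nat.mul_le_mul_left _ (by omega)
    omega
  · obtain ⟨h1, h2, h3, h4, h5, h6⟩ := hA (i + i0)
    exact ⟨h1, h2, h3, hmono _ _ _ (min_le_left _ _) h4, h5, h6⟩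
  · classical
    obtain ⟨m, hm⟩ : ∃ m : ℕ → ℕ, m = fun i => Nat.findGreatest (fun m => P m (D (i + i0))) i := ⟨_, rfl⟩
    have hPm : ∀ i, P (m i) (D (i + i0)) := by
      intro i
      rw [hm]
      exact Nat.findGreatest_spec (P := fun m => P m (D (i + i0))) (Nat.zero_le i) (hd0 0 _ (hi0 _ (Nat.le_add_left _ _)))
    have hmtop : ∀ M : ℕ, ∀ᶠ i in Filter.atTop, M ≤ m i := by
      intro M
      have h1 : ∀ᶠ i in Filter.atTop, d0 M ≤ D (i + i0) :=
        (hD.comp (Filter.tendsto_add_atTop_nat i0)).eventually_ge_atTop (d0 M)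
      filter_upwards [h1, Filter.eventually_ge_atTop M] with i h2 h3
      rw [hm]
      exact Nat.le_findGreatest h3 (hd0 M _ h2)
    rw [hP] at hPm
    choose W' iW' dW' L' p' h1 h2 h3 h4 h5 using hPm
    refine ⟨W', iW', dW', L', p', fun i => ⟨h1 i, h2 i, h3 i, hmono _ _ _ (min_le_right _ _) (h4 i)⟩, fun M => ?_⟩
    filter_upwards [hmtop ⌈M⌉₊] with i hi
    refine le_trans (ENNReal.ofReal_le_ofReal ?_) (h5 i)
    refine mul_le_mul_of_nonneg_right ?_ (by positivity)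
    exact (Nat.le_ceil M).trans (by exact_mod_cast hi)
  · intro M
    obtain ⟨e0, he0⟩ := hB (max M 0)
    refine Filter.eventually_atTop.2 ⟨e0, fun d hd => ?_⟩
    obtain ⟨W, iW, dW, L, p, h1, h2, h3, h4, h5⟩ := he0 d hd
    refine ⟨W, iW, dW, L, p, h1, h2, ?_, hmono _ _ _ (min_le_right _ _) h4, le_trans (ENNReal.ofReal_le_ofReal ?_) h5⟩
    · rw [h3, hχ]
      have : ((g - 1 : ℕ) : ℤ) = (g : ℤ) - 1 := by omega
      push_cast
      rw [this]
      ring
    · refine mul_le_mul (le_max_left _ _) (Real.rpow_le_rpow (Nat.cast_nonneg _) ?_ hexp0) (by positivity) (le_max_right _ _)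
      have : d * 1 ≤ d * (g - 1) := Nat.mul_le_mul_left _ (by omega)
      have h6 : d ≤ d * (g - 1) + 1 := by omega
      exact_mod_cast h6

end H32N
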