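import Pool.Agent.Lib.H32D.SDefs
import Pool.Agent.Lib.H32D.CDefs

set_option autoImplicit false

/-!
# H32N, definitions (the fundamental group of a triangulated surface, discs, lifts; for MP_d8119f_gt part B)

* `hol lab l`: the holonomy of a labelling along a list of vertices (a walk which may stay at a vertex), `holF` the same for functions.
* `ClW K v0 l`: `l` is a closed walk of `K` at `v0` (consecutive vertices equal or adjacent).
* `Mv K`: elementary homotopies; `StR`: removal of a repetition.
* `comm g σ = ∏_{i<g} cm (σ (2 i)) (σ (2 i + 1))`, `cm a b = a b a⁻¹ b⁻¹`.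
* `FS S`: the subgroup of the free group generated by the letters in `S`.
* `Heis`: the Heisenberg group over the field with two elements.
* `Ch q w s t`: see module B.
-/

open Finset

namespace H32N

open H32D

/-- The label of a step. -/
def lb {V H : Type} [DecidableEq V] [Group H] (lab : V → V → H) (a b : V) : H := if a = b then 1 else lab a b

/-- The holonomy along a list of vertices. -/
def hol {V H : Type} [DecidableEq V] [Group H] (lab : V → V → H) : List V → H
  | a :: b :: l => lb lab a b * hol lab (b :: l)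
  | _ => 1

/-- The holonomy along the first `n` steps of a sequence of vertices. -/
def holF {V H : Type} [DecidableEq V] [Group H] (lab : V → V → H) (c : ℕ → V) (n : ℕ) : H :=
  ((List.range n).map (fun i => lb lab (c i) (c (i + 1)))).prod

/-- `l` is a closed walk at `v0`. -/
structure ClW {V : Type} [Fintype V] [DecidableEq V] (K : Cpx V) (v0 : V) (l : List V) : Prop where
  head : l.head? = some v0
  last : l.getLast? = some v0
  chain : l.IsChain (fun a b => ({a, b} : Finset V) ∈ K.faces)

/-- Elementary homotopies of walks. -/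
inductive Mv {V : Type} [Fintype V] [DecidableEq V] (K : Cpx V) : List V → List V → Prop
  | stut (l1 l2 : List V) (a : V) : Mv K (l1 ++ a :: a :: l2) (l1 ++ a :: l2)
  | tri (l1 l2 : List V) (a b c : V) (h : ({a, b, c} : Finset V) ∈ K.faces) : Mv K (l1 ++ a :: b :: c :: l2) (l1 ++ a :: c :: l2)

/-- Removal of a repetition. -/
inductive StR {V : Type} : List V → List V → Prop
  | mk (l1 l2 : List V) (a : V) : StR (l1 ++ a :: a :: l2) (l1 ++ a :: l2)

/-- The commutator. -/
def cm {H : Type} [Group H] (a b : H) : H := a * b * a⁻¹ * b⁻¹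

/-- The product of commutators. -/
def comm {H : Type} [Group H] (g : ℕ) (σ : ℕ → H) : H := ((List.range g).map (fun i => cm (σ (2 * i)) (σ (2 * i + 1)))).prod

/-- The subgroup generated by the letters in `S`. -/
def FS {X : Type} (S : Set X) : Subgroup (FreeGroup X) := Subgroup.closure (FreeGroup.of '' S)

/-- The result of the normal form theorem for the word `r`. -/
structure NF {X : Type} (r : List (X × Bool)) (φ : FreeGroup X ≃* FreeGroup X) (L : List (X × X)) (u : FreeGroup X) : Prop where
  nodup : (L.flatMap (fun p => [p.1, p.2])).Nodup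
  sub : ∀ p ∈ L, (p.1, true) ∈ r ∧ (p.2, true) ∈ r
  fix : ∀ z, (z, true) ∉ r → φ (FreeGroup.of z) = FreeGroup.of z
  maps : ∀ z, (z, true) ∈ r → φ (FreeGroup.of z) ∈ FS {z | (z, true) ∈ r}
  umem : u ∈ FS {z | (z, true) ∈ r}
  eq : φ (FreeGroup.mk r) = u * (L.map (fun p => cm (FreeGroup.of p.1) (FreeGroup.of p.2))).prod * u⁻¹

/-- The Heisenberg group over the field with two elements. -/
@[ext] structure Heis where
  a : ZMod 2
  b : ZMod 2
  c : ZMod 2

namespace Heis

instance : Mul Heis := ⟨fun x y => ⟨x.a + y.a, x.b + y.b, x.c + y.c + x.a * y.b⟩⟩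
instance : One Heis := ⟨⟨0, 0, 0⟩⟩
instance : Inv Heis := ⟨fun x => ⟨x.a, x.b, x.c + x.a * x.b⟩⟩

theorem mul_def (x y : Heis) : x * y = ⟨x.a + y.a, x.b + y.b, x.c + y.c + x.a * y.b⟩ := rfl
theorem one_def : (1 : Heis) = ⟨0, 0, 0⟩ := rfl
theorem inv_def (x : Heis) : x⁻¹ = ⟨x.a, x.b, x.c + x.a * x.b⟩ := rfl

theorem two_eq (x : ZMod 2) : x + x = 0 := by revert x; decide

instance : Group Heis := Group.ofLeftAxioms
  (by
    intro x y z
    simp only [mul_def, Heis.mk.injEq]
    refine ⟨by ring, by ring, by ring⟩)
  (by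
    intro x
    simp only [mul_def, one_def]
    ext <;> simp)
  (by
    intro x
    simp only [mul_def, one_def, inv_def, Heis.mk.injEq]
    refine ⟨two_eq _, two_eq _, ?_⟩
    have h1 := two_eq x.c
    have h2 := two_eq (x.a * x.b)
    linear_combination h1 + h2)

end Heis

/-- `q` is a function on directed edges (a value for the corner at the start of the edge, on its left side in the boundary word); `Ch q w s t`: the values of the
corners between consecutive edges of `w` match, the first one is `s` and the last one is `t`. -/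
def Ch {V α : Type} (q : V → V → α) : List (V × V) → α → α → Prop
  | [], s, t => s = t
  | e :: w, s, t => q e.1 e.2 = s ∧ Ch q w (q e.2 e.1) t

/-- A rooted spanning tree consisting of edges of the boundary word `w`. -/
structure TreeOf {V : Type} (w : List (V × V)) (v0 : V) (par : V → V) (rk : V → ℕ) : Prop where
  mem : ∀ v, v ≠ v0 → (par v, v) ∈ w ∧ (v, par v) ∈ w
  rk : ∀ v, v ≠ v0 → rk (par v) < rk v

/-- The word `r` in the letters `X` represents the boundary word `w` with the tree edges deleted; `rep x` is the directed edge of the letter `x`. -/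
structure Letters {V : Type} (w : List (V × V)) (v0 : V) (par : V → V) (X : Type) (rep : X → V × V) (r : List (X × Bool)) : Prop where
  mem : ∀ x, rep x ∈ w
  nodup : r.Nodup
  all : ∀ x b, (x, b) ∈ r
  read : ∀ (H : Type) (_ : Group H) (η : V → V → H), (∀ a b, η b a = (η a b)⁻¹) → (∀ v, v ≠ v0 → η (par v) v = 1) →
    (w.map (fun e => η e.1 e.2)).prod = FreeGroup.lift (fun x => η (rep x).1 (rep x).2) (FreeGroup.mk r)
  write : ∀ (H : Type) (_ : Group H) (s : X → H), ∃ η : V → V → H, (∀ a b, η b a = (η a b)⁻¹) ∧ (∀ v, v ≠ v0 → η (par v) v = 1) ∧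
    ∀ x, η (rep x).1 (rep x).2 = s x

/-- The sequence of a list, extended by `v0`. -/
def fl {V : Type} (v0 : V) (l : List V) : ℕ → V := fun i => l.getD i v0

/-- One step of a homotopy of closed sequences at `v0`, constant from `N` on. -/
structure SqB {V : Type} [Fintype V] [DecidableEq V] (K : Cpx V) (v0 : V) (N : ℕ) (f f' : ℕ → V) : Prop where
  zero : f 0 = v0 ∧ f' 0 = v0
  tail : ∀ i, N ≤ i → f i = v0 ∧ f' i = v0
  sq : ∀ i, ({f i, f (i + 1), f' i, f' (i + 1)} : Finset V) ∈ K.faces

/-- The generator of the side `s` of the polygon. -/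
def gen (s : ℕ) : ℕ := 2 * (s / 4) + s % 2

/-- A disc diagram: loops `c k` of length `l` at `v0` and a grid `D` whose bottom row is the boundary word of the polygon. -/
structure Disc {V : Type} [Fintype V] [DecidableEq V] (K : Cpx V) (v0 : V) (g l m : ℕ) (c : ℕ → ℕ → V) (D : ℕ → ℕ → V) : Prop where
  pos : 1 ≤ l
  c0 : ∀ k, c k 0 = v0
  cl : ∀ k, k < 2 * g → ∀ i, l ≤ i → c k i = v0
  cf : ∀ k i, ({c k i, c k (i + 1)} : Finset V) ∈ K.faces
  bottom : ∀ s, s < 4 * g → ∀ i, i ≤ l → D (s * l + i) 0 = if s % 4 < 2 then c (gen s) i else c (gen s) (l - i)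
  left : ∀ j, D 0 j = v0
  right : ∀ i j, 4 * g * l ≤ i → D i j = v0
  top : ∀ i j, m ≤ j → D i j = v0
  sq : ∀ i j, ({D i j, D (i + 1) j, D i (j + 1), D (i + 1) (j + 1)} : Finset V) ∈ K.faces

end H32N
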