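import Pool.Agent.Lib.H32N.TDefs

set_option autoImplicit false

/-!
# H32N, chunk T1 (M): the lift of the grid

* `lb_mul`: for `{a, b, c} ∈ K.faces`, not necessarily different: `lb μ a b * lb μ b c = lb μ a c` (cases; `Flat.tri`, `Flat.inv`).
* `h i j = holF μ (fun i' => D i' j) i`, `h (i + 1) j = h i j * lb (D i j) (D (i + 1) j)` (`List.range_succ`), `h i j * lb (D i j) (D i (j + 1)) = h i (j + 1)` by induction on `i`
  (`Disc.left` for `i = 0`; the four corners of a square are in a common face, `Cpx.down`).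
* `dl_sq`: the elements of `sqr` are of the form `(a, h_a⁻¹ x)`, and `h_b = h_a * lb a b` for any two corners of the square, so `h_a⁻¹ x = lb a b (h_b⁻¹ x)`; if `a = b` the two points
  are equal. The image under `Prod.fst` is the square of `D`.
* `dl_top`: all `D i' j = v0`, so `h = 1`. `dl_right`: `h i j = h i (j + 1)` for `i ≥ 4 g l`, so `h i j = h i (j + m) = 1`.

Auxiliary names start with `t1_`.
-/

open Finset

namespace H32N

open H32D

theorem lb_self {V H : Type} [DecidableEq V] [Group H] (lab : V → V → H) (a : V) : lb lab a a = 1 := by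
  unfold lb
  rw [if_pos rfl]

theorem lb_inv {V H : Type} [DecidableEq V] [Group H] (lab : V → V → H) (hinv : ∀ a b, lab b a = (lab a b)⁻¹) (a b : V) :
    lb lab b a = (lb lab a b)⁻¹ := by
  unfold lb
  by_cases h : a = b
  · rw [if_pos h, if_pos h.symm, inv_one]
  · rw [if_neg h, if_neg (Ne.symm h), hinv]

theorem t1_ne {V H : Type} [DecidableEq V] [Group H] (lab : V → V → H) {a b : V} (h : a ≠ b) : lb lab a b = lab a b := by
  unfold lb
  rw [if_neg h]

theorem lb_mul {V : Type} [Fintype V] [DecidableEq V] {K : Cpx V} {H : Type} [Group H] {lab : V → V → H} (h : Flat K lab) (a b c : V)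
    (hf : ({a, b, c} : Finset V) ∈ K.faces) : lb lab a b * lb lab b c = lb lab a c := by
  by_cases hab : a = b
  · subst hab
    rw [lb_self, one_mul]
  · by_cases hbc : b = c
    · subst hbc
      rw [lb_self, mul_one]
    · by_cases hac : a = c
      · subst hac
        rw [lb_self, lb_inv lab h.inv a b, mul_inv_cancel]
      · rw [t1_ne lab hab, t1_ne lab hbc, t1_ne lab hac]
        exact h.tri a b c hab hbc hac hf

theorem holF_succ {V H : Type} [DecidableEq V] [Group H] (lab : V → V → H) (c : ℕ → V) (n : ℕ) :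
    holF lab c (n + 1) = holF lab c n * lb lab (c n) (c (n + 1)) := by
  unfold holF
  rw [List.range_succ, List.map_append, List.prod_append]
  simp

theorem t1_const {V H : Type} [DecidableEq V] [Group H] (lab : V → V → H) (c : ℕ → V) (v : V) (h : ∀ i, c i = v) (n : ℕ) : holF lab c n = 1 := by
  induction n with
  | zero => rfl
  | succ n ih => rw [holF_succ, ih, h, h, lb_self, one_mul]

/-- Three corners of a square are in a face. -/
theorem t1_three {V : Type} [Fintype V] [DecidableEq V] {K : Cpx V} {v0 : V} {g l m : ℕ} {c D : ℕ → ℕ → V} (hD : Disc K v0 g l m c D) (i j : ℕ)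
    {x y z : V} (hx : x ∈ sqr D i j) (hy : y ∈ sqr D i j) (hz : z ∈ sqr D i j) : ({x, y, z} : Finset V) ∈ K.faces := by
  refine K.down _ (hD.sq i j) _ ?_ ⟨x, by simp⟩
  intro t ht
  simp only [Finset.mem_insert, Finset.mem_singleton] at ht
  rcases ht with rfl | rfl | rfl
  · exact hx
  · exact hy
  · exact hz

theorem t1_c00 {W : Type} [DecidableEq W] (F : ℕ → ℕ → W) (i j : ℕ) : F i j ∈ sqr F i j := by simp [sqr]
theorem t1_c10 {W : Type} [DecidableEq W] (F : ℕ → ℕ → W) (i j : ℕ) : F (i + 1) j ∈ sqr F i j := by simp [sqr]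
theorem t1_c01 {W : Type} [DecidableEq W] (F : ℕ → ℕ → W) (i j : ℕ) : F i (j + 1) ∈ sqr F i j := by simp [sqr]
theorem t1_c11 {W : Type} [DecidableEq W] (F : ℕ → ℕ → W) (i j : ℕ) : F (i + 1) (j + 1) ∈ sqr F i j := by simp [sqr]

theorem t1_vert {V : Type} [Fintype V] [DecidableEq V] {K : Cpx V} {H : Type} [Group H] {lab : V → V → H} (h : Flat K lab)
    {v0 : V} {g l m : ℕ} {c D : ℕ → ℕ → V} (hD : Disc K v0 g l m c D) (i j : ℕ) :
    holF lab (fun i' => D i' j) i * lb lab (D i j) (D i (j + 1)) = holF lab (fun i' => D i' (j + 1)) i := by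
  induction i with
  | zero =>
    rw [hD.left, hD.left, lb_self, mul_one]
    rfl
  | succ i ih =>
    rw [holF_succ, holF_succ, ← ih, mul_assoc, mul_assoc]
    congr 1
    rw [lb_mul h _ _ _ (t1_three hD i j (t1_c00 D i j) (t1_c10 D i j) (t1_c11 D i j)),
      lb_mul h _ _ _ (t1_three hD i j (t1_c00 D i j) (t1_c01 D i j) (t1_c11 D i j))]

/-- The holonomy to a corner of a square. -/
theorem t1_corner {V P : Type} [Fintype V] [DecidableEq V] [DecidableEq P] {K : Cpx V} {μ : V → V → Equiv.Perm P} (hμ : Flat K μ)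
    {v0 : V} {g l m : ℕ} {c D : ℕ → ℕ → V} (hD : Disc K v0 g l m c D) (x : P) (i j : ℕ) {y : V × P} (hy : y ∈ sqr (Dl μ D x) i j) :
    y.1 ∈ sqr D i j ∧ y.2 = (holF μ (fun i' => D i' j) i * lb μ (D i j) y.1)⁻¹ x := by
  simp only [sqr, Finset.mem_insert, Finset.mem_singleton] at hy
  rcases hy with rfl | rfl | rfl | rfl
  · refine ⟨t1_c00 D i j, ?_⟩
    show _ = (_ * lb μ (D i j) (D i j))⁻¹ x
    rw [lb_self, mul_one]
    rfl
  · refine ⟨t1_c10 D i j, ?_⟩
    show (holF μ (fun i' => D i' j) (i + 1))⁻¹ x = _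
    rw [holF_succ]
    rfl
  · refine ⟨t1_c01 D i j, ?_⟩
    show (holF μ (fun i' => D i' (j + 1)) i)⁻¹ x = _
    rw [← t1_vert hμ hD i j]
    rfl
  · refine ⟨t1_c11 D i j, ?_⟩
    show (holF μ (fun i' => D i' (j + 1)) (i + 1))⁻¹ x = _
    rw [← t1_vert hμ hD (i + 1) j, holF_succ, mul_assoc, lb_mul hμ _ _ _ (t1_three hD i j (t1_c00 D i j) (t1_c10 D i j) (t1_c11 D i j))]
    rfl

theorem dl_sq {V P : Type} [Fintype V] [DecidableEq V] [Fintype P] [DecidableEq P] {K : Cpx V} {μ : V → V → Equiv.Perm P} (hμ : Flat K μ)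
    {v0 : V} {g l m : ℕ} {c D : ℕ → ℕ → V} (hD : Disc K v0 g l m c D) (x : P) (i j : ℕ) : sqr (Dl μ D x) i j ∈ (coverCpx K μ).faces := by
  refine Finset.mem_filter.2 ⟨Finset.mem_univ _, ?_, ?_⟩
  · have h1 : (sqr (Dl μ D x) i j).image Prod.fst = sqr D i j := by
      unfold sqr
      simp only [Finset.image_insert, Finset.image_singleton]
      rfl
    rw [h1]
    exact hD.sq i j
  · intro y hy z hz hyz
    obtain ⟨hy1, hy2⟩ := t1_corner hμ hD x i j hy
    obtain ⟨hz1, hz2⟩ := t1_corner hμ hD x i j hz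
    have hne : y.1 ≠ z.1 := by
      intro h
      apply hyz
      refine Prod.ext h ?_
      rw [hy2, hz2, h]
    refine ⟨hne, ?_⟩
    have h1 := lb_mul hμ (D i j) y.1 z.1 (t1_three hD i j (t1_c00 D i j) hy1 hz1)
    rw [hy2, hz2, ← h1, t1_ne μ hne, ← mul_assoc, mul_inv_rev _ (μ y.1 z.1), Equiv.Perm.mul_apply, Equiv.Perm.inv_def (μ y.1 z.1), Equiv.apply_symm_apply]

theorem dl_left {V P : Type} [Fintype V] [DecidableEq V] {K : Cpx V} {μ : V → V → Equiv.Perm P}
    {v0 : V} {g l m : ℕ} {c D : ℕ → ℕ → V} (hD : Disc K v0 g l m c D) (x : P) (j : ℕ) : Dl μ D x 0 j = (v0, x) := by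
  unfold Dl
  rw [hD.left]
  rfl

theorem dl_top {V P : Type} [Fintype V] [DecidableEq V] {K : Cpx V} {μ : V → V → Equiv.Perm P}
    {v0 : V} {g l m : ℕ} {c D : ℕ → ℕ → V} (hD : Disc K v0 g l m c D) (x : P) (i j : ℕ) (hj : m ≤ j) : Dl μ D x i j = (v0, x) := by
  unfold Dl
  rw [hD.top i j hj, t1_const μ (fun i' => D i' j) v0 (fun i' => hD.top i' j hj) i]
  rfl

theorem dl_right {V P : Type} [Fintype V] [DecidableEq V] {K : Cpx V} {μ : V → V → Equiv.Perm P} (hμ : Flat K μ)
    {v0 : V} {g l m : ℕ} {c D : ℕ → ℕ → V} (hD : Disc K v0 g l m c D) (x : P) (i j : ℕ) (hi : 4 * g * l ≤ i) : Dl μ D x i j = (v0, x) := by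
  have h1 : ∀ k, holF μ (fun i' => D i' j) i = holF μ (fun i' => D i' (j + k)) i := by
    intro k
    induction k with
    | zero => rfl
    | succ k ih =>
      rw [ih]
      have := t1_vert hμ hD i (j + k)
      rw [hD.right i _ hi, hD.right i _ hi, lb_self, mul_one] at this
      exact this
  unfold Dl
  rw [hD.right i j hi, h1 m, t1_const μ (fun i' => D i' (j + m)) v0 (fun i' => hD.top i' (j + m) (by omega)) i]
  rfl

theorem dl_inj {V P : Type} [DecidableEq V] (μ : V → V → Equiv.Perm P) (D : ℕ → ℕ → V) (x x' : P) (i j : ℕ) (h : Dl μ D x i j = Dl μ D x' i j) :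
    x = x' :=
  (holF μ (fun i' => D i' j) i)⁻¹.injective (Prod.mk.inj h).2

end H32N
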