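import Pool.Agent.Lib.H32N.T1

set_option autoImplicit false

/-!
# H32N, chunk T2 (M): the bottom row of the lift

`h i = holF μ (fun i' => D i' 0) i`. Splitting: `h (s l + i) = h (s l) * (product of lb over the steps s l, .., s l + i - 1)`. By `Disc.bottom` the vertices on the side `s` are `c k i`,
resp. `c k (l - i)`, `k = gen s`. Positive side: the partial product is `holF μ (c k) i`. Negative side: it is `(holF μ (c k) l)⁻¹ * holF μ (c k) (l - i)` (induction on `i`, `lb_inv`).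
So `h (s l) = (H98T.u σ s)⁻¹` by induction on `s ≤ 4 g` (`holF μ (c k) l = (σ k)⁻¹`, `tau = σ k` or `(σ k)⁻¹`), and
* positive: `(h (s l + i))⁻¹ x = (holF μ (c k) i)⁻¹ (u σ s x)`,
* negative: `(h (s l + i))⁻¹ x = (holF μ (c k) (l - i))⁻¹ ((σ k)⁻¹ (u σ s x))` and `(σ k)⁻¹ (u σ s x) = u σ (s + 1) x`.
The index `gen s` of `H32N` and the value of `H98T.gen s` are equal (`rfl`).
`comm_eq`: induction on the number of commutators: for `i ≤ g` the partial product is `(u σ (4 i))⁻¹`.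

Auxiliary names start with `t2_`.
-/

open Finset

namespace H32N

open H32D

theorem t2_split {V H : Type} [DecidableEq V] [Group H] (lab : V → V → H) (c : ℕ → V) (a n : ℕ) :
    holF lab c (a + n) = holF lab c a * holF lab (fun i => c (a + i)) n := by
  induction n with
  | zero => 
    show holF lab c a = holF lab c a * 1
    rw [mul_one]
  | succ n ih => rw [← add_assoc, holF_succ, ih, holF_succ, mul_assoc]; rfl

theorem t2_u_succ {P : Type} {g : ℕ} (σ : Fin (2 * g) → Equiv.Perm P) (s : Fin (4 * g)) :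
    H98T.u σ (s.val + 1) = H98T.tau σ s * H98T.u σ s.val := by
  show (if h : s.val < 4 * g then H98T.tau σ ⟨s.val, h⟩ * H98T.u σ s.val else H98T.u σ s.val) = _
  rw [dif_pos s.isLt]

theorem t2_side {V P : Type} [Fintype V] [DecidableEq V] {K : Cpx V} {μ : V → V → Equiv.Perm P} (hμ : Flat K μ)
    {v0 : V} {g l m : ℕ} {c D : ℕ → ℕ → V} (hD : Disc K v0 g l m c D) (s : Fin (4 * g)) (i : ℕ) (hi : i ≤ l) :
    holF μ (fun i' => D (s.val * l + i') 0) i = if s.val % 4 < 2 then holF μ (c (H98T.gen s).val) i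
      else (holF μ (c (H98T.gen s).val) l)⁻¹ * holF μ (c (H98T.gen s).val) (l - i) := by
  have hgen : H32N.gen s.val = (H98T.gen s).val := rfl
  induction i with
  | zero =>
    split_ifs
    · rfl
    · rw [Nat.sub_zero, inv_mul_cancel]
      rfl
  | succ i ih =>
    have h1 := hD.bottom s.val s.isLt i (by omega)
    have h2 := hD.bottom s.val s.isLt (i + 1) hi
    rw [hgen] at h1 h2
    rw [holF_succ, ih (by omega)]
    by_cases h4 : s.val % 4 < 2
    · rw [if_pos h4] at h1 h2 ⊢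
      rw [if_pos h4, holF_succ, h1, h2]
    · rw [if_neg h4] at h1 h2 ⊢
      rw [if_neg h4, h1, h2]
      obtain ⟨j, hj⟩ : ∃ j, l - i = j + 1 := ⟨l - i - 1, by omega⟩
      have hj' : l - (i + 1) = j := by omega
      rw [hj, hj', holF_succ, lb_inv μ hμ.inv (c (H98T.gen s).val j) (c (H98T.gen s).val (j + 1))]
      group

theorem t2_corner {V P : Type} [Fintype V] [DecidableEq V] {K : Cpx V} {μ : V → V → Equiv.Perm P} (hμ : Flat K μ)
    {v0 : V} {g l m : ℕ} {c D : ℕ → ℕ → V} (hD : Disc K v0 g l m c D) (σ : Fin (2 * g) → Equiv.Perm P) (hσ : Hol μ c l σ) (s : ℕ) (hs : s ≤ 4 * g) :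
    holF μ (fun i => D i 0) (s * l) = (H98T.u σ s)⁻¹ := by
  induction s with
  | zero =>
    rw [zero_mul]
    show (1 : Equiv.Perm P) = (1 : Equiv.Perm P)⁻¹
    rw [inv_one]
  | succ s ih =>
    obtain ⟨s', hs'⟩ : ∃ s' : Fin (4 * g), s'.val = s := ⟨⟨s, hs⟩, rfl⟩
    subst hs'
    rw [t2_u_succ, Nat.succ_mul, t2_split, ih (by omega), t2_side hμ hD s' l le_rfl]
    unfold H98T.tau
    split_ifs with h4
    · rw [hσ, mul_inv_rev]
    · rw [hσ, inv_inv, Nat.sub_self, mul_inv_rev, inv_inv]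
      show _ * (_ * 1) = _
      rw [mul_one]

theorem dl_bottom {V P : Type} [Fintype V] [DecidableEq V] {K : Cpx V} {μ : V → V → Equiv.Perm P} (hμ : Flat K μ)
    {v0 : V} {g l m : ℕ} {c D : ℕ → ℕ → V} (hD : Disc K v0 g l m c D) (σ : Fin (2 * g) → Equiv.Perm P) (hσ : Hol μ c l σ) (x : P) (s : Fin (4 * g))
    (i : ℕ) (hi : i ≤ l) : Dl μ D x (s.val * l + i) 0 =
      if s.val % 4 < 2 then El μ c (H98T.gen s).val (H98T.u σ s.val x) i else El μ c (H98T.gen s).val (H98T.u σ (s.val + 1) x) (l - i) := by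
  have hgen : H32N.gen s.val = (H98T.gen s).val := rfl
  have h1 := hD.bottom s.val s.isLt i hi
  rw [hgen] at h1
  have h2 : holF μ (fun i' => D i' 0) (s.val * l + i) = (H98T.u σ s.val)⁻¹ * holF μ (fun i' => D (s.val * l + i') 0) i := by
    rw [t2_split, t2_corner hμ hD σ hσ s.val s.isLt.le]
  rw [t2_side hμ hD s i hi] at h2
  unfold Dl El
  rw [h1, h2, t2_u_succ]
  unfold H98T.tau
  split_ifs with h4
  · rw [mul_inv_rev, inv_inv]
    rfl
  · rw [hσ, inv_inv, mul_inv_rev, mul_inv_rev, inv_inv]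
    rfl

theorem el_start {V P : Type} [Fintype V] [DecidableEq V] {K : Cpx V} {μ : V → V → Equiv.Perm P} {v0 : V} {g l m : ℕ} {c D : ℕ → ℕ → V}
    (hD : Disc K v0 g l m c D) (k : ℕ) (v : P) : El μ c k v 0 = (v0, v) := by
  unfold El
  rw [hD.c0]
  rfl

theorem el_end {V P : Type} [Fintype V] [DecidableEq V] {K : Cpx V} {μ : V → V → Equiv.Perm P} {v0 : V} {g l m : ℕ} {c D : ℕ → ℕ → V}
    (hD : Disc K v0 g l m c D) (σ : Fin (2 * g) → Equiv.Perm P) (hσ : Hol μ c l σ) (k : Fin (2 * g)) (v : P) : El μ c k.val v l = (v0, σ k v) := by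
  unfold El
  rw [hD.cl k.val k.isLt l le_rfl, hσ, inv_inv]

theorem t2_comm {P : Type} {g : ℕ} (σ : Fin (2 * g) → Equiv.Perm P) (i : ℕ) (hi : i ≤ g) :
    comm i (fun k => if h : k < 2 * g then (σ ⟨k, h⟩)⁻¹ else 1) = (H98T.u σ (4 * i))⁻¹ := by
  induction i with
  | zero =>
    show (1 : Equiv.Perm P) = (1 : Equiv.Perm P)⁻¹
    rw [inv_one]
  | succ i ih =>
    have e : ∀ (σ' : ℕ → Equiv.Perm P), comm (i + 1) σ' = comm i σ' * cm (σ' (2 * i)) (σ' (2 * i + 1)) := by
      intro σ'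
      unfold comm
      rw [List.range_succ, List.map_append, List.prod_append]
      simp
    have tt : ∀ s : Fin (4 * g), H98T.tau σ s = if s.val % 4 < 2 then σ (H98T.gen s) else (σ (H98T.gen s))⁻¹ := fun _ => rfl
    have u1 := t2_u_succ σ ⟨4 * i, by omega⟩
    have u2 := t2_u_succ σ ⟨4 * i + 1, by omega⟩
    have u3 := t2_u_succ σ ⟨4 * i + 2, by omega⟩
    have u4 := t2_u_succ σ ⟨4 * i + 3, by omega⟩
    simp only [tt] at u1 u2 u3 u4
    rw [if_pos (by omega)] at u1 u2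
    rw [if_neg (by omega)] at u3 u4
    have g1 : H98T.gen (⟨4 * i, by omega⟩ : Fin (4 * g)) = ⟨2 * i, by omega⟩ := by
      apply Fin.ext
      show 2 * (4 * i / 4) + 4 * i % 2 = 2 * i
      omega
    have g2 : H98T.gen (⟨4 * i + 1, by omega⟩ : Fin (4 * g)) = ⟨2 * i + 1, by omega⟩ := by
      apply Fin.ext
      show 2 * ((4 * i + 1) / 4) + (4 * i + 1) % 2 = 2 * i + 1
      omega
    have g3 : H98T.gen (⟨4 * i + 2, by omega⟩ : Fin (4 * g)) = ⟨2 * i, by omega⟩ := by
      apply Fin.ext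
      show 2 * ((4 * i + 2) / 4) + (4 * i + 2) % 2 = 2 * i
      omega
    have g4 : H98T.gen (⟨4 * i + 3, by omega⟩ : Fin (4 * g)) = ⟨2 * i + 1, by omega⟩ := by
      apply Fin.ext
      show 2 * ((4 * i + 3) / 4) + (4 * i + 3) % 2 = 2 * i + 1
      omega
    rw [g1] at u1
    rw [g2] at u2
    rw [g3] at u3
    rw [g4] at u4
    have e4 : 4 * (i + 1) = 4 * i + 3 + 1 := by ring
    rw [e, ih (by omega), dif_pos (by omega), dif_pos (by omega), e4, u4, u3, u2, u1]
    unfold cm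
    group

theorem comm_eq {P : Type} {g : ℕ} (σ : Fin (2 * g) → Equiv.Perm P) :
    comm g (fun k => if h : k < 2 * g then (σ ⟨k, h⟩)⁻¹ else 1) = (H98T.u σ (4 * g))⁻¹ :=
  t2_comm σ g le_rfl

end H32N
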