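import Pool.Agent.Lib.H32N.TDefs

set_option autoImplicit false

/-!
# H32N, chunk T3 (M): interpolation

* `tent_sum`: induction on `M`: for `p ≤ M` the new term `tent (p - (M + 1))` is `0`; for `M ≤ p ≤ M + 1` only the last two terms are not `0` and they add up to `1`
  (case `M = 0`: `p = 0`).
* `in2_mem`: nonnegative; the sum over `w` is `(∑ i, tent (p - i)) * (∑ j, tent (q - j)) = 1`; if the value at `w` is not `0` then `F i j = w` for some `i, j` with
  `|p - i| < 1`, `|q - j| < 1`, so `i ∈ {⌊p⌋₊, ⌊p⌋₊ + 1}` and the same for `j`. The set of these `w` is nonempty (the sum is `1`) and contained in the face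
  `sqr F ⌊p⌋₊ ⌊q⌋₊`, `Cpx.down`.
* `in2_cont`: a finite sum of continuous functions (`continuous_pi`).

Auxiliary names start with `t3_`.
-/

open Finset

namespace H32N

open H32D

theorem tent_nonneg (t : ℝ) : 0 ≤ tent t := le_max_left _ _

theorem tent_zero : tent 0 = 1 := by
  unfold tent
  rw [abs_zero, sub_zero]
  exact max_eq_right (by norm_num)

theorem tent_of_ge (t : ℝ) (h : 1 ≤ |t|) : tent t = 0 := by
  unfold tent
  exact max_eq_left (by linarith)

theorem tent_cont : Continuous tent := by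
  unfold tent
  fun_prop

theorem t3_eq (t : ℝ) (h : |t| ≤ 1) : tent t = 1 - |t| := by
  unfold tent
  exact max_eq_right (by linarith)

theorem t3_lt {t : ℝ} (h : tent t ≠ 0) : |t| < 1 := by
  by_contra h'
  exact h (tent_of_ge t (not_lt.1 h'))

theorem tent_sum (M : ℕ) (p : ℝ) (h0 : 0 ≤ p) (h1 : p ≤ M) : ∑ i ∈ range (M + 1), tent (p - i) = 1 := by
  induction M with
  | zero =>
    have hp : p = 0 := le_antisymm (by simpa using h1) h0
    subst hp
    simp [tent_zero]
  | succ M ih =>
    rw [Finset.sum_range_succ]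
    by_cases hM : p ≤ M
    · rw [ih hM, tent_of_ge, add_zero]
      push_cast
      rw [abs_of_nonpos (by linarith)]
      linarith
    · push Not at hM
      have h1' : p ≤ M + 1 := by push_cast at h1; exact h1
      rw [Finset.sum_range_succ]
      have hz : ∑ i ∈ range M, tent (p - i) = 0 := by
        refine Finset.sum_eq_zero fun i hi => tent_of_ge _ ?_
        have hi' : (i : ℝ) + 1 ≤ M := by exact_mod_cast Finset.mem_range.1 hi
        rw [abs_of_nonneg (by linarith)]
        linarith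
      rw [hz, t3_eq, t3_eq, abs_of_nonneg, abs_of_nonpos]
      · push_cast; ring
      · push_cast; linarith
      · linarith
      · push_cast
        rw [abs_of_nonpos (by linarith)]
        linarith
      · rw [abs_of_nonneg (by linarith)]
        linarith

theorem t3_floor {p : ℝ} (hp : 0 ≤ p) (i : ℕ) (h : |p - i| < 1) : i = ⌊p⌋₊ ∨ i = ⌊p⌋₊ + 1 := by
  rw [abs_lt] at h
  have h1 := Nat.floor_le hp
  have h2 := Nat.lt_floor_add_one p
  have h3 : ((⌊p⌋₊ : ℕ) : ℝ) < i + 1 := by linarith
  have h4 : (i : ℝ) < ((⌊p⌋₊ : ℕ) : ℝ) + 2 := by linarith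
  have h3' : ⌊p⌋₊ < i + 1 := by exact_mod_cast h3
  have h4' : i < ⌊p⌋₊ + 2 := by exact_mod_cast h4
  omega

theorem in2_mem {W : Type} [Fintype W] [DecidableEq W] (L : Cpx W) (M m : ℕ) (F : ℕ → ℕ → W) (hF : ∀ i j, sqr F i j ∈ L.faces) (p q : ℝ)
    (hp : 0 ≤ p) (hpM : p ≤ M) (hq : 0 ≤ q) (hqm : q ≤ m) : in2 M m F p q ∈ L.cell (sqr F ⌊p⌋₊ ⌊q⌋₊) := by
  have hnn : ∀ w, 0 ≤ in2 M m F p q w := by
    intro w
    refine Finset.sum_nonneg fun i _ => Finset.sum_nonneg fun j _ => ?_
    split_ifs
    · exact mul_nonneg (tent_nonneg _) (tent_nonneg _)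
    · exact le_rfl
  have hsum : ∑ w, in2 M m F p q w = 1 := by
    unfold in2
    rw [Finset.sum_comm]
    have h1 : ∀ i ∈ range (M + 1), ∑ w : W, ∑ j ∈ range (m + 1), (if F i j = w then tent (p - i) * tent (q - j) else 0) = tent (p - i) := by
      intro i _
      rw [Finset.sum_comm]
      have h2 : ∀ j ∈ range (m + 1), ∑ w : W, (if F i j = w then tent (p - i) * tent (q - j) else 0) = tent (p - i) * tent (q - j) := by
        intro j _
        rw [Finset.sum_ite_eq]
        simp
      rw [Finset.sum_congr rfl h2, ← Finset.mul_sum, tent_sum m q hq hqm, mul_one]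
    rw [Finset.sum_congr rfl h1, tent_sum M p hp hpM]
  have hsupp : ∀ w, in2 M m F p q w ≠ 0 → w ∈ sqr F ⌊p⌋₊ ⌊q⌋₊ := by
    intro w hw
    obtain ⟨i, -, hi⟩ := Finset.exists_ne_zero_of_sum_ne_zero hw
    obtain ⟨j, -, hj⟩ := Finset.exists_ne_zero_of_sum_ne_zero hi
    have hFw : F i j = w := by
      by_contra h
      rw [if_neg h] at hj
      exact hj rfl
    rw [if_pos hFw] at hj
    have h1 := t3_floor hp i (t3_lt (left_ne_zero_of_mul hj))
    have h2 := t3_floor hq j (t3_lt (right_ne_zero_of_mul hj))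
    rw [← hFw]
    unfold sqr
    rcases h1 with rfl | rfl <;> rcases h2 with rfl | rfl <;> simp
  refine ⟨⟨hnn, hsum, ?_⟩, ?_⟩
  · refine L.down _ (hF ⌊p⌋₊ ⌊q⌋₊) _ ?_ ?_
    · intro w hw
      exact hsupp w (Finset.mem_filter.1 hw).2
    · obtain ⟨w, -, hw⟩ := Finset.exists_ne_zero_of_sum_ne_zero (by rw [hsum]; exact one_ne_zero)
      exact ⟨w, Finset.mem_filter.2 ⟨Finset.mem_univ _, hw⟩⟩
  · intro w hw
    by_contra h
    exact hw (hsupp w h)

theorem in2_cont {W : Type} [Fintype W] [DecidableEq W] (M m : ℕ) (F : ℕ → ℕ → W) : Continuous (fun z : ℝ × ℝ => in2 M m F z.1 z.2) := by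
  refine continuous_pi fun w => ?_
  unfold in2
  refine continuous_finsetSum _ fun i _ => continuous_finsetSum _ fun j _ => ?_
  split_ifs
  · exact (tent_cont.comp (continuous_fst.sub continuous_const)).mul (tent_cont.comp (continuous_snd.sub continuous_const))
  · exact continuous_const

end H32N
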