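import Pool.Agent.Lib.H32N.T3

set_option autoImplicit false

/-!
# H32N, chunk T4 (M): the boundary of the interpolated grid

* `in1_start`, `in1_end`: `tent` of an integer is `0` except at `0`.
* `in2_col`: `F i0 j = w0` for all `j ≤ m`, `p = i0`: the value at `w` is `∑ j, if w0 = w then tent (q - j) else 0`, `tent_sum`. `in2_top` is the same in the other coordinate.
* `in2_bottom`: `tent (0 - j) = 0` for `j ≥ 1`; for `0 ≤ p ≤ l` the terms with `i < a` or `i > a + l` vanish (`tent_of_ge`), reindex `i = a + i'`.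
* `in1_rev`: `Finset.sum_range_reflect`, `tent (-t) = tent t`.

Auxiliary names start with `t4_`.
-/

open Finset

namespace H32N

open H32D

theorem in1_congr {W : Type} [DecidableEq W] (l : ℕ) (c c' : ℕ → W) (h : ∀ i, i ≤ l → c i = c' i) (p : ℝ) : in1 l c p = in1 l c' p := by
  funext w
  unfold in1
  refine Finset.sum_congr rfl fun i hi => ?_
  rw [h i (Nat.lt_succ_iff.1 (Finset.mem_range.1 hi))]

theorem t4_nat {i j : ℕ} (h : i ≠ j) : tent ((i : ℝ) - j) = 0 := by
  apply tent_of_ge
  have h1 : (1 : ℤ) ≤ |(i : ℤ) - j| := by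
    exact Int.one_le_abs (by omega)
  exact_mod_cast h1

/-- Interpolation of a sequence at an integer. -/
theorem t4_at {W : Type} [DecidableEq W] (l : ℕ) (c : ℕ → W) (a : ℕ) (ha : a ≤ l) : in1 l c (a : ℝ) = Pi.single (c a) 1 := by
  funext w
  unfold in1
  rw [Finset.sum_eq_single a]
  · by_cases h : c a = w
    · rw [if_pos h, sub_self, tent_zero, h, Pi.single_eq_same]
    · rw [if_neg h, Pi.single_eq_of_ne (Ne.symm h)]
  · intro i _ hi
    split_ifs
    · exact t4_nat (Ne.symm hi)
    · rfl
  · intro h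
    exact absurd (Finset.mem_range.2 (Nat.lt_succ_of_le ha)) h

theorem in1_start {W : Type} [DecidableEq W] (l : ℕ) (c : ℕ → W) : in1 l c 0 = Pi.single (c 0) 1 := by
  have := t4_at l c 0 (Nat.zero_le _)
  rw [Nat.cast_zero] at this
  exact this

theorem in1_end {W : Type} [DecidableEq W] (l : ℕ) (c : ℕ → W) : in1 l c l = Pi.single (c l) 1 := t4_at l c l le_rfl

theorem in2_col {W : Type} [DecidableEq W] (M m : ℕ) (F : ℕ → ℕ → W) (i0 : ℕ) (hi : i0 ≤ M) (w0 : W) (h : ∀ j, j ≤ m → F i0 j = w0) (q : ℝ)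
    (hq : 0 ≤ q) (hqm : q ≤ m) : in2 M m F i0 q = Pi.single w0 1 := by
  funext w
  unfold in2
  rw [Finset.sum_eq_single i0]
  · rw [sub_self, tent_zero]
    have h1 : ∀ j ∈ range (m + 1), (if F i0 j = w then 1 * tent (q - j) else 0) = if w0 = w then tent (q - j) else 0 := by
      intro j hj
      rw [h j (Nat.lt_succ_iff.1 (Finset.mem_range.1 hj)), one_mul]
    rw [Finset.sum_congr rfl h1]
    by_cases hw : w0 = w
    · subst hw
      simp only [if_true]
      rw [tent_sum m q hq hqm, Pi.single_eq_same]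
    · simp only [if_neg hw]
      rw [Finset.sum_const_zero, Pi.single_eq_of_ne (Ne.symm hw)]
  · intro i _ hne
    refine Finset.sum_eq_zero fun j _ => ?_
    rw [t4_nat (Ne.symm hne), zero_mul, ite_self]
  · intro h'
    exact absurd (Finset.mem_range.2 (Nat.lt_succ_of_le hi)) h'

theorem in2_top {W : Type} [DecidableEq W] (M m : ℕ) (F : ℕ → ℕ → W) (w0 : W) (h : ∀ i, i ≤ M → F i m = w0) (p : ℝ)
    (hp : 0 ≤ p) (hpM : p ≤ M) : in2 M m F p m = Pi.single w0 1 := by
  have e : in2 M m F p m = in2 m M (fun j i => F i j) m p := by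
    funext w
    unfold in2
    rw [Finset.sum_comm]
    refine Finset.sum_congr rfl fun j _ => Finset.sum_congr rfl fun i _ => ?_
    rw [mul_comm]
  rw [e]
  exact in2_col m M (fun j i => F i j) m le_rfl w0 h p hp hpM

theorem in2_bottom {W : Type} [DecidableEq W] (M m : ℕ) (F : ℕ → ℕ → W) (a l : ℕ) (ha : a + l ≤ M) (p : ℝ) (hp : 0 ≤ p) (hpl : p ≤ l) :
    in2 M m F (a + p) 0 = in1 l (fun i => F (a + i) 0) p := by
  funext w
  unfold in2 in1
  have h1 : ∀ i ∈ range (M + 1), ∑ j ∈ range (m + 1), (if F i j = w then tent ((a : ℝ) + p - i) * tent (0 - (j : ℝ)) else 0) =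
      if F i 0 = w then tent ((a : ℝ) + p - i) else 0 := by
    intro i _
    rw [Finset.sum_eq_single 0]
    · rw [Nat.cast_zero, sub_zero, tent_zero, mul_one]
    · intro j _ hj
      have : tent (0 - (j : ℝ)) = 0 := by
        have := t4_nat (i := 0) (j := j) (Ne.symm hj)
        rw [Nat.cast_zero] at this
        exact this
      rw [this, mul_zero, ite_self]
    · intro h
      exact absurd (Finset.mem_range.2 (Nat.succ_pos m)) h
  rw [Finset.sum_congr rfl h1]
  have h2 : ∑ i ∈ range (l + 1), (if F (a + i) 0 = w then tent (p - i) else 0) =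
      ∑ i ∈ Finset.Ico a (a + (l + 1)), (if F i 0 = w then tent ((a : ℝ) + p - i) else 0) := by
    rw [Finset.sum_Ico_eq_sum_range, Nat.add_sub_cancel_left]
    refine Finset.sum_congr rfl fun i _ => ?_
    have : (a : ℝ) + p - ((a + i : ℕ) : ℝ) = p - i := by push_cast; ring
    rw [this]
  rw [h2]
  symm
  refine Finset.sum_subset ?_ ?_
  · intro i hi
    rw [Finset.mem_Ico] at hi
    rw [Finset.mem_range]
    omega
  · intro i _ hi
    rw [Finset.mem_Ico, not_and_or, not_le, not_lt] at hi
    have : tent ((a : ℝ) + p - i) = 0 := by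
      apply tent_of_ge
      rcases hi with hi | hi
      · have : (i : ℝ) + 1 ≤ a := by exact_mod_cast hi
        rw [abs_of_nonneg (by linarith)]
        linarith
      · have : (a : ℝ) + (l + 1) ≤ i := by exact_mod_cast hi
        rw [abs_of_nonpos (by linarith)]
        linarith
    rw [this, ite_self]

theorem t4_neg (t : ℝ) : tent (-t) = tent t := by
  unfold tent
  rw [abs_neg]

theorem in1_rev {W : Type} [DecidableEq W] (l : ℕ) (c : ℕ → W) (p : ℝ) : in1 l (fun i => c (l - i)) p = in1 l c (l - p) := by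
  funext w
  unfold in1
  rw [← Finset.sum_range_reflect]
  refine Finset.sum_congr rfl fun i hi => ?_
  have hi' : i ≤ l := Nat.lt_succ_iff.1 (Finset.mem_range.1 hi)
  have e1 : l + 1 - 1 - i = l - i := by omega
  have e2 : l - (l - i) = i := by omega
  rw [e1]
  show (if c (l - (l - i)) = w then tent (p - ((l - i : ℕ) : ℝ)) else 0) = _
  rw [e2, Nat.cast_sub hi', ← t4_neg]
  congr 2
  ring

/-- The interpolated sequence lies in the realization. -/
theorem in1_mem {W : Type} [Fintype W] [DecidableEq W] (L : Cpx W) (l : ℕ) (c : ℕ → W) (hF : ∀ i, ({c i, c (i + 1)} : Finset W) ∈ L.faces) (p : ℝ)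
    (hp : 0 ≤ p) (hpl : p ≤ l) : in1 l c p ∈ L.real := by
  have h1 := in2_bottom l 0 (fun i _ => c i) 0 l (by omega) p hp hpl
  rw [Nat.cast_zero, zero_add] at h1
  have h2 : (fun i => (fun (i : ℕ) (_ : ℕ) => c i) (0 + i) 0) = c := by
    funext i
    show c (0 + i) = c i
    rw [zero_add]
  rw [h2] at h1
  rw [← h1]
  refine (in2_mem L l 0 (fun i _ => c i) ?_ p 0 hp hpl le_rfl (by simp)).1
  intro i j
  have h3 : sqr (fun (i : ℕ) (_ : ℕ) => c i) i j = {c i, c (i + 1)} := by
    unfold sqr
    ext x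
    simp only [Finset.mem_insert, Finset.mem_singleton]
    tauto
  rw [h3]
  exact hF i

theorem in1_cont {W : Type} [Fintype W] [DecidableEq W] (l : ℕ) (c : ℕ → W) : Continuous (fun p : ℝ => in1 l c p) := by
  refine continuous_pi fun w => ?_
  unfold in1
  refine continuous_finsetSum _ fun i _ => ?_
  split_ifs
  · exact tent_cont.comp (continuous_id.sub continuous_const)
  · exact continuous_const

end H32N
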