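import Pool.Agent.Lib.H32N.TDefs

set_option autoImplicit false

/-!
# H32N, chunk T5 (M): lattice points

* `fp_close`: `|s y_i - s y'_i| < 1` implies that the floors differ by at most `1`; `|y_i - y'_i| ≤ dist y y'` (`EuclideanSpace.dist_eq`, or `PiLp.norm_apply_le`).
* `fp_dist`: if `fp s y = fp s y'` then `|s y_i - s y'_i| < 1` for all `i`, so `dist y y' ≤ √n / s < 1` for `s = 4 (n + 1)`.
* `fp_bound`: `|⌊s y_i⌋| ≤ s R + 1`.
* `unif`: for each `x` the function is uniformly continuous on the compact rectangle (`IsCompact.uniformContinuousOn_of_continuous`), take the minimum of the finitely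
  many `δ` (or one function with values in `P → EuclideanSpace ℝ (Fin n)`), and `N > 1 / δ`.

Auxiliary names start with `t5_`.
-/

open Finset

namespace H32N

open H32D

theorem t5_coord {n : ℕ} (y y' : EuclideanSpace ℝ (Fin n)) (i : Fin n) : |y i - y' i| ≤ dist y y' := by
  have h := PiLp.norm_apply_le (y - y') i
  rw [dist_eq_norm]
  simpa [Real.norm_eq_abs] using h

theorem t5_floor {a b : ℝ} (h : |a - b| < 1) : |⌊a⌋ - ⌊b⌋| ≤ 1 := by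
  rw [abs_lt] at h
  rw [abs_le]
  have h1 := Int.floor_le a
  have h2 := Int.lt_floor_add_one a
  have h3 := Int.floor_le b
  have h4 := Int.lt_floor_add_one b
  have h5 : ((⌊a⌋ - ⌊b⌋ : ℤ) : ℝ) < 2 := by push_cast; linarith
  have h6 : ((-2 : ℤ) : ℝ) < ((⌊a⌋ - ⌊b⌋ : ℤ) : ℝ) := by push_cast; linarith
  have h5' : ⌊a⌋ - ⌊b⌋ < 2 := by exact_mod_cast h5
  have h6' : -2 < ⌊a⌋ - ⌊b⌋ := by exact_mod_cast h6
  omega

theorem fp_close {n : ℕ} (s : ℝ) (hs : 0 < s) (y y' : EuclideanSpace ℝ (Fin n)) (h : s * dist y y' < 1) : H98T.close (fp s y) (fp s y') := by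
  intro i
  unfold fp
  apply t5_floor
  rw [← mul_sub, abs_mul, abs_of_pos hs]
  exact lt_of_le_of_lt (mul_le_mul_of_nonneg_left (t5_coord y y' i) hs.le) h

theorem fp_dist {n : ℕ} (y y' : EuclideanSpace ℝ (Fin n)) (h : fp (4 * ((n : ℝ) + 1)) y = fp (4 * ((n : ℝ) + 1)) y') : dist y y' < 1 := by
  obtain ⟨s, hs⟩ : ∃ s : ℝ, s = 4 * ((n : ℝ) + 1) := ⟨_, rfl⟩
  have hn : (0 : ℝ) ≤ n := Nat.cast_nonneg n
  have hs0 : 0 < s := by rw [hs]; linarith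
  rw [← hs] at h
  have h1 : ∀ i, (y i - y' i) ^ 2 ≤ (1 / s) ^ 2 := by
    intro i
    have h2 : ⌊s * y i⌋ = ⌊s * y' i⌋ := congrFun h i
    have h3 := Int.abs_sub_lt_one_of_floor_eq_floor h2
    rw [← mul_sub, abs_mul, abs_of_pos hs0] at h3
    have h4 : |y i - y' i| ≤ 1 / s := by
      rw [le_div_iff₀ hs0]
      linarith
    rw [← sq_abs]
    exact pow_le_pow_left₀ (abs_nonneg _) h4 2
  rw [EuclideanSpace.dist_eq, Real.sqrt_lt' one_pos]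
  calc ∑ i, dist (y i) (y' i) ^ 2 = ∑ i, (y i - y' i) ^ 2 := by
        refine Finset.sum_congr rfl fun i _ => ?_
        rw [Real.dist_eq, sq_abs]
    _ ≤ ∑ _i : Fin n, (1 / s) ^ 2 := Finset.sum_le_sum fun i _ => h1 i
    _ = n * (1 / s) ^ 2 := by rw [Finset.sum_const, Finset.card_univ, Fintype.card_fin, nsmul_eq_mul]
    _ < 1 ^ 2 := by
        rw [one_div, inv_pow, ← div_eq_mul_inv, div_lt_iff₀ (by positivity), hs]
        nlinarith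

theorem fp_bound {n : ℕ} (s : ℝ) (hs : 0 < s) (R : ℝ) (y : EuclideanSpace ℝ (Fin n)) (hy : ‖y‖ ≤ R) (N : ℕ) (hN : s * R + 1 ≤ N) (i : Fin n) :
    |fp s y i| ≤ N := by
  have h1 : |y i| ≤ R := by
    have := PiLp.norm_apply_le y i
    rw [Real.norm_eq_abs] at this
    exact this.trans hy
  have h2 : |s * y i| ≤ s * R := by
    rw [abs_mul, abs_of_pos hs]
    exact mul_le_mul_of_nonneg_left h1 hs.le
  rw [abs_le] at h2
  have h3 := Int.floor_le (s * y i)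
  have h4 := Int.lt_floor_add_one (s * y i)
  rw [abs_le]
  unfold fp
  have h5 : ((⌊s * y i⌋ : ℤ) : ℝ) ≤ ((N : ℤ) : ℝ) := by push_cast; linarith
  have h6 : ((-(N : ℤ) : ℤ) : ℝ) ≤ ((⌊s * y i⌋ : ℤ) : ℝ) := by push_cast; linarith
  exact ⟨by exact_mod_cast h6, by exact_mod_cast h5⟩

theorem unif {P : Type} [Fintype P] {n : ℕ} (F : P → ℝ × ℝ → EuclideanSpace ℝ (Fin n)) (a b : ℝ)
    (h : ∀ x, ContinuousOn (F x) (Set.Icc 0 a ×ˢ Set.Icc 0 b)) (ε : ℝ) (hε : 0 < ε) :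
    ∃ N : ℕ, 1 ≤ N ∧ ∀ x, ∀ z ∈ (Set.Icc 0 a ×ˢ Set.Icc 0 b : Set (ℝ × ℝ)), ∀ z' ∈ (Set.Icc 0 a ×ˢ Set.Icc 0 b : Set (ℝ × ℝ)),
      |z.1 - z'.1| ≤ 1 / N → |z.2 - z'.2| ≤ 1 / N → dist (F x z) (F x z') < ε := by
  have hcomp : IsCompact (Set.Icc (0 : ℝ) a ×ˢ Set.Icc (0 : ℝ) b) := isCompact_Icc.prod isCompact_Icc
  have h1 : ∀ x, ∃ δ > 0, ∀ z ∈ (Set.Icc 0 a ×ˢ Set.Icc 0 b : Set (ℝ × ℝ)), ∀ z' ∈ (Set.Icc 0 a ×ˢ Set.Icc 0 b : Set (ℝ × ℝ)),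
      dist z z' < δ → dist (F x z) (F x z') < ε := fun x =>
    Metric.uniformContinuousOn_iff.1 (hcomp.uniformContinuousOn_of_continuous (h x)) ε hε
  choose δ hδ hF using h1
  obtain ⟨δ0, hδ0, hle⟩ : ∃ δ0 : ℝ, 0 < δ0 ∧ ∀ x, δ0 ≤ δ x := by
    by_cases hP : Nonempty P
    · obtain ⟨x0, -, hx0⟩ := Finset.exists_min_image univ δ Finset.univ_nonempty
      exact ⟨δ x0, hδ x0, fun x => hx0 x (Finset.mem_univ _)⟩
    · exact ⟨1, one_pos, fun x => absurd ⟨x⟩ hP⟩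
  obtain ⟨N, hN⟩ := exists_nat_gt (1 / δ0)
  have hN0 : (0 : ℝ) < N := lt_trans (by positivity) hN
  have hN1 : 1 ≤ N := by exact_mod_cast hN0
  refine ⟨N, hN1, fun x z hz z' hz' h1 h2 => ?_⟩
  refine hF x z hz z' hz' (lt_of_lt_of_le ?_ (hle x))
  have h3 : 1 / (N : ℝ) < δ0 := by
    rw [div_lt_iff₀ hN0]
    rw [div_lt_iff₀ hδ0] at hN
    linarith
  rw [Prod.dist_eq, max_lt_iff, Real.dist_eq, Real.dist_eq]
  exact ⟨lt_of_le_of_lt h1 h3, lt_of_le_of_lt h2 h3⟩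

end H32N
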