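import Pool.Agent.Lib.H32N.T1
import Pool.Agent.Lib.H32N.T3
import Pool.Agent.Lib.H32N.T5

set_option autoImplicit false

/-!
# H32N, chunk T6 (M): the multiplicity

Let `G x p q = in2 (4 g l) m (Dl μ D x) p q`. Suppose `z = fp s (f (G x0 p0 q0))` for some `x0` (otherwise the set is empty). For every other `x` in the set,
`z = fp s (f (G x p q))`, the two points of `ℝⁿ` are at distance `< 1` (`fp_dist`), so by `ThickEmb` the faces `sqr (Dl μ D x0) ⌊p0⌋₊ ⌊q0⌋₊` and `sqr (Dl μ D x) ⌊p⌋₊ ⌊q⌋₊` (`in2_mem`)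
are not disjoint: there is one of the at most four vertices `w` of the first one and `(i, j)` with `i ≤ 4 g l + 1`, `j ≤ m + 1` and `Dl μ D x i j = w`; for given `w, i, j` there is at most
one such `x` (`dl_inj`). So the set has at most `4 (4 g l + 2) (m + 2)` elements (it is contained in a union of subsingletons indexed by a finite set;
`Set.ncard_le_ncard`, `Finset.card_biUnion_le`, ..).

Auxiliary names start with `t6_`.
-/

open Finset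

namespace H32N

open H32D

theorem t6_sqr {W : Type} [DecidableEq W] (F : ℕ → ℕ → W) (i j : ℕ) {w : W} (h : w ∈ sqr F i j) :
    ∃ i' j', i' ≤ i + 1 ∧ j' ≤ j + 1 ∧ F i' j' = w := by
  unfold sqr at h
  simp only [Finset.mem_insert, Finset.mem_singleton] at h
  rcases h with rfl | rfl | rfl | rfl
  · exact ⟨i, j, by omega, by omega, rfl⟩
  · exact ⟨i + 1, j, by omega, by omega, rfl⟩
  · exact ⟨i, j + 1, by omega, by omega, rfl⟩
  · exact ⟨i + 1, j + 1, by omega, by omega, rfl⟩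

theorem mult_le {V P : Type} [Fintype V] [DecidableEq V] [Fintype P] [DecidableEq P] {K : Cpx V} {μ : V → V → Equiv.Perm P} (hμ : Flat K μ)
    {v0 : V} {g l m : ℕ} {c D : ℕ → ℕ → V} (hD : Disc K v0 g l m c D) (n : ℕ) (f : (V × P → ℝ) → EuclideanSpace ℝ (Fin n))
    (hf : ThickEmb (coverCpx K μ) n f) (z : Fin n → ℤ) :
    Set.ncard {x : P | ∃ p q : ℝ, 0 ≤ p ∧ p ≤ ((4 * g * l : ℕ) : ℝ) ∧ 0 ≤ q ∧ q ≤ m ∧ fp (4 * ((n : ℝ) + 1)) (f (in2 (4 * g * l) m (Dl μ D x) p q)) = z} ≤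
      4 * (4 * g * l + 2) * (m + 2) := by
  classical
  obtain ⟨S, hS⟩ : ∃ S : Set P, S = {x : P | ∃ p q : ℝ, 0 ≤ p ∧ p ≤ ((4 * g * l : ℕ) : ℝ) ∧ 0 ≤ q ∧ q ≤ m ∧
    fp (4 * ((n : ℝ) + 1)) (f (in2 (4 * g * l) m (Dl μ D x) p q)) = z} := ⟨_, rfl⟩
  rw [← hS]
  by_cases hne : S.Nonempty
  swap
  · rw [Set.not_nonempty_iff_eq_empty.1 hne, Set.ncard_empty]
    exact Nat.zero_le _
  obtain ⟨x0, hx0⟩ := hne
  rw [hS] at hx0
  obtain ⟨p0, q0, hp0, hpM0, hq0, hqm0, hz0⟩ := hx0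
  have hmem : ∀ (x : P) (p q : ℝ), 0 ≤ p → p ≤ ((4 * g * l : ℕ) : ℝ) → 0 ≤ q → q ≤ m →
      in2 (4 * g * l) m (Dl μ D x) p q ∈ (coverCpx K μ).cell (sqr (Dl μ D x) ⌊p⌋₊ ⌊q⌋₊) := fun x p q h1 h2 h3 h4 =>
    in2_mem (coverCpx K μ) (4 * g * l) m (Dl μ D x) (fun i j => dl_sq hμ hD x i j) p q h1 h2 h3 h4
  obtain ⟨I, hI⟩ : ∃ I : Finset (ℕ × ℕ × (V × P)), I = range (4 * g * l + 2) ×ˢ range (m + 2) ×ˢ sqr (Dl μ D x0) ⌊p0⌋₊ ⌊q0⌋₊ := ⟨_, rfl⟩
  have key : ∀ x, ∃ t : ℕ × ℕ × (V × P), x ∈ S → (t ∈ I ∧ Dl μ D x t.1 t.2.1 = t.2.2) := by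
    intro x
    by_cases hx : x ∈ S
    swap
    · exact ⟨(0, 0, Dl μ D x 0 0), fun h => absurd h hx⟩
    · have hx' := hx
      rw [hS] at hx'
      obtain ⟨p, q, hp, hpM, hq, hqm, hz⟩ := hx'
      have h1 : dist (f (in2 (4 * g * l) m (Dl μ D x0) p0 q0)) (f (in2 (4 * g * l) m (Dl μ D x) p q)) < 1 := fp_dist _ _ (hz0.trans hz.symm)
      have h2 : ¬ Disjoint (sqr (Dl μ D x0) ⌊p0⌋₊ ⌊q0⌋₊) (sqr (Dl μ D x) ⌊p⌋₊ ⌊q⌋₊) := by
        intro hdis
        have := hf.2.2 _ (dl_sq hμ hD x0 _ _) _ (dl_sq hμ hD x _ _) hdis _ (hmem x0 p0 q0 hp0 hpM0 hq0 hqm0) _ (hmem x p q hp hpM hq hqm)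
        linarith
      rw [Finset.not_disjoint_iff] at h2
      obtain ⟨w, hw0, hw⟩ := h2
      obtain ⟨i, j, hi, hj, hij⟩ := t6_sqr _ _ _ hw
      have hpf : ⌊p⌋₊ ≤ 4 * g * l := by
        have := Nat.floor_le_floor hpM
        rwa [Nat.floor_natCast] at this
      have hqf : ⌊q⌋₊ ≤ m := by
        have := Nat.floor_le_floor hqm
        rwa [Nat.floor_natCast] at this
      refine ⟨(i, j, w), fun _ => ⟨?_, hij⟩⟩
      rw [hI]
      simp only [Finset.mem_product, Finset.mem_range]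
      exact ⟨by omega, by omega, hw0⟩
  choose φ hφ using key
  have h1 : S.ncard ≤ (I : Set (ℕ × ℕ × (V × P))).ncard := by
    refine Set.ncard_le_ncard_of_injOn φ (fun x hx => (hφ x hx).1) ?_ (Finset.finite_toSet I)
    intro x hx y hy hxy
    have hx' := (hφ x hx).2
    have hy' := (hφ y hy).2
    rw [hxy] at hx'
    exact dl_inj μ D x y _ _ (hx'.trans hy'.symm)
  rw [Set.ncard_coe_finset] at h1
  refine h1.trans ?_
  rw [hI, Finset.card_product, Finset.card_product, Finset.card_range, Finset.card_range]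
  have h4 : (sqr (Dl μ D x0) ⌊p0⌋₊ ⌊q0⌋₊).card ≤ 4 := by
    unfold sqr
    exact Finset.card_le_four
  calc (4 * g * l + 2) * ((m + 2) * (sqr (Dl μ D x0) ⌊p0⌋₊ ⌊q0⌋₊).card) ≤ (4 * g * l + 2) * ((m + 2) * 4) :=
        Nat.mul_le_mul_left _ (Nat.mul_le_mul_left _ h4)
    _ = _ := by ring

end H32N
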