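import Pool.Agent.Lib.H32N.T2
import Pool.Agent.Lib.H32N.T4
import Pool.Agent.Lib.H32N.T6

set_option autoImplicit false

/-!
# H32N, chunk T7 (M/L): the digitized polygon complex

`s = 4 (n + 1)`. `unif` for `F x z = f (in2 (4 g l) m (Dl μ D x) z.1 z.2)` on `[0, 4 g l] × [0, m]` (`in2_mem`: in the realization, `in2_cont`, `ThickEmb.1`), `ε = 1 / s`: `N`.
The data: `m := l * N`, `m' := m * N`, `P v = fp s (f (Pi.single (v0, v) 1))`, `E k v i = fp s (f (in1 l (El μ c k v) (i / N)))`,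
`F x i j = fp s (f (in2 (4 g l) m (Dl μ D x) (i / N) (j / N)))`.
* `E_start`, `E_end`: `in1_start`, `in1_end` (`(l N : ℕ) / N = l`), `el_start`, `el_end`.
* `F_step`: the parameters are in the rectangle and differ by at most `1 / N`; `fp_close`.
* `F_bot`: `(s (l N) + i) / N = s l + i / N`, `in2_bottom` with `a = s * l` (`s * l + l ≤ 4 g l`), `dl_bottom`, `in1_congr`, `in1_rev` (`l - i / N = (l N - i) / N`).
* `E_step`: by `F_bot` for the positive side `s = 4 (k / 2) + k % 2` (`gen s = k`) and the polygon `x = (u σ s)⁻¹ v`, it follows from the closeness of points of the bottom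
  row (same argument as for `F_step`, with `q = 0`).
* `F_col`: `dl_left`, `dl_right`, `in2_col`. `F_top`: `dl_top`, `in2_top`. `mult`: `mult_le` (`Set.ncard_le_ncard`, the set is contained in that of `mult_le`). `bound`: `fp_bound`.

Auxiliary names start with `t7_`.
-/

open Finset

namespace H32N

open H32D

theorem t7_cast (a q i : ℕ) (hq : 1 ≤ q) (l : ℕ) : ((a * (l * q) + i : ℕ) : ℝ) / q = ((a * l : ℕ) : ℝ) + (i : ℝ) / q := by
  have : (q : ℝ) ≠ 0 := by positivity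
  push_cast
  field_simp

theorem t7_le (i q M : ℕ) (hq : 1 ≤ q) (h : i ≤ M * q) : (i : ℝ) / q ≤ M := by
  have : (0 : ℝ) < q := by positivity
  rw [div_le_iff₀ this]
  exact_mod_cast h

theorem digi_of_emb {V P : Type} [Fintype V] [DecidableEq V] [Fintype P] [DecidableEq P] {K : Cpx V} {μ : V → V → Equiv.Perm P} (hμ : Flat K μ)
    {v0 : V} {g l m : ℕ} {c D : ℕ → ℕ → V} (hD : Disc K v0 g l m c D) (σ : Fin (2 * g) → Equiv.Perm P) (hσ : Hol μ c l σ) (n : ℕ)
    (f : (V × P → ℝ) → EuclideanSpace ℝ (Fin n)) (hf : ThickEmb (coverCpx K μ) n f) (R : ℝ) (hR : ∀ x ∈ (coverCpx K μ).real, ‖f x‖ ≤ R) (N : ℕ)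
    (hN : 4 * ((n : ℝ) + 1) * (R + 1) ≤ N) : H98T.Digi σ n (4 * (4 * g * l + 2) * (m + 2)) N := by
  classical
  obtain ⟨M, hM⟩ : ∃ M, M = 4 * g * l := ⟨_, rfl⟩
  obtain ⟨sc, hsc⟩ : ∃ sc : ℝ, sc = 4 * ((n : ℝ) + 1) := ⟨_, rfl⟩
  have hsc1 : 1 ≤ sc := by
    rw [hsc]
    have : (0 : ℝ) ≤ n := Nat.cast_nonneg n
    linarith
  have hsc0 : 0 < sc := by linarith
  have hmem : ∀ (x : P) (p q : ℝ), 0 ≤ p → p ≤ M → 0 ≤ q → q ≤ m → in2 M m (Dl μ D x) p q ∈ (coverCpx K μ).real := fun x p q h1 h2 h3 h4 =>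
    (in2_mem (coverCpx K μ) M m (Dl μ D x) (fun i j => dl_sq hμ hD x i j) p q h1 h2 h3 h4).1
  obtain ⟨q, hq, hclose⟩ := unif (fun (x : P) (z : ℝ × ℝ) => f (in2 M m (Dl μ D x) z.1 z.2)) (M : ℝ) (m : ℝ) (by
    intro x
    refine hf.1.comp (in2_cont M m (Dl μ D x)).continuousOn ?_
    rintro ⟨p, q⟩ ⟨⟨h1, h2⟩, ⟨h3, h4⟩⟩
    exact hmem x p q h1 h2 h3 h4) (1 / sc) (by positivity)
  have hq0 : (0 : ℝ) < q := by positivity
  have hcl : ∀ (x : P) (i j i' j' : ℕ), i ≤ M * q → i' ≤ M * q → j ≤ m * q → j' ≤ m * q → |(i : ℝ) - i'| ≤ 1 → |(j : ℝ) - j'| ≤ 1 →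
      H98T.close (fp sc (f (in2 M m (Dl μ D x) ((i : ℝ) / q) ((j : ℝ) / q)))) (fp sc (f (in2 M m (Dl μ D x) ((i' : ℝ) / q) ((j' : ℝ) / q)))) := by
    intro x i j i' j' hi hi' hj hj' hii hjj
    apply fp_close sc hsc0
    have h1 := hclose x ((i : ℝ) / q, (j : ℝ) / q) ⟨⟨by positivity, t7_le i q M hq hi⟩, ⟨by positivity, t7_le j q m hq hj⟩⟩
      ((i' : ℝ) / q, (j' : ℝ) / q) ⟨⟨by positivity, t7_le i' q M hq hi'⟩, ⟨by positivity, t7_le j' q m hq hj'⟩⟩
      (by
        show |(i : ℝ) / q - (i' : ℝ) / q| ≤ 1 / q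
        rw [← sub_div, abs_div, abs_of_pos hq0]
        exact div_le_div_of_nonneg_right hii hq0.le)
      (by
        show |(j : ℝ) / q - (j' : ℝ) / q| ≤ 1 / q
        rw [← sub_div, abs_div, abs_of_pos hq0]
        exact div_le_div_of_nonneg_right hjj hq0.le)
    calc sc * _ < sc * (1 / sc) := mul_lt_mul_of_pos_left h1 hsc0
      _ = 1 := by field_simp
  have hab : ∀ a b i : ℕ, a ≤ 1 → b ≤ 1 → |((i + a : ℕ) : ℝ) - ((i + b : ℕ) : ℝ)| ≤ 1 := by
    intro a b i ha hb
    have ha' : (a : ℝ) ≤ 1 := by exact_mod_cast ha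
    have hb' : (b : ℝ) ≤ 1 := by exact_mod_cast hb
    have ha0 : (0 : ℝ) ≤ a := Nat.cast_nonneg a
    have hb0 : (0 : ℝ) ≤ b := Nat.cast_nonneg b
    push_cast
    rw [abs_le]
    constructor <;> linarith
  have hMq : 4 * g * (l * q) = M * q := by rw [hM]; ring
  have hbot : ∀ (x : P) (s : Fin (4 * g)) (i : ℕ), i ≤ l * q →
      f (in2 M m (Dl μ D x) (((s.val * (l * q) + i : ℕ) : ℝ) / q) (((0 : ℕ) : ℝ) / q)) =
        if s.val % 4 < 2 then f (in1 l (El μ c (H98T.gen s).val (H98T.u σ s.val x)) ((i : ℝ) / q))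
        else f (in1 l (El μ c (H98T.gen s).val (H98T.u σ (s.val + 1) x)) (((l * q - i : ℕ) : ℝ) / q)) := by
    intro x s i hi
    have hsl : s.val * l + l ≤ M := by
      rw [hM]
      calc s.val * l + l = (s.val + 1) * l := by ring
        _ ≤ 4 * g * l := Nat.mul_le_mul_right _ s.isLt
    rw [t7_cast s.val q i hq l, Nat.cast_zero, zero_div, in2_bottom M m _ (s.val * l) l hsl _ (by positivity) (t7_le i q l hq hi)]
    by_cases h4 : s.val % 4 < 2
    · rw [if_pos h4, in1_congr l _ (El μ c (H98T.gen s).val (H98T.u σ s.val x))]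
      intro i' hi'
      have := dl_bottom hμ hD σ hσ x s i' hi'
      rw [if_pos h4] at this
      exact this
    · rw [if_neg h4, in1_congr l _ (fun i' => El μ c (H98T.gen s).val (H98T.u σ (s.val + 1) x) (l - i')), in1_rev]
      · congr 2
        rw [Nat.cast_sub hi]
        push_cast
        field_simp
      · intro i' hi'
        have := dl_bottom hμ hD σ hσ x s i' hi'
        rw [if_neg h4] at this
        exact this
  refine ⟨{ m := l * q
            m' := m * q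
            P := fun v => fp sc (f (Pi.single (v0, v) 1))
            E := fun k v i => fp sc (f (in1 l (El μ c k.val v) ((i : ℝ) / q)))
            F := fun x i j => fp sc (f (in2 M m (Dl μ D x) ((i : ℝ) / q) ((j : ℝ) / q)))
            E_start := ?_, E_end := ?_, E_step := ?_, F_step := ?_, F_bot := ?_, F_col := ?_, F_top := ?_, mult := ?_, bound := ?_ }⟩
  · intro k v
    show fp sc (f (in1 l (El μ c k.val v) (((0 : ℕ) : ℝ) / q))) = _
    rw [Nat.cast_zero, zero_div, in1_start, el_start hD]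
  · intro k v
    show fp sc (f (in1 l (El μ c k.val v) (((l * q : ℕ) : ℝ) / q))) = _
    have : ((l * q : ℕ) : ℝ) / q = l := by push_cast; field_simp
    rw [this, in1_end, el_end hD σ hσ k v]
  · intro k v i hi
    have hk := k.isLt
    obtain ⟨s, hs⟩ : ∃ s : Fin (4 * g), s.val = 4 * (k.val / 2) + k.val % 2 := ⟨⟨4 * (k.val / 2) + k.val % 2, by omega⟩, rfl⟩
    have hs4 : s.val % 4 < 2 := by omega
    have hgen : H98T.gen s = k := by
      apply Fin.ext
      show 2 * (s.val / 4) + s.val % 2 = k.val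
      omega
    have h1 := hbot ((H98T.u σ s.val)⁻¹ v) s i hi.le
    have h2 := hbot ((H98T.u σ s.val)⁻¹ v) s (i + 1) hi
    have hv : H98T.u σ s.val ((H98T.u σ s.val)⁻¹ v) = v := by simp
    rw [if_pos hs4, hgen, hv] at h1 h2
    show H98T.close (fp sc (f (in1 l (El μ c k.val v) ((i : ℝ) / q)))) (fp sc (f (in1 l (El μ c k.val v) (((i + 1 : ℕ) : ℝ) / q))))
    rw [← h1, ← h2]
    have hle : s.val * (l * q) + i + 1 ≤ M * q := by
      rw [← hMq]
      calc s.val * (l * q) + i + 1 ≤ (s.val + 1) * (l * q) := by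
            have : (s.val + 1) * (l * q) = s.val * (l * q) + l * q := by ring
            omega
        _ ≤ 4 * g * (l * q) := Nat.mul_le_mul_right _ s.isLt
    refine hcl _ _ 0 _ 0 (by omega) (by omega) (Nat.zero_le _) (Nat.zero_le _) ?_ (by simp)
    push_cast
    rw [abs_le]
    constructor <;> linarith
  · intro x i j hi hj a b a' b' ha hb ha' hb'
    rw [hMq] at hi
    exact hcl x (i + a) (j + b) (i + a') (j + b') (by omega) (by omega) (by omega) (by omega) (hab a a' i ha ha') (hab b b' j hb hb')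
  · intro x s i hi
    show fp sc (f (in2 M m (Dl μ D x) (((s.val * (l * q) + i : ℕ) : ℝ) / q) (((0 : ℕ) : ℝ) / q))) = _
    rw [hbot x s i hi]
    split_ifs <;> rfl
  · intro x j hj
    have h1 : (((4 * g * (l * q) : ℕ) : ℝ)) / q = ((M : ℕ) : ℝ) := by
      rw [hMq]; push_cast; field_simp
    show fp sc (f (in2 M m (Dl μ D x) (((0 : ℕ) : ℝ) / q) ((j : ℝ) / q))) = fp sc (f (in2 M m (Dl μ D x) (((4 * g * (l * q) : ℕ) : ℝ) / q) ((j : ℝ) / q)))
    rw [h1, Nat.cast_zero, zero_div]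
    have h2 := in2_col M m (Dl μ D x) 0 (Nat.zero_le _) (v0, x) (fun j _ => dl_left hD x j) ((j : ℝ) / q) (by positivity) (t7_le j q m hq hj)
    have h3 := in2_col M m (Dl μ D x) M le_rfl (v0, x) (fun j _ => dl_right hμ hD x M j (by rw [hM])) ((j : ℝ) / q) (by positivity)
      (t7_le j q m hq hj)
    rw [Nat.cast_zero] at h2
    rw [h2, h3]
  · intro x i hi
    rw [hMq] at hi
    have h1 : ((m * q : ℕ) : ℝ) / q = (m : ℝ) := by push_cast; field_simp
    show fp sc (f (in2 M m (Dl μ D x) ((i : ℝ) / q) (((m * q : ℕ) : ℝ) / q))) = fp sc (f (in2 M m (Dl μ D x) (((0 : ℕ) : ℝ) / q) (((m * q : ℕ) : ℝ) / q)))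
    rw [h1, in2_top M m (Dl μ D x) (v0, x) (fun i _ => dl_top hD x i m le_rfl) _ (by positivity) (t7_le i q M hq hi), Nat.cast_zero, zero_div,
      in2_top M m (Dl μ D x) (v0, x) (fun i _ => dl_top hD x i m le_rfl) _ le_rfl (Nat.cast_nonneg _)]
  · intro z
    refine le_trans (Set.ncard_le_ncard ?_ (Set.toFinite _)) (mult_le hμ hD n f hf z)
    rintro x ⟨i, j, hi, hj, hz⟩
    rw [hMq] at hi
    refine ⟨(i : ℝ) / q, (j : ℝ) / q, by positivity, ?_, by positivity, t7_le j q m hq hj, ?_⟩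
    · rw [← hM]; exact t7_le i q M hq hi
    · rw [← hM, ← hsc]
      exact hz
  · intro x i j c' hi hj
    rw [hMq] at hi
    refine fp_bound sc hsc0 R _ (hR _ (hmem x _ _ (by positivity) (t7_le i q M hq hi) (by positivity) (t7_le j q m hq hj))) N ?_ c'
    rw [← hsc] at hN
    linarith

end H32N
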