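import Pool.Agent.Lib.H32N.NDefs
import Pool.Agent.Lib.H98T.Digi

set_option autoImplicit false

/-!
# H32N, definitions of module T (lifts, interpolation, digitization)
-/

open Finset

namespace H32N

open H32D

/-- The lift of the grid `D` starting on the sheet `x`. -/
def Dl {V P : Type} [DecidableEq V] (μ : V → V → Equiv.Perm P) (D : ℕ → ℕ → V) (x : P) (i j : ℕ) : V × P :=
  (D i j, (holF μ (fun i' => D i' j) i)⁻¹ x)

/-- The lift of the loop `c k` starting on the sheet `v`. -/
def El {V P : Type} [DecidableEq V] (μ : V → V → Equiv.Perm P) (c : ℕ → ℕ → V) (k : ℕ) (v : P) (i : ℕ) : V × P :=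
  (c k i, (holF μ (c k) i)⁻¹ v)

/-- The tent function. -/
noncomputable def tent (t : ℝ) : ℝ := max 0 (1 - |t|)

/-- Bilinear interpolation of a grid of vertices (barycentric coordinates). -/
noncomputable def in2 {W : Type} [DecidableEq W] (M m : ℕ) (F : ℕ → ℕ → W) (p q : ℝ) : W → ℝ :=
  fun w => ∑ i ∈ range (M + 1), ∑ j ∈ range (m + 1), if F i j = w then tent (p - i) * tent (q - j) else 0

/-- Linear interpolation of a sequence of vertices. -/
noncomputable def in1 {W : Type} [DecidableEq W] (l : ℕ) (c : ℕ → W) (p : ℝ) : W → ℝ :=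
  fun w => ∑ i ∈ range (l + 1), if c i = w then tent (p - i) else 0

/-- The four corners of a square of the grid. -/
def sqr {W : Type} [DecidableEq W] (F : ℕ → ℕ → W) (i j : ℕ) : Finset W := {F i j, F (i + 1) j, F i (j + 1), F (i + 1) (j + 1)}

/-- The lattice point of a point of `ℝⁿ`, scale `s`. -/
noncomputable def fp {n : ℕ} (s : ℝ) (y : EuclideanSpace ℝ (Fin n)) : Fin n → ℤ := fun i => ⌊s * y i⌋

/-- The holonomies of `lab` along the loops are the inverses of the permutations `σ`. -/
def Hol {V P : Type} [DecidableEq V] {g : ℕ} (lab : V → V → Equiv.Perm P) (c : ℕ → ℕ → V) (l : ℕ) (σ : Fin (2 * g) → Equiv.Perm P) : Prop :=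
  ∀ k : Fin (2 * g), holF lab (c k.val) l = (σ k)⁻¹

end H32N
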