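import Pool.Agent.Lib.H32N.X1

set_option autoImplicit false

/-!
# H32N, chunk X2 (M): expansion of the cover

`U0 = sl A v0`, `β = bd`. For `k < 2 g`: `(σ k) U0 \ U0` has at most `l β` elements (`slice_walk` for `c k`, `c k 0 = c k l = v0`, `(holF μ (c k) l)⁻¹ = σ k`).
* `2 |U0| ≤ card P`: `|U0| ≤ 100 * 2 l β` (`Expand`; trivial if `U0 = ∅`), `|A| = ∑ a, |sl A a| ≤ card V * (|U0| + card V * β) ≤ (200 l card V + (card V)²) β`.
* otherwise `U = U0ᶜ`: `(σ k) U \ U = U0 \ (σ k) U0` has as many elements as `(σ k) U0 \ U0` (equal cardinalities), so `|U| ≤ 200 l β`; `|Aᶜ| = ∑ a, (card P - |sl A a|) ≤ card V * (|U| + card V * β)`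
  (`|U0| ≤ |sl A a| + card V * β`), and `|A| ≤ |Aᶜ|` since `2 |A| ≤ card (V × P)`.
So `h1 = 1 / (200 l card V + (card V)² + 1)`. `two σ 0 = σ 0`, `two σ 1 = σ 1` as `g ≥ 1`.

Auxiliary names start with `x2_`.
-/

open Finset

namespace H32N

open H32D

theorem x2_image_compl {P : Type} [Fintype P] [DecidableEq P] (ρ : Equiv.Perm P) (U : Finset P) :
    (Uᶜ.image ρ \ Uᶜ).card = (U.image ρ \ U).card := by
  have h1 : Uᶜ.image ρ \ Uᶜ = U \ U.image ρ := by
    ext p
    simp only [Finset.mem_sdiff, Finset.mem_image, Finset.mem_compl, not_not]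
    constructor
    · rintro ⟨⟨q, hq, rfl⟩, h⟩
      refine ⟨h, ?_⟩
      rintro ⟨q', hq', he⟩
      exact hq (by rw [← ρ.injective he]; exact hq')
    · rintro ⟨h, h'⟩
      refine ⟨⟨ρ⁻¹ p, fun hq => h' ⟨_, hq, by simp⟩, by simp⟩, h⟩
  have h2 : (U.image ρ).card = U.card := Finset.card_image_of_injective _ ρ.injective
  have h3 := Finset.card_sdiff_add_card_inter U (U.image ρ)
  have h4 := Finset.card_sdiff_add_card_inter (U.image ρ) U
  rw [h1]
  rw [Finset.inter_comm] at h4
  omega

theorem x2_card {V P : Type} [Fintype V] [DecidableEq V] [Fintype P] [DecidableEq P] (A : Finset (V × P)) :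
    A.card = ∑ a, (sl A a).card := by
  rw [Finset.card_eq_sum_card_fiberwise (f := Prod.fst) (t := univ) (fun x _ => Finset.mem_univ _)]
  refine Finset.sum_congr rfl fun a _ => ?_
  refine (Finset.card_bij (fun p _ => (a, p)) ?_ ?_ ?_).symm
  · intro p hp
    exact Finset.mem_filter.2 ⟨(Finset.mem_filter.1 hp).2, rfl⟩
  · intro p _ q _ h
    exact (Prod.mk.inj h).2
  · rintro ⟨b, p⟩ hx
    obtain ⟨h1, h2⟩ := Finset.mem_filter.1 hx
    have h3 : b = a := h2
    subst h3
    exact ⟨p, Finset.mem_filter.2 ⟨Finset.mem_univ _, h1⟩, rfl⟩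

theorem cover_expands2 {V : Type} [Fintype V] [DecidableEq V] {K : Cpx V} (hK : K.graph.Connected) {v0 : V} {g l m : ℕ} (hg : 1 ≤ g) {c D : ℕ → ℕ → V}
    (hD : Disc K v0 g l m c D) : ∃ h1 : ℝ, 0 < h1 ∧ ∀ (P : Type) (_ : Fintype P) (_ : DecidableEq P) (μ : V → V → Equiv.Perm P) (_ : Flat K μ)
      (σ : Fin (2 * g) → Equiv.Perm P), Hol μ c l σ → H98T.Expand (H98T.two σ) → Expands (coverCpx K μ).graph h1 := by
  classical
  obtain ⟨T, hT⟩ : ∃ T, T = 200 * l * Fintype.card V + (Fintype.card V) ^ 2 := ⟨_, rfl⟩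
  refine ⟨1 / ((T : ℝ) + 1), by positivity, ?_⟩
  intro P _ _ μ hμ σ hσ hE A hA
  show _ ≤ ((bd (coverCpx K μ).graph A : ℕ) : ℝ)
  obtain ⟨β, hβ⟩ : ∃ β, β = bd (coverCpx K μ).graph A := ⟨_, rfl⟩
  rw [← hβ]
  have hstep : ∀ k : Fin (2 * g), ((sl A v0).image (σ k) \ sl A v0).card ≤ l * β := by
    intro k
    have h1 := slice_walk hμ A (c k.val) (hD.cf k.val) l
    rw [hD.c0, hD.cl k.val k.isLt l le_rfl, hσ k, inv_inv, ← hβ] at h1
    exact h1
  have h2g : 2 ≤ 2 * g := by omega
  have htwo : ∀ i : Fin 2, H98T.two σ i = σ ⟨i.val, by omega⟩ := by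
    intro i
    unfold H98T.two
    rw [dif_pos (by omega)]
  have hstep0 : ((sl A v0).image (H98T.two σ 0) \ sl A v0).card ≤ l * β := by rw [htwo]; exact hstep _
  have hstep1 : ((sl A v0).image (H98T.two σ 1) \ sl A v0).card ≤ l * β := by rw [htwo]; exact hstep _
  have hslice : ∀ a b, (sl A a).card ≤ (sl A b).card + Fintype.card V * β := fun a b => by
    rw [hβ]; exact slice_card hK hμ A a b
  have main : A.card ≤ T * β := by
    by_cases h0 : 2 * (sl A v0).card ≤ Fintype.card P
    · have h1 : (sl A v0).card ≤ 200 * l * β := by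
        by_cases hne : (sl A v0).Nonempty
        · have := hE (sl A v0) hne h0
          calc (sl A v0).card ≤ _ := this
            _ ≤ 100 * (l * β + l * β) := Nat.mul_le_mul_left _ (Nat.add_le_add hstep0 hstep1)
            _ = 200 * l * β := by ring
        · rw [Finset.not_nonempty_iff_eq_empty.1 hne]; simp
      calc A.card = ∑ a, (sl A a).card := x2_card A
        _ ≤ ∑ a : V, (200 * l * β + Fintype.card V * β) :=
          Finset.sum_le_sum fun a _ => (hslice a v0).trans (Nat.add_le_add_right h1 _)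
        _ = T * β := by
          rw [Finset.sum_const, Finset.card_univ, smul_eq_mul, hT]; ring
    · have hc1 : (sl A v0)ᶜ.card = Fintype.card P - (sl A v0).card := Finset.card_compl _
      have hc0 : 2 * (sl A v0)ᶜ.card ≤ Fintype.card P := by rw [hc1]; omega
      have h1 : (sl A v0)ᶜ.card ≤ 200 * l * β := by
        by_cases hne : ((sl A v0)ᶜ).Nonempty
        · have := hE (sl A v0)ᶜ hne hc0
          rw [x2_image_compl, x2_image_compl] at this
          calc (sl A v0)ᶜ.card ≤ _ := this
            _ ≤ 100 * (l * β + l * β) := Nat.mul_le_mul_left _ (Nat.add_le_add hstep0 hstep1)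
            _ = 200 * l * β := by ring
        · rw [Finset.not_nonempty_iff_eq_empty.1 hne]; simp
      have h2 : Fintype.card (V × P) ≤ A.card + T * β := by
        rw [Fintype.card_prod, x2_card A]
        calc Fintype.card V * Fintype.card P = ∑ a : V, Fintype.card P := by
              rw [Finset.sum_const, Finset.card_univ, smul_eq_mul]
          _ ≤ ∑ a : V, ((sl A a).card + (200 * l * β + Fintype.card V * β)) := by
              refine Finset.sum_le_sum fun a _ => ?_
              have h3 := hslice v0 a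
              have h4 : (sl A v0).card ≤ Fintype.card P := Finset.card_le_univ _
              omega
          _ = _ := by
              rw [Finset.sum_add_distrib, Finset.sum_const, Finset.card_univ, smul_eq_mul, hT]; ring
      omega
  have main' : (A.card : ℝ) ≤ T * β := by exact_mod_cast main
  rw [div_mul_eq_mul_div, one_mul, div_le_iff₀ (by positivity)]
  nlinarith [Nat.cast_nonneg (α := ℝ) β]

end H32N
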