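import Pool.Agent.Lib.H32N.E7
import Pool.Agent.Lib.H32N.T7
import Pool.Agent.Lib.H32N.X2
import Pool.Agent.Lib.H32D.C4

set_option autoImplicit false

/-!
# H32N, the topology theorem
-/

open Finset

namespace H32N

open H32D

theorem topology {V : Type} [Fintype V] [DecidableEq V] (K : Cpx V) (hK : IsSurface K) (g : ℕ) (hg : 2 ≤ g) (hχ : K.euler = 2 - 2 * (g : ℤ))
    (n : ℕ) : ∃ (C0 : ℕ) (C h1 : ℝ), 0 < C ∧ 0 < h1 ∧ ∀ (d : ℕ), 1 ≤ d → ∀ σ : Fin (2 * g) → Equiv.Perm (Fin d), H98T.IsCov σ →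
      H98T.Expand (H98T.two σ) → ∃ (W : Type) (_ : Fintype W) (_ : DecidableEq W) (L : Cpx W) (p : W → V), IsCovering p L K ∧ IsSurface L ∧
        Expands L.graph h1 ∧ L.euler = d * K.euler ∧ ∀ (R : ℝ) (f : (W → ℝ) → EuclideanSpace ℝ (Fin n)), ThickEmb L n f →
          (∀ x ∈ L.real, ‖f x‖ ≤ R) → ∀ N : ℕ, C * (R + 1) ≤ N → H98T.Digi σ n C0 N := by
  obtain ⟨v0, l, m, c, D, hD, hreal⟩ := exists_disc hK g (by omega) hχ
  obtain ⟨h1, hh1, hexp⟩ := cover_expands2 hK.conn (by omega : 1 ≤ g) hD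
  refine ⟨4 * (4 * g * l + 2) * (m + 2), 4 * ((n : ℝ) + 1), h1, by positivity, hh1, fun d hd σ hσ hE => ?_⟩
  obtain ⟨μ, hμ, hhol⟩ := hreal (Equiv.Perm (Fin d)) inferInstance (fun k => if h : k < 2 * g then (σ ⟨k, h⟩)⁻¹ else 1) (by
    rw [comm_eq, hσ, inv_one])
  have hH : Hol μ c l σ := by
    intro k
    rw [hhol k.val k.isLt, dif_pos k.isLt]
  have hex := hexp (Fin d) inferInstance inferInstance μ hμ σ hH hE
  haveI : Nonempty (Fin d) := ⟨⟨0, by omega⟩⟩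
  refine ⟨V × Fin d, inferInstance, inferInstance, coverCpx K μ, Prod.fst, cover_covering hμ, cover_surface hK hμ hh1 hex, hex, ?_, ?_⟩
  · rw [cover_euler hμ, Fintype.card_fin]
  · intro R f hf hR N hN
    exact digi_of_emb hμ hD σ hH n f hf R hR N hN

end H32N
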