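import Pool.Agent.Lib.H32N.TDefs
import Pool.Agent.Lib.H32D.C1

set_option autoImplicit false

/-!
# H32N, chunk X1 (M): transport of slices

`A : Finset (V × P)`, `sl A a = {p | (a, p) ∈ A}`. `bd` = the number of pairs `(x, y)`, `x ∈ A`, `y ∉ A`, adjacent in the cover (as in `Expands`).
* `slice_step`: `{a, b} ∈ K.faces`: the image of `sl A a` under `(lb μ a b)⁻¹` has at most `bd` elements outside `sl A b`: for `a = b` none; for `a ≠ b`, `p ∈ sl A a`,
  `q = (μ a b)⁻¹ p ∉ sl A b` the pair `((a, p), (b, q))` is a boundary pair (`H32D.cover_adj`), injective in `q`.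
* `slice_walk`: induction on `n`: the image of `sl A (c 0)` under `(holF μ c n)⁻¹` has at most `n * bd` elements outside `sl A (c n)`
  (`holF μ c (n + 1) = holF μ c n * lb ..`; `ρ U \ W ⊆ ρ (U \ W') ∪ (ρ W' \ W)`).
* `slice_card`: `|sl A a| ≤ |sl A b| + card V * bd` for all `a, b`: a walk of length `< card V` in the connected graph `K.graph`.

Auxiliary names start with `x1_`.
-/

open Finset

namespace H32N

open H32D

/-- The slice of `A` over `a`. -/
def sl {V P : Type} [DecidableEq V] [Fintype P] [DecidableEq P] (A : Finset (V × P)) (a : V) : Finset P := univ.filter (fun p => (a, p) ∈ A)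

/-- The number of boundary pairs. -/
noncomputable def bd {W : Type} (G : SimpleGraph W) (A : Finset W) : ℕ := Set.ncard {q : W × W | q.1 ∈ A ∧ q.2 ∉ A ∧ G.Adj q.1 q.2}

theorem x1_mem_sl {V P : Type} [DecidableEq V] [Fintype P] [DecidableEq P] (A : Finset (V × P)) (a : V) (p : P) : p ∈ sl A a ↔ (a, p) ∈ A := by
  unfold sl
  simp

theorem x1_step {V P : Type} [Fintype V] [DecidableEq V] [Fintype P] [DecidableEq P] {K : Cpx V} {μ : V → V → Equiv.Perm P} (hμ : Flat K μ)
    (A : Finset (V × P)) (a b : V) (hab : ({a, b} : Finset V) ∈ K.faces) :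
    (((sl A a).image (fun p => (lb μ a b)⁻¹ p)) \ sl A b).card ≤ bd (coverCpx K μ).graph A := by
  by_cases h : a = b
  · subst h
    have h1 : (((sl A a).image (fun p => (lb μ a a)⁻¹ p)) \ sl A a) = ∅ := by
      rw [Finset.sdiff_eq_empty_iff_subset]
      intro q hq
      obtain ⟨p, hp, rfl⟩ := Finset.mem_image.1 hq
      simpa [lb] using hp
    rw [h1]
    exact Nat.zero_le _
  · unfold bd
    rw [← Set.ncard_coe_finset]
    refine Set.ncard_le_ncard_of_injOn (fun q => ((a, μ a b q), (b, q))) ?_ ?_ (Set.toFinite _)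
    · intro q hq
      rw [Finset.mem_coe, Finset.mem_sdiff, Finset.mem_image] at hq
      obtain ⟨⟨p, hp, hpq⟩, hq2⟩ := hq
      rw [x1_mem_sl] at hp hq2
      have h2 : p = μ a b q := by
        rw [← hpq]
        simp [lb, h]
      refine ⟨?_, hq2, ?_⟩
      · show (a, μ a b q) ∈ A
        rw [← h2]
        exact hp
      · rw [cover_adj hμ]
        exact ⟨⟨h, hab⟩, rfl⟩
    · intro q _ q' _ hqq
      simp only [Prod.mk.injEq] at hqq
      exact hqq.2.2

theorem x1_holF_succ {V H : Type} [DecidableEq V] [Group H] (lab : V → V → H) (c : ℕ → V) (n : ℕ) :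
    holF lab c (n + 1) = holF lab c n * lb lab (c n) (c (n + 1)) := by
  unfold holF
  rw [List.range_succ, List.map_append, List.prod_append]
  simp

theorem slice_walk {V P : Type} [Fintype V] [DecidableEq V] [Fintype P] [DecidableEq P] {K : Cpx V} {μ : V → V → Equiv.Perm P} (hμ : Flat K μ)
    (A : Finset (V × P)) (c : ℕ → V) (hc : ∀ i, ({c i, c (i + 1)} : Finset V) ∈ K.faces) (n : ℕ) :
    (((sl A (c 0)).image (fun p => (holF μ c n)⁻¹ p)) \ sl A (c n)).card ≤ n * bd (coverCpx K μ).graph A := by
  induction n with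
  | zero =>
    have h1 : (((sl A (c 0)).image (fun p => (holF μ c 0)⁻¹ p)) \ sl A (c 0)) = ∅ := by
      rw [Finset.sdiff_eq_empty_iff_subset]
      intro q hq
      obtain ⟨p, hp, rfl⟩ := Finset.mem_image.1 hq
      simpa [holF] using hp
    rw [h1]
    exact Nat.zero_le _
  | succ n ih =>
    have h1 : (((sl A (c 0)).image (fun p => (holF μ c (n + 1))⁻¹ p)) \ sl A (c (n + 1))) ⊆
        (((sl A (c 0)).image (fun p => (holF μ c n)⁻¹ p)) \ sl A (c n)).image (fun p => (lb μ (c n) (c (n + 1)))⁻¹ p) ∪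
        (((sl A (c n)).image (fun p => (lb μ (c n) (c (n + 1)))⁻¹ p)) \ sl A (c (n + 1))) := by
      intro q hq
      rw [Finset.mem_sdiff, Finset.mem_image] at hq
      obtain ⟨⟨p, hp, hpq⟩, hq2⟩ := hq
      rw [x1_holF_succ, mul_inv_rev, Equiv.Perm.mul_apply] at hpq
      by_cases h2 : (holF μ c n)⁻¹ p ∈ sl A (c n)
      · refine Finset.mem_union_right _ (Finset.mem_sdiff.2 ⟨Finset.mem_image.2 ⟨_, h2, hpq⟩, hq2⟩)
      · refine Finset.mem_union_left _ (Finset.mem_image.2 ⟨_, Finset.mem_sdiff.2 ⟨Finset.mem_image_of_mem _ hp, h2⟩, hpq⟩)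
    calc (((sl A (c 0)).image (fun p => (holF μ c (n + 1))⁻¹ p)) \ sl A (c (n + 1))).card
        ≤ _ := Finset.card_le_card h1
      _ ≤ _ := Finset.card_union_le _ _
      _ ≤ n * bd (coverCpx K μ).graph A + bd (coverCpx K μ).graph A :=
          Nat.add_le_add (le_trans Finset.card_image_le ih) (x1_step hμ A _ _ (hc n))
      _ = (n + 1) * bd (coverCpx K μ).graph A := by ring

theorem slice_card {V P : Type} [Fintype V] [DecidableEq V] [Fintype P] [DecidableEq P] {K : Cpx V} (hK : K.graph.Connected)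
    {μ : V → V → Equiv.Perm P} (hμ : Flat K μ) (A : Finset (V × P)) (a b : V) :
    (sl A a).card ≤ (sl A b).card + Fintype.card V * bd (coverCpx K μ).graph A := by
  obtain ⟨w⟩ := hK.preconnected a b
  have hp := w.toPath.2
  set p : K.graph.Walk a b := (w.toPath : K.graph.Walk a b) with hpdef
  have hlen := hp.length_lt
  have hc : ∀ i, ({p.getVert i, p.getVert (i + 1)} : Finset V) ∈ K.faces := by
    intro i
    by_cases hi : i < p.length
    · exact (p.adj_getVert_succ hi).2
    · rw [p.getVert_of_length_le (by omega), p.getVert_of_length_le (by omega)]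
      simpa using K.vertex b
  have h1 := slice_walk hμ A p.getVert hc p.length
  rw [SimpleGraph.Walk.getVert_length, SimpleGraph.Walk.getVert_zero] at h1
  have h2 : ((sl A a).image (fun q => (holF μ p.getVert p.length)⁻¹ q)).card = (sl A a).card :=
    Finset.card_image_of_injective _ (holF μ p.getVert p.length)⁻¹.injective
  have h3 := Finset.card_le_card_sdiff_add_card (s := (sl A a).image (fun q => (holF μ p.getVert p.length)⁻¹ q)) (t := sl A b)
  have h4 : p.length * bd (coverCpx K μ).graph A ≤ Fintype.card V * bd (coverCpx K μ).graph A :=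
    Nat.mul_le_mul_right _ (le_of_lt hlen)
  omega

end H32N
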